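import Pool.Agent.HitD5.Kam

set_option autoImplicit false

/-! # the case (ii) -/

namespace Pool.Agent.HitD5

open Pool.Agent.Helper60.Hit MvPolynomial Pool.Agent.CTL45

/-- converse of `adm_insert` -/
theorem adm_delete {n : ℕ} (p : Fin (n + 1)) {e0 : Fin (n + 1) → ℕ} {t : Fin n → ℕ}
    (h0 : e0 p = 0) (ht : ∀ j, e0 (p.succAbove j) = t j) (h : Adm e0) : Adm t := by
  intro hin
  apply h
  rw [Submodule.mem_sup] at hin
  obtain ⟨g, hg, f, hf, hgf⟩ := hin
  let ι : MvPolynomial (Fin n) (ZMod 2) →ₐ[ZMod 2] MvPolynomial (Fin (n + 1)) (ZMod 2) :=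
    aeval (fun j => X (p.succAbove j))
  have hι : ∀ y : Fin n → ℕ, ι (mono y) = mono (Fin.insertNth (α := fun _ => ℕ) p 0 y) := by
    intro y
    show aeval _ (mono y) = _
    rw [aeval_mono, mono_eq_prod, Fin.prod_univ_succAbove _ p, Fin.insertNth_apply_same, pow_zero,
      one_mul]
    simp only [Fin.insertNth_apply_succAbove]
  have h1 : ι g ∈ hits (n + 1) := aeval_hits _ (fun i => lin_X _) hg
  have hwt : ∀ y : Fin n → ℕ, wt (Fin.insertNth (α := fun _ => ℕ) p 0 y) = wt y := by
    intro y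
    funext k
    unfold wt
    rw [Fin.sum_univ_succAbove _ p, Fin.insertNth_apply_same]
    simp only [Fin.insertNth_apply_succAbove]
    simp
  have hsum : ∀ y : Fin n → ℕ,
      ∑ i, Fin.insertNth (α := fun _ => ℕ) p 0 y i = ∑ j, y j := by
    intro y
    rw [Fin.sum_univ_succAbove _ p, Fin.insertNth_apply_same, zero_add]
    simp only [Fin.insertNth_apply_succAbove]
  have he0 : e0 = Fin.insertNth (α := fun _ => ℕ) p 0 t := by
    funext i
    rcases Fin.eq_self_or_eq_succAbove p i with rfl | ⟨j, rfl⟩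
    · rw [Fin.insertNth_apply_same, h0]
    · rw [Fin.insertNth_apply_succAbove, ht]
  have h2 : ι f ∈ msp (fun z => MonLT z e0) := by
    clear hgf
    induction hf using Submodule.span_induction with
    | zero => rw [map_zero]; exact Submodule.zero_mem _
    | add x y _ _ hx hy => rw [map_add]; exact Submodule.add_mem _ hx hy
    | smul a x _ hx => rw [map_smul]; exact Submodule.smul_mem _ _ hx
    | mem x hx =>
      obtain ⟨y, rfl, hs, hy⟩ := hx
      rw [hι]
      apply mono_mem_msp
      rw [he0]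
      refine ⟨by rw [hsum, hsum, hs], ?_⟩
      rw [hwt, hwt]
      rcases hy with hy | ⟨hy1, j, hj, hj'⟩
      · exact Or.inl hy
      · refine Or.inr ⟨hy1, p.succAbove j, fun i hi => ?_, ?_⟩
        · rcases Fin.eq_self_or_eq_succAbove p i with rfl | ⟨l, rfl⟩
          · rw [Fin.insertNth_apply_same, Fin.insertNth_apply_same]
          · rw [Fin.insertNth_apply_succAbove, Fin.insertNth_apply_succAbove]
            exact hj l ((Fin.strictMono_succAbove p).lt_iff_lt.mp hi)
        · rw [Fin.insertNth_apply_succAbove, Fin.insertNth_apply_succAbove]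
          exact hj'
  have h3 : mono e0 = ι g + ι f := by
    rw [← map_add, hgf, hι, he0]
  rw [h3]
  exact Submodule.add_mem_sup h1 h2

theorem caseII {t : Fin 4 → ℕ} (h : Adm t) (h0 : t 0 = 1) (h1 : t 1 = 7) (h2 : t 2 % 8 = 6)
    (h2' : 7 < t 2) (h3 : t 3 % 2 = 1) (h3' : 1 < t 3) {e : Fin 5 → ℕ}
    (he : e = ![7, 1, 7, t 2 - 6, t 3 - 1]) : Adm e := by
  have k1 := adm_half h
  have k2 : Adm (![3, t 2 / 2, t 3 / 2] : Fin 3 → ℕ) := by
    refine adm_delete 0 ?_ ?_ k1
    · show t 0 / 2 = 0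
      rw [h0]
    · intro j
      fin_cases j
      · show t 1 / 2 = 3
        rw [h1]
      · rfl
      · rfl
  have k3 := adm_full k2
  have k4 : Adm (![0, 7, t 2 + 1, t 3] : Fin 4 → ℕ) := by
    refine adm_insert 0 rfl ?_ k3
    intro j
    fin_cases j
    · rfl
    · show t 2 + 1 = 2 * (t 2 / 2) + 1
      omega
    · show t 3 = 2 * (t 3 / 2) + 1
      omega
  have k5 : Adm (![7, 7, t 2 - 5, t 3 - 1] : Fin 4 → ℕ) := by
    refine (main_adm 0 (![0, 7, t 2 + 1, t 3] : Fin 4 → ℕ) rfl 3 ![1, 2, 3] 1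
      (![7, 7, t 2 - 5, t 3 - 1] : Fin 4 → ℕ) ?_ ?_ ?_ ?_ ?_ rfl ?_ ?_ ?_).1 k4
    · intro a b hab
      revert a b
      decide
    · decide
    · intro i m hi hm him
      have hm0 : m = 0 := by
        rw [Fin.lt_def] at hm
        exact Fin.ext (by simpa using hm)
      subst hm0
      have hi1 : i = 1 := by
        revert i
        decide
      rw [hi1]
      rfl
    · intro m hm
      fin_cases m
      · show (t 2 + 1) / 2 ^ 2 % 2 = 1
        omega
      · show (t 2 + 1) / 2 ^ 1 % 2 = 1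
        omega
      · exact absurd hm (by decide)
    · intro m hm
      fin_cases m
      · exact absurd hm (by decide)
      · exact absurd hm (by decide)
      · show t 3 / 2 ^ 0 % 2 = 1
        omega
    · show t 2 - 5 + ∑ m ∈ Finset.range 2, 2 ^ (3 - 1 - m) = t 2 + 1
      have : ∑ m ∈ Finset.range 2, 2 ^ (3 - 1 - m) = 6 := by decide
      omega
    · intro m hm
      fin_cases m
      · exact absurd hm (by decide)
      · exact absurd hm (by decide)
      · show t 3 - 1 + 2 ^ 0 = t 3
        omega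
    · intro i hi him
      fin_cases i
      · exact absurd rfl hi
      · rfl
      · exact absurd rfl (him 1 (by decide))
      · exact absurd rfl (him 2 (by decide))
  have k6 : Adm (![7, 0, 7, t 2 - 5, t 3 - 1] : Fin 5 → ℕ) := by
    refine adm_insert 1 rfl ?_ k5
    intro j
    fin_cases j <;> rfl
  rw [he]
  refine (main_adm 1 (![7, 0, 7, t 2 - 5, t 3 - 1] : Fin 5 → ℕ) rfl 1 ![3] 0
    (![7, 1, 7, t 2 - 6, t 3 - 1] : Fin 5 → ℕ) ?_ ?_ ?_ ?_ ?_ rfl ?_ ?_ ?_).1 k6
  · intro a b hab
    revert a b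
    decide
  · decide
  · intro i m hi hm him
    rw [Fin.lt_def] at hm
    exact absurd hm (Nat.not_lt_zero _)
  · intro m hm
    fin_cases m
    show (t 2 - 5) / 2 ^ 0 % 2 = 1
    omega
  · intro m hm
    fin_cases m
    exact absurd hm (by decide)
  · show t 2 - 6 + ∑ m ∈ Finset.range 1, 2 ^ (1 - 1 - m) = t 2 - 5
    have : ∑ m ∈ Finset.range 1, 2 ^ (1 - 1 - m) = 1 := by decide
    omega
  · intro m hm
    fin_cases m
    exact absurd hm (by decide)
  · intro i hi him
    fin_cases i
    · rfl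
    · exact absurd rfl hi
    · rfl
    · exact absurd rfl (him 0 (by decide))
    · rfl

end Pool.Agent.HitD5
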