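import Pool.Agent.HitD5.OpsAB

set_option autoImplicit false

/-! # The operators AB and G0 for the positions of the problem -/

namespace Pool.Agent.HitD5

open Pool.Agent.Helper60.Hit MvPolynomial Pool.Agent.CTL45

variable {n : ℕ}

theorem wk_main (p : Fin (n + 1)) (e0 : Fin (n + 1) → ℕ) (h0 : e0 p = 0)
    (r : ℕ) (κ : Fin r → Fin (n + 1)) (u : Fin r) (e : Fin (n + 1) → ℕ)
    (hκ : StrictMono κ) (hpκ : ∀ m, p < κ m)
    (hlow : ∀ m : Fin r, m < u → e0 (κ m) = 2 ^ r - 1)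
    (hbu : ∀ m : Fin r, m ≤ u → e0 (κ u) / 2 ^ (r - 1 - (m : ℕ)) % 2 = 1)
    (hbm : ∀ m : Fin r, u < m → e0 (κ m) / 2 ^ (r - 1 - (m : ℕ)) % 2 = 1)
    (hep : e p = 2 ^ r - 1)
    (heu : e (κ u) + ∑ m ∈ Finset.range ((u : ℕ) + 1), 2 ^ (r - 1 - m) = e0 (κ u))
    (hem : ∀ m : Fin r, u < m → e (κ m) + 2 ^ (r - 1 - (m : ℕ)) = e0 (κ m))
    (heq : ∀ i, i ≠ p → (∀ m, u ≤ m → i ≠ κ m) → e i = e0 i) :
    Wk (seqOf p κ) r (u : ℕ) e e0 := by
  classical
  have hκinj : Function.Injective κ := hκ.injective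
  have hInc : Inc (seqOf p κ) r := inc_seqOf hκ hpκ
  let s : Finset (Fin (n + 1)) := (Finset.Ioi u).image κ
  have hMM : MM (seqOf p κ) r ((u : ℕ) + 1) = s := MM_seqOf u
  have hscard : s.card = r - 1 - (u : ℕ) := by
    show ((Finset.Ioi u).image κ).card = _
    rw [Finset.card_image_of_injective _ hκinj, Fin.card_Ioi]
  have hu := u.2
  have ha : ∀ x ∈ s, κ u < x := by
    intro x hx
    obtain ⟨m, hm, rfl⟩ := Finset.mem_image.mp hx
    exact hκ (Finset.mem_Ioi.mp hm)
  have hcst : ∀ m : Fin r, u < m → cst s (κ m) = 2 ^ (r - 1 - (m : ℕ)) := by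
    intro m hm
    have hmem : κ m ∈ s := Finset.mem_image.mpr ⟨m, Finset.mem_Ioi.mpr hm, rfl⟩
    unfold cst
    rw [if_pos hmem]
    congr 1
    have : s.filter (fun x => κ m < x) = (Finset.Ioi m).image κ := by
      ext x
      rw [Finset.mem_filter, Finset.mem_image, Finset.mem_image]
      constructor
      · rintro ⟨⟨m', hm', rfl⟩, hlt⟩
        exact ⟨m', Finset.mem_Ioi.mpr (hκ.lt_iff_lt.mp hlt), rfl⟩
      · rintro ⟨m', hm', rfl⟩
        exact ⟨⟨m', Finset.mem_Ioi.mpr (hm.trans (Finset.mem_Ioi.mp hm')), rfl⟩,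
          hκ (Finset.mem_Ioi.mp hm')⟩
    rw [this, Finset.card_image_of_injective _ hκinj, Fin.card_Ioi]
  have hcst0 : ∀ i, i ∉ s → cst s i = 0 := by
    intro i hi; unfold cst; rw [if_neg hi]
  have hus : κ u ∉ s := fun h => lt_irrefl _ (ha _ h)
  have he0f : cstar r (κ u) s + Function.update e p 0 = e0 := by
    funext i
    unfold cstar
    rw [Pi.add_apply, Pi.add_apply]
    by_cases hip : i = p
    · subst hip
      have h1 : i ≠ κ u := ne_of_lt (hpκ u)
      have h2 : i ∉ s := by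
        intro h
        obtain ⟨m, -, hm⟩ := Finset.mem_image.mp h
        exact absurd (hm ▸ hpκ m) (lt_irrefl _)
      rw [Pi.single_eq_of_ne h1, hcst0 i h2, Function.update_self, h0]
    · rw [Function.update_of_ne hip]
      by_cases hiu : i = κ u
      · subst hiu
        rw [Pi.single_eq_same, hcst0 _ hus, hscard, ← sum_range_two_pow r u hu, ← heu]
        ring
      · rw [Pi.single_eq_of_ne hiu, zero_add]
        by_cases his : i ∈ s
        · obtain ⟨m, hm, rfl⟩ := Finset.mem_image.mp his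
          have hm' := Finset.mem_Ioi.mp hm
          rw [hcst m hm', ← hem m hm']; ring
        · rw [hcst0 i his, zero_add]
          apply heq i hip
          intro m hm hc
          rcases eq_or_lt_of_le hm with h | h
          · exact hiu (by rw [hc, h])
          · exact his (Finset.mem_image.mpr ⟨m, Finset.mem_Ioi.mpr h, hc.symm⟩)
  have hGood := (Cr_lead ha (R := r) (by omega : s.card < r)).1
  have hwt : wt e0 = wt e := by
    rw [← he0f, wt_add_eq]
    · funext k
      have h1 : wt (cstar r (κ u) s) k = (2 ^ r - 1) / 2 ^ k % 2 := hGood.2.2 k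
      rw [Pi.add_apply, h1]
      unfold wt
      rw [Fin.sum_univ_succAbove (fun j => Function.update e p 0 j / 2 ^ k % 2) p,
        Fin.sum_univ_succAbove (fun j => e j / 2 ^ k % 2) p, Function.update_self, hep]
      simp
    · intro i k
      unfold cstar
      rw [Pi.add_apply]
      by_cases hip : i = p
      · subst hip
        rw [Function.update_self]; simp
      · rw [Function.update_of_ne hip]
        by_cases hiu : i = κ u
        · subst hiu
          rw [Pi.single_eq_same, hcst0 _ hus, hscard, ← sum_range_two_pow r u hu, add_zero,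
            ← sum_image_two_pow r u hu]
          refine no_common _ (e0 (κ u)) _ ?_ ?_ k
          · intro b hb
            obtain ⟨m, hm, rfl⟩ := Finset.mem_image.mp hb
            rw [Finset.mem_range] at hm
            exact hbu ⟨m, by omega⟩ (by rw [Fin.le_def]; show m ≤ (u : ℕ); omega)
          · rw [sum_image_two_pow r u hu, ← heu]
        · rw [Pi.single_eq_of_ne hiu, zero_add]
          by_cases his : i ∈ s
          · obtain ⟨m, hm, rfl⟩ := Finset.mem_image.mp his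
            have hm' := Finset.mem_Ioi.mp hm
            rw [hcst m hm']
            have := no_common {r - 1 - (m : ℕ)} (e0 (κ m)) (e (κ m)) ?_ ?_ k
            · rw [Finset.sum_singleton] at this; exact this
            · intro b hb
              rw [Finset.mem_singleton] at hb
              rw [hb]; exact hbm m hm'
            · rw [Finset.sum_singleton]; exact hem m hm'
          · rw [hcst0 i his]; simp
  refine ⟨hu, hInc, ?_, ?_, hwt⟩
  · intro j hj
    rcases Nat.eq_zero_or_pos j with rfl | hj0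
    · exact hep
    · obtain ⟨j', rfl⟩ : ∃ j', j = j' + 1 := ⟨j - 1, by omega⟩
      have h1 : seqOf p κ (j' + 1) = κ ⟨j', by omega⟩ := seqOf_succ p κ ⟨j', by omega⟩
      have h2 : (⟨j', by omega⟩ : Fin r) < u := by
        rw [Fin.lt_def]; show j' < (u : ℕ); omega
      rw [h1, heq _ (ne_of_gt (hpκ _)) ?_, hlow _ h2]
      intro m hm hc
      exact absurd (hκinj hc ▸ hm) (not_le_of_gt h2)
  · rw [hMM, seqOf_succ p κ u]
    exact he0f.symm


/-! ### the special forms for the cases A1, B1, B2, B3 -/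

theorem strictMono3 {a b c : Fin 5} (h1 : a < b) (h2 : b < c) :
    StrictMono (![a, b, c] : Fin 3 → Fin 5) := by
  intro i j hij
  fin_cases i <;> fin_cases j <;> first
    | exact absurd hij (by decide)
    | exact h1
    | exact h2
    | exact h1.trans h2

theorem strictMono2 {a b : Fin 5} (h1 : a < b) :
    StrictMono (![a, b] : Fin 2 → Fin 5) := by
  intro i j hij
  fin_cases i <;> fin_cases j <;> first
    | exact absurd hij (by decide)
    | exact h1

/-- the situation for A1 -/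
theorem wkA1 {t : Fin 4 → ℕ} (h1 : t 1 = 3) (h2 : t 2 % 4 = 3) :
    Wk (seqOf (n := 4) 0 ![2, 3]) 2 1 (![3, t 0, 3, t 2 - 3, t 3] : Fin 5 → ℕ)
      (![0, t 0, t 1, t 2, t 3] : Fin 5 → ℕ) := by
  refine wk_main (n := 4) 0 _ rfl 2 ![2, 3] 1 _ (strictMono2 (by decide)) ?_ ?_ ?_ ?_ rfl ?_ ?_ ?_
  · intro m; fin_cases m <;> decide
  · intro m hm
    fin_cases m
    · exact h1
    · exact absurd hm (lt_irrefl _)
  · intro m hm
    fin_cases m
    · show t 2 / 2 ^ (2 - 1 - 0) % 2 = 1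
      norm_num; omega
    · show t 2 / 2 ^ (2 - 1 - 1) % 2 = 1
      norm_num; omega
  · intro m hm
    fin_cases m
    · exact absurd hm (by decide)
    · exact absurd hm (lt_irrefl _)
  · show t 2 - 3 + ∑ m ∈ Finset.range 2, 2 ^ (2 - 1 - m) = t 2
    have h : ∑ m ∈ Finset.range 2, 2 ^ (2 - 1 - m) = 3 := rfl
    rw [h]; omega
  · intro m hm
    fin_cases m
    · exact absurd hm (by decide)
    · exact absurd hm (lt_irrefl _)
  · intro i hi hi2
    have h3 := hi2 1 le_rfl
    fin_cases i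
    · exact absurd rfl hi
    · rfl
    · exact h1.symm
    · exact absurd rfl h3
    · rfl

/-- the situation for B1 -/
theorem wkB1 {t : Fin 4 → ℕ} (h1 : t 1 = 7) (h2 : 7 < t 2) (h22 : t 2 / 4 % 2 = 1)
    (h21 : t 2 / 2 % 2 = 1) (h3 : t 3 % 2 = 1) :
    Wk (seqOf (n := 4) 0 ![2, 3, 4]) 3 1 (![7, t 0, 7, t 2 - 6, t 3 - 1] : Fin 5 → ℕ)
      (![0, t 0, t 1, t 2, t 3] : Fin 5 → ℕ) := by
  refine wk_main (n := 4) 0 _ rfl 3 ![2, 3, 4] 1 _ (strictMono3 (by decide) (by decide))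
    ?_ ?_ ?_ ?_ rfl ?_ ?_ ?_
  · intro m; fin_cases m <;> decide
  · intro m hm
    fin_cases m
    · exact h1
    · exact absurd hm (lt_irrefl _)
    · exact absurd hm (by decide)
  · intro m hm
    fin_cases m
    · show t 2 / 2 ^ (3 - 1 - 0) % 2 = 1
      norm_num; omega
    · show t 2 / 2 ^ (3 - 1 - 1) % 2 = 1
      norm_num; omega
    · exact absurd hm (by decide)
  · intro m hm
    fin_cases m
    · exact absurd hm (by decide)
    · exact absurd hm (lt_irrefl _)
    · show t 3 / 2 ^ (3 - 1 - 2) % 2 = 1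
      norm_num; omega
  · show t 2 - 6 + ∑ m ∈ Finset.range 2, 2 ^ (3 - 1 - m) = t 2
    have h : ∑ m ∈ Finset.range 2, 2 ^ (3 - 1 - m) = 6 := rfl
    rw [h]; omega
  · intro m hm
    fin_cases m
    · exact absurd hm (by decide)
    · exact absurd hm (lt_irrefl _)
    · show t 3 - 1 + 2 ^ (3 - 1 - 2) = t 3
      norm_num; omega
  · intro i hi hi2
    have h3 := hi2 1 le_rfl
    have h4 := hi2 2 (by decide)
    fin_cases i
    · exact absurd rfl hi
    · rfl
    · exact h1.symm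
    · exact absurd rfl h3
    · exact absurd rfl h4

/-- the situation for B2 -/
theorem wkB2 {t : Fin 4 → ℕ} (h1 : t 1 = 7) (h2 : t 2 = 7) (h3 : t 3 % 8 = 7) :
    Wk (seqOf (n := 4) 0 ![2, 3, 4]) 3 2 (![7, t 0, 7, 7, t 3 - 7] : Fin 5 → ℕ)
      (![0, t 0, t 1, t 2, t 3] : Fin 5 → ℕ) := by
  refine wk_main (n := 4) 0 _ rfl 3 ![2, 3, 4] 2 _ (strictMono3 (by decide) (by decide))
    ?_ ?_ ?_ ?_ rfl ?_ ?_ ?_
  · intro m; fin_cases m <;> decide
  · intro m hm
    fin_cases m
    · exact h1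
    · exact h2
    · exact absurd hm (lt_irrefl _)
  · intro m hm
    fin_cases m
    · show t 3 / 2 ^ (3 - 1 - 0) % 2 = 1
      norm_num; omega
    · show t 3 / 2 ^ (3 - 1 - 1) % 2 = 1
      norm_num; omega
    · show t 3 / 2 ^ (3 - 1 - 2) % 2 = 1
      norm_num; omega
  · intro m hm
    fin_cases m
    · exact absurd hm (by decide)
    · exact absurd hm (by decide)
    · exact absurd hm (lt_irrefl _)
  · show t 3 - 7 + ∑ m ∈ Finset.range 3, 2 ^ (3 - 1 - m) = t 3
    have h : ∑ m ∈ Finset.range 3, 2 ^ (3 - 1 - m) = 7 := rfl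
    rw [h]; omega
  · intro m hm
    fin_cases m
    · exact absurd hm (by decide)
    · exact absurd hm (by decide)
    · exact absurd hm (lt_irrefl _)
  · intro i hi hi2
    have h3 := hi2 2 le_rfl
    fin_cases i
    · exact absurd rfl hi
    · rfl
    · exact h1.symm
    · exact h2.symm
    · exact absurd rfl h3

/-- the situation for B3 -/
theorem wkB3 {t : Fin 4 → ℕ} (h0 : t 0 = 7) (h2 : t 2 = 7) (h3 : t 3 % 8 = 7) :
    Wk (seqOf (n := 4) 0 ![1, 3, 4]) 3 2 (![7, 7, t 1, 7, t 3 - 7] : Fin 5 → ℕ)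
      (![0, t 0, t 1, t 2, t 3] : Fin 5 → ℕ) := by
  refine wk_main (n := 4) 0 _ rfl 3 ![1, 3, 4] 2 _ (strictMono3 (by decide) (by decide))
    ?_ ?_ ?_ ?_ rfl ?_ ?_ ?_
  · intro m; fin_cases m <;> decide
  · intro m hm
    fin_cases m
    · exact h0
    · exact h2
    · exact absurd hm (lt_irrefl _)
  · intro m hm
    fin_cases m
    · show t 3 / 2 ^ (3 - 1 - 0) % 2 = 1
      norm_num; omega
    · show t 3 / 2 ^ (3 - 1 - 1) % 2 = 1
      norm_num; omega
    · show t 3 / 2 ^ (3 - 1 - 2) % 2 = 1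
      norm_num; omega
  · intro m hm
    fin_cases m
    · exact absurd hm (by decide)
    · exact absurd hm (by decide)
    · exact absurd hm (lt_irrefl _)
  · show t 3 - 7 + ∑ m ∈ Finset.range 3, 2 ^ (3 - 1 - m) = t 3
    have h : ∑ m ∈ Finset.range 3, 2 ^ (3 - 1 - m) = 7 := rfl
    rw [h]; omega
  · intro m hm
    fin_cases m
    · exact absurd hm (by decide)
    · exact absurd hm (by decide)
    · exact absurd hm (lt_irrefl _)
  · intro i hi hi2
    have h3 := hi2 2 le_rfl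
    fin_cases i
    · exact absurd rfl hi
    · exact h0.symm
    · rfl
    · exact h2.symm
    · exact absurd rfl h3

theorem insZ {t : Fin 4 → ℕ} (h : Adm t) : Adm (![0, t 0, t 1, t 2, t 3] : Fin 5 → ℕ) := by
  refine adm_insert (n := 4) 0 (t := t) rfl ?_ h
  intro j
  fin_cases j <;> rfl

/-- the entries behind the first one -/
theorem tail_all {t : Fin 4 → ℕ} {P : ℕ → Prop} (h : ∀ i, P (t i)) :
    ∀ i : Fin 4, P ((![0, t 0, t 1, t 2, t 3] : Fin 5 → ℕ) i.succ) := by
  intro i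
  fin_cases i
  · exact h 0
  · exact h 1
  · exact h 2
  · exact h 3

/-- AB for A1 -/
theorem abA1 {t : Fin 4 → ℕ} (h : Adm t) (h1 : t 1 = 3) (h2 : t 2 % 4 = 3)
    (hodd : ∀ i, t i % 2 = 1) : Adm (![3, t 0, 3, t 2 - 3, t 3] : Fin 5 → ℕ) :=
  (wkA1 h1 h2).AB rfl (tail_all (P := fun x => x % 2 ^ (2 - 1) = 2 ^ (2 - 1) - 1)
    (fun i => by simpa using hodd i)) (insZ h)

/-- AB for B1 -/
theorem abB1 {t : Fin 4 → ℕ} (h : Adm t) (h1 : t 1 = 7) (h2 : 7 < t 2) (h22 : t 2 / 4 % 2 = 1)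
    (h21 : t 2 / 2 % 2 = 1) (h3 : t 3 % 2 = 1) (h4 : ∀ i, t i % 4 = 3) :
    Adm (![7, t 0, 7, t 2 - 6, t 3 - 1] : Fin 5 → ℕ) :=
  (wkB1 h1 h2 h22 h21 h3).AB rfl (tail_all (P := fun x => x % 2 ^ (3 - 1) = 2 ^ (3 - 1) - 1)
    (fun i => by simpa using h4 i)) (insZ h)

/-- AB for B2 -/
theorem abB2 {t : Fin 4 → ℕ} (h : Adm t) (h1 : t 1 = 7) (h2 : t 2 = 7) (h3 : t 3 % 8 = 7)
    (h4 : ∀ i, t i % 4 = 3) : Adm (![7, t 0, 7, 7, t 3 - 7] : Fin 5 → ℕ) :=
  (wkB2 h1 h2 h3).AB rfl (tail_all (P := fun x => x % 2 ^ (3 - 1) = 2 ^ (3 - 1) - 1)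
    (fun i => by simpa using h4 i)) (insZ h)

/-- AB for B3 -/
theorem abB3 {t : Fin 4 → ℕ} (h : Adm t) (h0 : t 0 = 7) (h2 : t 2 = 7) (h3 : t 3 % 8 = 7)
    (h4 : ∀ i, t i % 4 = 3) : Adm (![7, 7, t 1, 7, t 3 - 7] : Fin 5 → ℕ) :=
  (wkB3 h0 h2 h3).AB rfl (tail_all (P := fun x => x % 2 ^ (3 - 1) = 2 ^ (3 - 1) - 1)
    (fun i => by simpa using h4 i)) (insZ h)

/-- G0 for B1 -/
theorem gB1 {t : Fin 4 → ℕ} (h : Adm t) (h1 : t 1 = 7) (h2 : 7 < t 2) (h22 : t 2 / 4 % 2 = 1)
    (h21 : t 2 / 2 % 2 = 1) (h3 : t 3 % 2 = 1) (hodd : ∀ i, t i % 2 = 1) (hg : t 0 = 1) :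
    Adm (![7, t 0, 7, t 2 - 6, t 3 - 1] : Fin 5 → ℕ) := by
  refine (wkB1 h1 h2 h22 h21 h3).G0 rfl (k := 1) (by norm_num)
    (tail_all (P := fun x => x % 2 ^ 1 = 2 ^ 1 - 1) (fun i => by simpa using hodd i)) ?_ (insZ h)
  intro j hj i hi1 hi2
  obtain rfl : j = 0 := by omega
  fin_cases i
  · exact absurd hi1 (by decide)
  · exact hg
  · exact absurd hi2 (by decide)
  · exact absurd hi2 (by decide)
  · exact absurd hi2 (by decide)

/-- G0 for B2 -/
theorem gB2 {t : Fin 4 → ℕ} (h : Adm t) (h1 : t 1 = 7) (h2 : t 2 = 7) (h3 : t 3 % 8 = 7)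
    (hg : t 0 = 1) : Adm (![7, t 0, 7, 7, t 3 - 7] : Fin 5 → ℕ) := by
  refine (wkB2 h1 h2 h3).G0 rfl (k := 1) (by norm_num)
    (tail_all (P := fun x => x % 2 ^ 1 = 2 ^ 1 - 1) (fun i => ?_)) ?_ (insZ h)
  · fin_cases i
    · show t 0 % 2 = 1
      omega
    · show t 1 % 2 = 1
      omega
    · show t 2 % 2 = 1
      omega
    · show t 3 % 2 = 1
      omega
  intro j hj i hi1 hi2
  have hj2 : j = 0 ∨ j = 1 := by omega
  rcases hj2 with rfl | rfl
  · fin_cases i
    · exact absurd hi1 (by decide)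
    · exact hg
    · exact absurd hi2 (by decide)
    · exact absurd hi2 (by decide)
    · exact absurd hi2 (by decide)
  · fin_cases i
    · exact absurd hi1 (by decide)
    · exact absurd hi1 (by decide)
    · exact absurd hi1 (by decide)
    · exact absurd hi2 (by decide)
    · exact absurd hi2 (by decide)

/-- G0 for B3 -/
theorem gB3 {t : Fin 4 → ℕ} (h : Adm t) (h0 : t 0 = 7) (h2 : t 2 = 7) (h3 : t 3 % 8 = 7)
    (hg : t 1 = 1) : Adm (![7, 7, t 1, 7, t 3 - 7] : Fin 5 → ℕ) := by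
  refine (wkB3 h0 h2 h3).G0 rfl (k := 1) (by norm_num)
    (tail_all (P := fun x => x % 2 ^ 1 = 2 ^ 1 - 1) (fun i => ?_)) ?_ (insZ h)
  · fin_cases i
    · show t 0 % 2 = 1
      omega
    · show t 1 % 2 = 1
      omega
    · show t 2 % 2 = 1
      omega
    · show t 3 % 2 = 1
      omega
  intro j hj i hi1 hi2
  have hj2 : j = 0 ∨ j = 1 := by omega
  rcases hj2 with rfl | rfl
  · fin_cases i
    · exact absurd hi1 (by decide)
    · exact absurd hi2 (by decide)
    · exact absurd hi2 (by decide)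
    · exact absurd hi2 (by decide)
    · exact absurd hi2 (by decide)
  · fin_cases i
    · exact absurd hi1 (by decide)
    · exact absurd hi1 (by decide)
    · exact hg
    · exact absurd hi2 (by decide)
    · exact absurd hi2 (by decide)

end Pool.Agent.HitD5
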