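import Pool.Agent.CTL45.Sat4

set_option autoImplicit false

/-!
# Tools: total squares, Frobenius, operators given on monomials

Helper file for the hand-in `MP_27a5c7_al.DimensionFive`.
-/

namespace Pool.Agent.HitD5

open Pool.Agent.Helper60.Hit MvPolynomial

/-! ### linear maps given on monomials -/

/-- the linear map with prescribed values on monomials -/
noncomputable def lin {d d' : ℕ} (f : (Fin d → ℕ) → MvPolynomial (Fin d') (ZMod 2)) :
    MvPolynomial (Fin d) (ZMod 2) →ₗ[ZMod 2] MvPolynomial (Fin d') (ZMod 2) :=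
  (basisMonomials (Fin d) (ZMod 2)).constr (ZMod 2) (fun m => f ⇑m)

theorem lin_mono {d d' : ℕ} (f : (Fin d → ℕ) → MvPolynomial (Fin d') (ZMod 2)) (z : Fin d → ℕ) :
    lin f (mono z) = f z := by
  have h : mono z = basisMonomials (Fin d) (ZMod 2) (Finsupp.equivFunOnFinite.symm z) := by
    rw [coe_basisMonomials]; rfl
  rw [h]
  unfold lin
  rw [Module.Basis.constr_basis]
  rfl

variable {d : ℕ}

theorem mem_msp_top (f : MvPolynomial (Fin d) (ZMod 2)) : f ∈ msp (fun _ : Fin d → ℕ => True) := by
  rw [mem_msp_iff]; intro m _; trivial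

/-- a linear map sends `msp Q` into `N` as soon as it does so on monomials -/
theorem map_msp {d d' : ℕ} {Q : (Fin d → ℕ) → Prop}
    (Φ : MvPolynomial (Fin d) (ZMod 2) →ₗ[ZMod 2] MvPolynomial (Fin d') (ZMod 2))
    (N : Submodule (ZMod 2) (MvPolynomial (Fin d') (ZMod 2)))
    (h : ∀ y, Q y → Φ (mono y) ∈ N) {f : MvPolynomial (Fin d) (ZMod 2)} (hf : f ∈ msp Q) :
    Φ f ∈ N := by
  induction hf using Submodule.span_induction with
  | zero => rw [map_zero]; exact Submodule.zero_mem _
  | add x y _ _ hx hy => rw [map_add]; exact Submodule.add_mem _ hx hy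
  | smul a x _ hx => rw [map_smul]; exact Submodule.smul_mem _ _ hx
  | mem x hx =>
    obtain ⟨y, rfl, hy⟩ := hx
    exact h y hy

/-! ### homogeneous components -/

theorem hc_mono (m : ℕ) (z : Fin d → ℕ) :
    homogeneousComponent m (mono z) = if m = ∑ i, z i then mono z else 0 := by
  have := homogeneousComponent_of_mem (m := m) (n := ∑ i, z i) (isHomogeneous_mono z)
  rw [this]

/-- `N` is a graded submodule -/
def Graded (N : Submodule (ZMod 2) (MvPolynomial (Fin d) (ZMod 2))) : Prop :=
  ∀ g ∈ N, ∀ m, homogeneousComponent m g ∈ N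

theorem graded_span {S : Set (MvPolynomial (Fin d) (ZMod 2))}
    (h : ∀ g ∈ S, ∀ m, homogeneousComponent m g ∈ Submodule.span (ZMod 2) S) :
    Graded (Submodule.span (ZMod 2) S) := by
  intro g hg m
  induction hg using Submodule.span_induction with
  | zero => rw [map_zero]; exact Submodule.zero_mem _
  | add x y _ _ hx hy => rw [map_add]; exact Submodule.add_mem _ hx hy
  | smul a x _ hx => rw [map_smul]; exact Submodule.smul_mem _ _ hx
  | mem x hx => exact h x hx m

theorem graded_hits : Graded (hits d) := by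
  apply graded_span
  rintro g ⟨e, i, hi, rfl⟩ m
  have := homogeneousComponent_of_mem (m := m) (n := ∑ j, e j + i)
    (homogeneousComponent_isHomogeneous (∑ j, e j + i) (Sq d (mono e)))
  rw [this]
  split_ifs
  · exact Submodule.subset_span ⟨e, i, hi, rfl⟩
  · exact Submodule.zero_mem _

theorem graded_msp (Q : (Fin d → ℕ) → Prop) : Graded (msp Q) := by
  apply graded_span
  rintro g ⟨e, rfl, he⟩ m
  rw [hc_mono]
  split_ifs
  · exact mono_mem_msp he
  · exact Submodule.zero_mem _

theorem Graded.sup {N N' : Submodule (ZMod 2) (MvPolynomial (Fin d) (ZMod 2))} (h : Graded N)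
    (h' : Graded N') : Graded (N ⊔ N') := by
  intro g hg m
  rw [Submodule.mem_sup] at hg
  obtain ⟨a, ha, b, hb, rfl⟩ := hg
  rw [map_add]
  exact Submodule.add_mem_sup (h a ha m) (h' b hb m)

theorem graded_hm (Q : (Fin d → ℕ) → Prop) : Graded (hits d ⊔ msp Q) :=
  graded_hits.sup (graded_msp Q)

/-- the total square of a monomial only has terms of degree at least the degree -/
theorem sq_mono_mem (z : Fin d → ℕ) :
    Sq d (mono z) ∈ msp (fun y => ∃ c : Fin d → ℕ, y = z + c ∧
      ∀ i, (z i).choose (c i) % 2 = 1) := by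
  classical
  have h : ∀ i, (X i + X i ^ 2 : MvPolynomial (Fin d) (ZMod 2)) ^ z i ∈
      msp (fun y => ∃ c, (z i).choose c % 2 = 1 ∧ y = Pi.single i (z i + c)) := by
    intro i
    rw [add_pow]
    refine Submodule.sum_mem _ fun k hk => ?_
    rw [Finset.mem_range] at hk
    have e1 : (X i : MvPolynomial (Fin d) (ZMod 2)) ^ k * (X i ^ 2) ^ (z i - k) *
        ((z i).choose k : MvPolynomial (Fin d) (ZMod 2)) =
        ((z i).choose k : MvPolynomial (Fin d) (ZMod 2)) * mono (Pi.single i (z i + (z i - k))) := by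
      rw [← X_pow_eq_mono, ← pow_mul, ← pow_add, mul_comm]
      congr 2
      omega
    rw [e1]
    refine natCast_mul_mem _ fun hodd => mono_mem_msp ⟨z i - k, ?_, rfl⟩
    rw [Nat.choose_symm (by omega)]; exact hodd
  have e2 : Sq d (mono z) = ∏ i, (X i + X i ^ 2 : MvPolynomial (Fin d) (ZMod 2)) ^ z i := by
    unfold Sq; rw [aeval_mono]
  rw [e2]
  have key : ∀ s : Finset (Fin d), (∏ i ∈ s, (X i + X i ^ 2 : MvPolynomial (Fin d) (ZMod 2)) ^ z i) ∈
      msp (fun y => ∃ c : Fin d → ℕ, (∀ i, i ∉ s → c i = 0) ∧ (∀ i, y i = if i ∈ s then z i + c i else 0) ∧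
        ∀ i, (z i).choose (c i) % 2 = 1) := by
    intro s
    induction s using Finset.induction_on with
    | empty =>
      rw [Finset.prod_empty, one_eq_mono]
      exact mono_mem_msp ⟨0, fun _ _ => rfl, fun i => by simp, fun i => by simp⟩
    | insert a s ha ih =>
      rw [Finset.prod_insert ha]
      refine msp_mul ?_ (h a) ih
      rintro x y ⟨c, hc, rfl⟩ ⟨c', h1, h2, h3⟩
      refine ⟨fun i => if i = a then c else c' i, ?_, ?_, ?_⟩
      · intro i hi
        rw [Finset.mem_insert, not_or] at hi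
        show (if i = a then c else c' i) = 0
        rw [if_neg hi.1]; exact h1 i hi.2
      · intro i
        rw [Pi.add_apply, h2 i]
        by_cases hia : i = a
        · subst hia
          simp [ha]
        · simp [hia]
      · intro i
        show (z i).choose (if i = a then c else c' i) % 2 = 1
        by_cases hia : i = a
        · subst hia; simp [hc]
        · rw [if_neg hia]; exact h3 i
  refine msp_mono ?_ (key Finset.univ)
  rintro y ⟨c, -, h2, h3⟩
  refine ⟨c, ?_, h3⟩
  funext i
  rw [h2 i, if_pos (Finset.mem_univ i)]; rfl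

/-- the leading term of the total square is the monomial itself -/
theorem coeff_sq_self (z : Fin d → ℕ) :
    coeff (Finsupp.equivFunOnFinite.symm z) (Sq d (mono z)) = 1 := by
  have e2 : Sq d (mono z) = mono z * ∏ i, (1 + X i : MvPolynomial (Fin d) (ZMod 2)) ^ z i := by
    unfold Sq
    rw [aeval_mono, mono_eq_prod, ← Finset.prod_mul_distrib]
    refine Finset.prod_congr rfl fun i _ => ?_
    rw [← mul_pow]
    congr 1
    ring
  rw [e2]
  unfold mono
  have h := coeff_monomial_mul (0 : Fin d →₀ ℕ) (Finsupp.equivFunOnFinite.symm z) (1 : ZMod 2)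
    (∏ i, (1 + X i : MvPolynomial (Fin d) (ZMod 2)) ^ z i)
  rw [add_zero] at h
  rw [h, one_mul]
  have h2 : coeff (0 : Fin d →₀ ℕ) (∏ i, (1 + X i : MvPolynomial (Fin d) (ZMod 2)) ^ z i) =
      constantCoeff (∏ i, (1 + X i : MvPolynomial (Fin d) (ZMod 2)) ^ z i) := rfl
  rw [h2, map_prod]
  simp

/-- the terms of `Sq (mono z) + mono z` -/
theorem sq_add_mono_mem (z : Fin d → ℕ) :
    Sq d (mono z) + mono z ∈ msp (fun y => ∃ c : Fin d → ℕ, y = z + c ∧ c ≠ 0 ∧
      ∀ i, (z i).choose (c i) % 2 = 1) := by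
  have h1 : Sq d (mono z) + mono z ∈ msp (fun y => ∃ c : Fin d → ℕ, y = z + c ∧
      ∀ i, (z i).choose (c i) % 2 = 1) :=
    Submodule.add_mem _ (sq_mono_mem z) (mono_mem_msp ⟨0, by simp, fun i => by simp⟩)
  rw [mem_msp_iff] at h1 ⊢
  intro m hm
  obtain ⟨c, hc, hc2⟩ := h1 m hm
  refine ⟨c, hc, ?_, hc2⟩
  rintro rfl
  rw [add_zero] at hc
  apply hm
  have e : m = Finsupp.equivFunOnFinite.symm z := by
    rw [← hc]; ext; rfl
  rw [coeff_add, coeff_mono, if_pos hc, e, coeff_sq_self]
  decide

theorem sum_pos_of_ne {c : Fin d → ℕ} (h : c ≠ 0) : 0 < ∑ i, c i := by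
  by_contra hcon
  apply h
  have h0 : ∑ i, c i = 0 := by omega
  rw [Finset.sum_eq_zero_iff] at h0
  funext i
  exact h0 i (Finset.mem_univ i)

theorem hc_msp_zero {Q : (Fin d → ℕ) → Prop} {f : MvPolynomial (Fin d) (ZMod 2)} (hf : f ∈ msp Q)
    {m : ℕ} (h : ∀ y, Q y → ∑ i, y i ≠ m) : homogeneousComponent m f = 0 := by
  have := map_msp (homogeneousComponent m) ⊥ (Q := Q) (fun y hy => by
    rw [hc_mono, if_neg (fun hh => h y hy hh.symm)]; exact Submodule.zero_mem _) hf
  rwa [Submodule.mem_bot] at this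

/-- the component of the degree of `z` is `mono z` -/
theorem hc_sq_mono (z : Fin d → ℕ) : homogeneousComponent (∑ i, z i) (Sq d (mono z)) = mono z := by
  have h : homogeneousComponent (∑ i, z i) (Sq d (mono z) + mono z) = 0 := by
    refine hc_msp_zero (sq_add_mono_mem z) ?_
    rintro y ⟨c, rfl, hc, -⟩
    have := sum_pos_of_ne hc
    simp only [Pi.add_apply]
    rw [Finset.sum_add_distrib]
    omega
  rw [map_add, hc_mono, if_pos rfl] at h
  exact CharTwo.add_eq_zero.mp h

theorem hc_sq_mono_lt (z : Fin d → ℕ) {m : ℕ} (hm : m < ∑ i, z i) :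
    homogeneousComponent m (Sq d (mono z)) = 0 := by
  refine hc_msp_zero (sq_mono_mem z) ?_
  rintro y ⟨c, rfl, -⟩
  simp only [Pi.add_apply]
  rw [Finset.sum_add_distrib]
  omega

/-- `Sq (mono z) + mono z` is hit -/
theorem sq_add_mem' (z : Fin d → ℕ) : Sq d (mono z) + mono z ∈ hits d := by
  have h : ∀ m, homogeneousComponent m (Sq d (mono z) + mono z) ∈ hits d := by
    intro m
    rw [map_add, hc_mono]
    rcases lt_trichotomy m (∑ i, z i) with hm | hm | hm
    · rw [hc_sq_mono_lt z hm, if_neg (by omega), add_zero]; exact Submodule.zero_mem _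
    · rw [hm, if_pos rfl, hc_sq_mono, CharTwo.add_self_eq_zero]; exact Submodule.zero_mem _
    · rw [if_neg (by omega), add_zero]
      refine Submodule.subset_span ⟨z, m - ∑ i, z i, by omega, ?_⟩
      congr 2
      omega
  rw [← sum_homogeneousComponent (Sq d (mono z) + mono z)]
  exact Submodule.sum_mem _ fun m _ => h m

/-- `Sq f + f` is hit -/
theorem sq_add_mem (f : MvPolynomial (Fin d) (ZMod 2)) : Sq d f + f ∈ hits d := by
  have := map_msp ((Sq d).toLinearMap + LinearMap.id) (hits d) (Q := fun _ => True)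
    (fun y _ => by
      rw [LinearMap.add_apply, AlgHom.toLinearMap_apply, LinearMap.id_apply]
      exact sq_add_mem' y) (mem_msp_top f)
  rwa [LinearMap.add_apply, AlgHom.toLinearMap_apply, LinearMap.id_apply] at this

/-- graded principle: a linear map compatible with the grading maps hits into a graded submodule
as soon as it sends all `Sq (mono z) + mono z` into it -/
theorem map_hits {d d' : ℕ}
    (Φ : MvPolynomial (Fin d) (ZMod 2) →ₗ[ZMod 2] MvPolynomial (Fin d') (ZMod 2))
    (N : Submodule (ZMod 2) (MvPolynomial (Fin d') (ZMod 2))) (hN : Graded N)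
    (hΦ : ∀ m : ℕ, (∃ m', ∀ g, Φ (homogeneousComponent m g) = homogeneousComponent m' (Φ g)) ∨
      ∀ g, Φ (homogeneousComponent m g) = 0)
    (h : ∀ z, Φ (Sq d (mono z) + mono z) ∈ N) {g : MvPolynomial (Fin d) (ZMod 2)}
    (hg : g ∈ hits d) : Φ g ∈ N := by
  induction hg using Submodule.span_induction with
  | zero => rw [map_zero]; exact Submodule.zero_mem _
  | add x y _ _ hx hy => rw [map_add]; exact Submodule.add_mem _ hx hy
  | smul a x _ hx => rw [map_smul]; exact Submodule.smul_mem _ _ hx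
  | mem x hx =>
    obtain ⟨z, i, hi, rfl⟩ := hx
    have e : homogeneousComponent ((∑ j, z j) + i) (Sq d (mono z)) =
        homogeneousComponent ((∑ j, z j) + i) (Sq d (mono z) + mono z) := by
      rw [map_add, hc_mono, if_neg (by omega), add_zero]
    rw [e]
    rcases hΦ ((∑ j, z j) + i) with ⟨m', hm'⟩ | h0
    · rw [hm']; exact hN _ (h z) m'
    · rw [h0]; exact Submodule.zero_mem _

end Pool.Agent.HitD5
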