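import Pool.Agent.HitD5.Kam

set_option autoImplicit false

/-! # S1 and S2 -/

namespace Pool.Agent.HitD5

open Pool.Agent.Helper60.Hit MvPolynomial Pool.Agent.CTL45

variable {d : ℕ}

/-! ### expansion of the total square -/

theorem Sq_mono_expand (z : Fin d → ℕ) : Sq d (mono z) =
    ∑ i ∈ Fintype.piFinset (fun j => Finset.range (z j + 1)),
      ((∏ j, (z j).choose (i j) : ℕ) : MvPolynomial (Fin d) (ZMod 2)) * mono (z + i) := by
  unfold Sq
  rw [aeval_mono]
  have h : ∀ j ∈ (Finset.univ : Finset (Fin d)),
      (X j + X j ^ 2 : MvPolynomial (Fin d) (ZMod 2)) ^ z j =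
        ∑ k ∈ Finset.range (z j + 1), (((z j).choose k : ℕ) : MvPolynomial (Fin d) (ZMod 2)) *
          X j ^ (z j + k) := by
    intro j _
    rw [add_comm (X j), add_pow]
    refine Finset.sum_congr rfl fun k hk => ?_
    rw [Finset.mem_range] at hk
    rw [← pow_mul, ← pow_add, mul_comm]
    congr 2
    omega
  rw [Finset.prod_congr rfl h, Finset.prod_univ_sum]
  refine Finset.sum_congr rfl fun i _ => ?_
  rw [Finset.prod_mul_distrib, mono_eq_prod, Nat.cast_prod]
  rfl

theorem natCast_mul_hc (n N : ℕ) (f : MvPolynomial (Fin d) (ZMod 2)) :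
    homogeneousComponent N ((n : MvPolynomial (Fin d) (ZMod 2)) * f) =
      (n : MvPolynomial (Fin d) (ZMod 2)) * homogeneousComponent N f := by
  rw [← nsmul_eq_mul, map_nsmul, nsmul_eq_mul]

/-- `Sq^N` of a monomial -/
theorem hc_Sq_mono (z : Fin d → ℕ) (N : ℕ) :
    homogeneousComponent (∑ j, z j + N) (Sq d (mono z)) =
      ∑ i ∈ (Fintype.piFinset (fun j => Finset.range (z j + 1))).filter (fun i => ∑ j, i j = N),
        ((∏ j, (z j).choose (i j) : ℕ) : MvPolynomial (Fin d) (ZMod 2)) * mono (z + i) := by
  classical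
  rw [Sq_mono_expand, map_sum, Finset.sum_filter]
  refine Finset.sum_congr rfl fun i _ => ?_
  rw [natCast_mul_hc, hc_mono']
  have h : ∑ j, (z + i) j = ∑ j, z j + ∑ j, i j := by
    simp only [Pi.add_apply]; rw [Finset.sum_add_distrib]
  rw [h]
  by_cases h1 : ∑ j, i j = N
  · rw [if_pos h1, if_pos (by omega)]
  · rw [if_neg h1, if_neg (by omega), mul_zero]

theorem prod_choose_odd {z i : Fin d → ℕ} (h : (∏ j, (z j).choose (i j)) % 2 = 1) (j : Fin d) :
    (z j).choose (i j) % 2 = 1 := by
  have h1 : (z j).choose (i j) ∣ ∏ j, (z j).choose (i j) :=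
    Finset.dvd_prod_of_mem (fun j => (z j).choose (i j)) (Finset.mem_univ j)
  rcases Nat.mod_two_eq_zero_or_one ((z j).choose (i j)) with h2 | h2
  · have h3 : 2 ∣ ∏ j, (z j).choose (i j) := (Nat.dvd_of_mod_eq_zero h2).trans h1
    omega
  · exact h2

theorem prod_odd {f : Fin d → ℕ} (h : ∀ j, f j % 2 = 1) : (∏ j, f j) % 2 = 1 := by
  classical
  have h1 : ∀ s : Finset (Fin d), (∏ j ∈ s, f j) % 2 = 1 := by
    intro s
    induction s using Finset.induction_on with
    | empty => simp
    | insert a s ha ih =>
      rw [Finset.prod_insert ha, Nat.mul_mod, ih, h a]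
  exact h1 _

/-- a monomial `z + i0` which is the largest term of a square of `z` is inadmissible -/
theorem not_adm_of_sq {z i0 : Fin d → ℕ} (hN : 0 < ∑ j, i0 j)
    (h0 : ∀ j, (z j).choose (i0 j) % 2 = 1)
    (h : ∀ i : Fin d → ℕ, i ≠ i0 → ∑ j, i j = ∑ j, i0 j →
      (∀ j, (z j).choose (i j) % 2 = 1) → MonLT (z + i) (z + i0)) : ¬ Adm (z + i0) := by
  classical
  intro hadm
  apply hadm
  have h1 := hc_Sq_mono z (∑ j, i0 j)
  have hmem : i0 ∈ (Fintype.piFinset (fun j => Finset.range (z j + 1))).filter
      (fun i => ∑ j, i j = ∑ j, i0 j) := by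
    rw [Finset.mem_filter, Fintype.mem_piFinset]
    refine ⟨fun j => ?_, rfl⟩
    rw [Finset.mem_range]
    by_contra hc
    have h2 := h0 j
    rw [Nat.choose_eq_zero_of_lt (by omega)] at h2
    simp at h2
  rw [← Finset.add_sum_erase _ _ hmem, odd_natCast _ (prod_odd h0), one_mul] at h1
  have h3 : mono (z + i0) = homogeneousComponent (∑ j, z j + ∑ j, i0 j) (Sq d (mono z)) -
      ∑ i ∈ ((Fintype.piFinset (fun j => Finset.range (z j + 1))).filter
        (fun i => ∑ j, i j = ∑ j, i0 j)).erase i0,
        ((∏ j, (z j).choose (i j) : ℕ) : MvPolynomial (Fin d) (ZMod 2)) * mono (z + i) := by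
    rw [h1, add_sub_cancel_right]
  rw [h3]
  refine Submodule.sub_mem _ (Submodule.mem_sup_left
    (Submodule.subset_span ⟨z, ∑ j, i0 j, hN, rfl⟩)) (Submodule.mem_sup_right ?_)
  refine Submodule.sum_mem _ fun i hi => natCast_mul_mem _ fun hodd => ?_
  rw [Finset.mem_erase, Finset.mem_filter] at hi
  exact mono_mem_msp (h i hi.1 hi.2.2 (fun j => prod_choose_odd hodd j))

theorem lexLE_of_parts {y v b P Q : Fin d → ℕ} (hy : y = b + P) (hv : v = b + Q)
    (hno : ∀ i s, ¬ (b i / 2 ^ s % 2 = 1 ∧ Q i / 2 ^ s % 2 = 1)) (h : LexLE (wt P) (wt Q)) :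
    LexLE (wt y) (wt v) := by
  rw [hy, hv, wt_add_eq hno]
  refine LexLE.trans (wt_add_le b P) ?_
  rw [add_comm (wt b), add_comm (wt b)]
  exact LexLE.add_right h _

theorem lexLT_of_parts {y v b P Q : Fin d → ℕ} (hy : y = b + P) (hv : v = b + Q)
    (hno : ∀ i s, ¬ (b i / 2 ^ s % 2 = 1 ∧ Q i / 2 ^ s % 2 = 1)) (h : LexLT (wt P) (wt Q)) :
    LexLT (wt y) (wt v) := by
  rw [hy, hv, wt_add_eq hno]
  refine LexLE.trans_lt (wt_add_le b P) ?_
  rw [add_comm (wt b), add_comm (wt b)]
  exact LexLT.add_right h _

theorem monLT_of_lexF2 {y v : Fin d → ℕ} (h1 : ∑ i, y i = ∑ i, v i)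
    (h2 : LexLE (wt y) (wt v)) (h3 : LexF y v) : MonLT y v := by
  refine ⟨h1, ?_⟩
  rcases h2 with h2 | h2
  · exact Or.inr ⟨h2, h3⟩
  · exact Or.inl h2

/-- lowest moved bit -/
theorem wt_moved {z i : Fin d → ℕ} {s : ℕ} (hs : ∀ j, i j % 2 ^ s = 0) :
    (∀ l < s, wt (z + i) l = wt z l) ∧
      ((∀ j, (z j).choose (i j) % 2 = 1) → (∃ j, i j / 2 ^ s % 2 = 1) →
        wt (z + i) s < wt z s) := by
  have hc : ∀ j, ∃ c, i j = 2 ^ s * c := fun j => by
    obtain ⟨c, hc⟩ := Nat.dvd_of_mod_eq_zero (hs j)
    exact ⟨c, hc⟩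
  choose c hc using hc
  constructor
  · intro l hl
    unfold wt
    refine Finset.sum_congr rfl fun j _ => ?_
    rw [Pi.add_apply, hc j]
    obtain ⟨m, hm⟩ : ∃ m, s = l + (m + 1) := ⟨s - l - 1, by omega⟩
    have h1 : 2 ^ s * c j = 2 ^ l * (2 * (2 ^ m * c j)) := by
      rw [hm, pow_add, pow_succ]; ring
    rw [h1, Nat.add_mul_div_left _ _ (by positivity)]
    omega
  · intro hC hex
    unfold wt
    have hbit : ∀ j, (z + i) j / 2 ^ s % 2 ≤ z j / 2 ^ s % 2 ∧
        (i j / 2 ^ s % 2 = 1 → (z + i) j / 2 ^ s % 2 < z j / 2 ^ s % 2) := by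
      intro j
      have h1 := (lucas_bits (z j) (i j) (hC j)).2 s
      have h2 : i j / 2 ^ s = c j := by
        rw [hc j, Nat.mul_div_cancel_left _ (by positivity)]
      rw [h2] at h1 ⊢
      rw [Pi.add_apply, hc j, Nat.add_mul_div_left _ _ (by positivity)]
      constructor
      · omega
      · intro h3; omega
    obtain ⟨j, hj⟩ := hex
    exact Finset.sum_lt_sum (fun j _ => (hbit j).1) ⟨j, Finset.mem_univ j, (hbit j).2 hj⟩

theorem mod_eq_zero_of_bits {a s : ℕ} (h : ∀ l < s, a / 2 ^ l % 2 = 0) : a % 2 ^ s = 0 := by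
  induction s with
  | zero => simp [Nat.mod_one]
  | succ s ih =>
    rw [Nat.mod_pow_succ, ih (fun l hl => h l (by omega)), h s (by omega)]
    simp

/-- a nonzero vector has a lowest bit -/
theorem exists_lowest {i : Fin d → ℕ} (h : i ≠ 0) :
    ∃ s, (∀ j, i j % 2 ^ s = 0) ∧ ∃ j, i j / 2 ^ s % 2 = 1 := by
  classical
  have hex : ∃ s, ∃ j, i j / 2 ^ s % 2 = 1 := by
    obtain ⟨j, hj⟩ : ∃ j, i j ≠ 0 := by
      by_contra hc
      push Not at hc
      exact h (funext hc)
    by_contra hc
    push Not at hc
    have h1 := mod_eq_zero_of_bits (a := i j) (s := i j) (fun l _ => by have := hc l j; omega)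
    rw [Nat.mod_eq_of_lt Nat.lt_two_pow_self] at h1
    exact hj h1
  refine ⟨Nat.find hex, fun j => mod_eq_zero_of_bits fun l hl => ?_, Nat.find_spec hex⟩
  have h1 := Nat.find_min hex hl
  push Not at h1
  have := h1 j
  omega

theorem exists_zero_one {a : ℕ} (h : ∀ s, a ≠ 2 ^ s - 1) :
    ∃ τ, a / 2 ^ τ % 2 = 0 ∧ a / 2 ^ (τ + 1) % 2 = 1 := by
  induction a using Nat.strong_induction_on with
  | _ a ih =>
  by_contra hc
  push Not at hc
  rcases Nat.eq_zero_or_pos a with h0 | h0
  · exact h 0 (by simp [h0])
  · by_cases h1 : ∃ s, a / 2 = 2 ^ s - 1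
    · obtain ⟨s, hs⟩ := h1
      rcases Nat.mod_two_eq_zero_or_one a with h2 | h2
      · have h3 := hc 0 (by simpa using h2)
        rcases Nat.eq_zero_or_pos s with rfl | hs0
        · simp at hs; omega
        · obtain ⟨s', rfl⟩ : ∃ s', s = s' + 1 := ⟨s - 1, by omega⟩
          rw [pow_succ] at hs
          have := Nat.one_le_two_pow (n := s')
          apply h3
          simp only [zero_add, pow_one]
          omega
      · apply h (s + 1)
        rw [pow_succ]
        have := Nat.one_le_two_pow (n := s)
        omega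
    · push Not at h1
      obtain ⟨τ, h2, h3⟩ := ih (a / 2) (by omega) h1
      rw [Nat.div_div_eq_div_mul, ← pow_succ'] at h2 h3
      exact hc (τ + 1) h2 h3

theorem choose_two_pow_mod (a τ : ℕ) : a.choose (2 ^ τ) % 2 = a / 2 ^ τ % 2 := by
  induction τ generalizing a with
  | zero => simp
  | succ τ ih =>
    have hl := Choose.choose_modEq_choose_mod_mul_choose_div_nat (n := a) (k := 2 ^ (τ + 1)) (p := 2)
    have h1 : 2 ^ (τ + 1) % 2 = 0 := by rw [pow_succ]; omega
    have h2 : 2 ^ (τ + 1) / 2 = 2 ^ τ := by rw [pow_succ]; omega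
    rw [h1, h2, Nat.choose_zero_right, one_mul] at hl
    rw [hl, ih, pow_succ', Nat.div_div_eq_div_mul]

theorem bit_of_sub {a τ : ℕ} (h0 : a / 2 ^ τ % 2 = 0) (h1 : a / 2 ^ (τ + 1) % 2 = 1) :
    2 ^ τ ≤ a ∧ (a - 2 ^ τ) / 2 ^ τ % 2 = 1 ∧ ∃ b, a = b + 2 ^ (τ + 1) ∧
      a - 2 ^ τ = b + 2 ^ τ ∧ ∀ s, ¬ (b / 2 ^ s % 2 = 1 ∧ 2 ^ (τ + 1) / 2 ^ s % 2 = 1) := by
  obtain ⟨q, ρ, hρ, ht0⟩ : ∃ q ρ, ρ < 2 ^ τ ∧ a = 2 ^ τ * (4 * q + 2) + ρ := by
    refine ⟨a / 2 ^ τ / 4, a % 2 ^ τ, Nat.mod_lt _ (by positivity), ?_⟩
    rw [pow_succ, ← Nat.div_div_eq_div_mul] at h1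
    have h2 := Nat.div_add_mod a (2 ^ τ)
    have h3 : a / 2 ^ τ = 4 * (a / 2 ^ τ / 4) + 2 := by omega
    rw [← h3]; exact h2.symm
  have hpos : 0 < 2 ^ τ := by positivity
  have e1 : 2 ^ τ * (4 * q + 2) = 2 ^ τ * (4 * q + 1) + 2 ^ τ := by ring
  have e2 : 2 ^ τ * (4 * q + 2) = 2 ^ (τ + 1) * (2 * q) + 2 ^ (τ + 1) := by ring
  have e3 : 2 ^ τ * (4 * q + 1) = 2 ^ (τ + 1) * (2 * q) + 2 ^ τ := by ring
  refine ⟨by omega, ?_, 2 ^ (τ + 1) * (2 * q) + ρ, by omega, by omega, ?_⟩
  · have h4 : a - 2 ^ τ = ρ + 2 ^ τ * (4 * q + 1) := by omega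
    rw [h4, Nat.add_mul_div_left _ _ hpos, Nat.div_eq_of_lt hρ]
    omega
  · rintro s ⟨h4, h5⟩
    rw [two_pow_bit] at h5
    have h6 : s = τ + 1 := by by_contra hne; simp [hne] at h5
    subst h6
    rw [add_comm, Nat.add_mul_div_left _ _ (by positivity), Nat.div_eq_of_lt] at h4
    · omega
    · rw [pow_succ]; omega

/-- clearing a bit -/
theorem exists_clear {a τ : ℕ} (h1 : a / 2 ^ τ % 2 = 1) :
    ∃ b, a = b + 2 ^ τ ∧ ∀ s, ¬ (b / 2 ^ s % 2 = 1 ∧ 2 ^ τ / 2 ^ s % 2 = 1) := by
  have h2 := Nat.div_add_mod a (2 ^ τ)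
  obtain ⟨q, hq⟩ : ∃ q, a / 2 ^ τ = 2 * q + 1 := ⟨a / 2 ^ τ / 2, by omega⟩
  have h3 : a % 2 ^ τ < 2 ^ τ := Nat.mod_lt _ (by positivity)
  rw [hq] at h2
  refine ⟨2 ^ τ * (2 * q) + a % 2 ^ τ, ?_, ?_⟩
  · rw [← h2]
    have : 2 ^ τ * (2 * q + 1) = 2 ^ τ * (2 * q) + 2 ^ τ := by ring
    rw [this]
    have h4 : (2 ^ τ * (2 * q) + 2 ^ τ + a % 2 ^ τ) % 2 ^ τ = a % 2 ^ τ := by
      rw [← this, h2]
    rw [h4]; ring
  · rintro s ⟨h4, h5⟩
    rw [two_pow_bit] at h5
    have h6 : s = τ := by by_contra hne; simp [hne] at h5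
    subst h6
    rw [add_comm, Nat.add_mul_div_left _ _ (by positivity), Nat.div_eq_of_lt h3] at h4
    omega

/-- S1: the first exponent of an admissible monomial is `2^s - 1` -/
theorem first_spike {n : ℕ} {t : Fin (n + 1) → ℕ} (h : Adm t) : ∃ s, t 0 = 2 ^ s - 1 := by
  classical
  by_contra hc
  push Not at hc
  obtain ⟨τ, hτ0, hτ1⟩ := exists_zero_one hc
  obtain ⟨hbig, hbit, b0, hb1, hb2, hb3⟩ := bit_of_sub hτ0 hτ1
  have hpos : 0 < 2 ^ τ := by positivity
  set z : Fin (n + 1) → ℕ := Function.update t 0 (t 0 - 2 ^ τ) with hz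
  set i0 : Fin (n + 1) → ℕ := Pi.single 0 (2 ^ τ) with hi0
  have hzt : z + i0 = t := by
    funext j
    by_cases hj : j = 0
    · subst hj; rw [Pi.add_apply, hz, hi0, Function.update_self, Pi.single_eq_same]; omega
    · rw [Pi.add_apply, hz, hi0, Function.update_of_ne hj, Pi.single_eq_of_ne hj, add_zero]
  have hsum0 : ∑ j, i0 j = 2 ^ τ := by
    rw [hi0, Finset.sum_pi_single']; simp
  have hz0 : z 0 = t 0 - 2 ^ τ := by rw [hz, Function.update_self]
  have hzne : ∀ j, j ≠ 0 → z j = t j := fun j hj => by rw [hz, Function.update_of_ne hj]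
  have hi0mod : ∀ j, i0 j % 2 ^ τ = 0 := by
    intro j
    by_cases hj : j = 0
    · subst hj; rw [hi0, Pi.single_eq_same, Nat.mod_self]
    · rw [hi0, Pi.single_eq_of_ne hj, Nat.zero_mod]
  have hlow := (wt_moved (z := z) hi0mod).1
  rw [hzt] at hlow
  refine not_adm_of_sq (z := z) (i0 := i0) (by rw [hsum0]; exact hpos) ?_ ?_ (hzt ▸ h)
  · intro j
    by_cases hj : j = 0
    · subst hj
      rw [hi0, Pi.single_eq_same, choose_two_pow_mod, hz0]
      exact hbit
    · rw [hi0, Pi.single_eq_of_ne hj, Nat.choose_zero_right]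
  · intro i hi hsum hC
    rw [hzt]
    have hsumv : ∑ j, (z + i) j = ∑ j, t j := by
      rw [← hzt]
      simp only [Pi.add_apply]
      rw [Finset.sum_add_distrib, Finset.sum_add_distrib, hsum]
    have hine : i ≠ 0 := by
      rintro rfl
      rw [hsum0] at hsum
      simp only [Pi.zero_apply, Finset.sum_const_zero] at hsum
      omega
    obtain ⟨s, hs, hs1⟩ := exists_lowest hine
    have hmv := wt_moved (z := z) hs
    rcases lt_or_ge s τ with hst | hst
    · refine ⟨hsumv, Or.inl ⟨s, fun l hl => ?_, ?_⟩⟩
      · rw [hmv.1 l hl, hlow l (hl.trans hst)]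
      · rw [hlow s hst]; exact hmv.2 hC hs1
    · -- exactly one entry, equal to `2 ^ τ`
      obtain ⟨j, hj⟩ := hs1
      have hij : 2 ^ τ ≤ i j := by
        have h1 : 2 ^ s ≤ i j := by
          by_contra hlt
          rw [Nat.div_eq_of_lt (by omega)] at hj
          simp at hj
        exact (Nat.pow_le_pow_right (by norm_num) hst).trans h1
      have hrest : i = Pi.single j (2 ^ τ) := by
        have h1 := Finset.add_sum_erase Finset.univ i (Finset.mem_univ j)
        rw [hsum, hsum0] at h1
        have h2 : ∑ x ∈ Finset.univ.erase j, i x = 0 := by omega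
        rw [Finset.sum_eq_zero_iff] at h2
        funext x
        by_cases hx : x = j
        · subst hx; rw [Pi.single_eq_same]; omega
        · rw [Pi.single_eq_of_ne hx]
          exact h2 x (Finset.mem_erase.mpr ⟨hx, Finset.mem_univ x⟩)
      have hj0 : j ≠ 0 := by
        rintro rfl
        exact hi hrest
      have hCj := hC j
      rw [hrest, Pi.single_eq_same, choose_two_pow_mod, hzne j hj0] at hCj
      obtain ⟨bj, hbj, hbj'⟩ := exists_clear hCj
      refine monLT_of_lexF hsumv ?_ ⟨0, fun k hk => absurd hk (Nat.not_lt_zero _), ?_⟩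
      · -- weights
        set b : Fin (n + 1) → ℕ := Function.update (Function.update t 0 b0) j bj with hb
        refine lexLE_of_parts (b := b)
          (P := (Pi.single 0 (2 ^ τ) + Pi.single j (2 ^ (τ + 1)) : Fin (n + 1) → ℕ))
          (Q := (Pi.single 0 (2 ^ (τ + 1)) + Pi.single j (2 ^ τ) : Fin (n + 1) → ℕ)) ?_ ?_ ?_ ?_
        · funext x
          rw [hrest]
          simp only [Pi.add_apply, hb]
          by_cases hxj : x = j
          · subst hxj
            rw [Function.update_self, Pi.single_eq_same, Pi.single_eq_same,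
              Pi.single_eq_of_ne hj0, hzne x hj0, hbj, pow_succ]
            ring
          · rw [Function.update_of_ne hxj, Pi.single_eq_of_ne hxj, Pi.single_eq_of_ne hxj]
            by_cases hx0 : x = 0
            · subst hx0
              rw [Function.update_self, Pi.single_eq_same, hz0, hb2]; ring
            · rw [Function.update_of_ne hx0, Pi.single_eq_of_ne hx0, hzne x hx0]; ring
        · funext x
          simp only [Pi.add_apply, hb]
          by_cases hxj : x = j
          · subst hxj
            rw [Function.update_self, Pi.single_eq_same,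
              Pi.single_eq_of_ne hj0, hbj]
            ring
          · rw [Function.update_of_ne hxj, Pi.single_eq_of_ne hxj]
            by_cases hx0 : x = 0
            · subst hx0
              rw [Function.update_self, Pi.single_eq_same, hb1]; ring
            · rw [Function.update_of_ne hx0, Pi.single_eq_of_ne hx0]; ring
        · rintro x l ⟨h1, h2⟩
          simp only [Pi.add_apply, hb] at h1 h2
          by_cases hxj : x = j
          · subst hxj
            rw [Function.update_self] at h1
            rw [Pi.single_eq_same, Pi.single_eq_of_ne hj0, zero_add] at h2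
            exact hbj' l ⟨h1, h2⟩
          · rw [Function.update_of_ne hxj] at h1
            rw [Pi.single_eq_of_ne hxj] at h2
            by_cases hx0 : x = 0
            · subst hx0
              rw [Function.update_self] at h1
              rw [Pi.single_eq_same, add_zero] at h2
              exact hb3 l ⟨h1, h2⟩
            · rw [Pi.single_eq_of_ne hx0] at h2
              simp at h2
        · left
          rw [wt_single_pair (Ne.symm hj0), wt_single_pair (Ne.symm hj0)]
          funext l
          rw [Pi.add_apply, Pi.add_apply, wt_single, wt_single, wt_single, wt_single]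
          ring
      · rw [Pi.add_apply, hrest, Pi.single_eq_of_ne (Ne.symm hj0), hz0]
        omega

/-- `Sq^1`-relations: exponent vectors of sum one -/
theorem eq_single_of_sum_one {i : Fin d → ℕ} (h : ∑ j, i j = 1) : ∃ j, i = Pi.single j 1 := by
  classical
  obtain ⟨j, hj⟩ : ∃ j, i j ≠ 0 := by
    by_contra hc
    push Not at hc
    rw [Finset.sum_eq_zero (fun j _ => hc j)] at h
    exact absurd h (by norm_num)
  refine ⟨j, ?_⟩
  have h1 := Finset.add_sum_erase Finset.univ i (Finset.mem_univ j)
  rw [h] at h1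
  have h2 : ∑ x ∈ Finset.univ.erase j, i x = 0 := by omega
  rw [Finset.sum_eq_zero_iff] at h2
  funext x
  by_cases hx : x = j
  · subst hx; rw [Pi.single_eq_same]; omega
  · rw [Pi.single_eq_of_ne hx]
    exact h2 x (Finset.mem_erase.mpr ⟨hx, Finset.mem_univ x⟩)

/-- S2: an exponent congruent to 2 mod 4 needs an earlier one congruent to 1 mod 4 -/
theorem mod_two {d : ℕ} {t : Fin d → ℕ} (h : Adm t) {c : Fin d} (hc : t c % 4 = 2) :
    ∃ j < c, t j % 4 = 1 := by
  classical
  by_contra hno
  push Not at hno
  set z : Fin d → ℕ := Function.update t c (t c - 1) with hz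
  set i0 : Fin d → ℕ := Pi.single c 1 with hi0
  have hzt : z + i0 = t := by
    funext j
    by_cases hj : j = c
    · subst hj; rw [Pi.add_apply, hz, hi0, Function.update_self, Pi.single_eq_same]; omega
    · rw [Pi.add_apply, hz, hi0, Function.update_of_ne hj, Pi.single_eq_of_ne hj, add_zero]
  have hsum0 : ∑ j, i0 j = 1 := by
    rw [hi0, Finset.sum_pi_single']; simp
  have hzc : z c = t c - 1 := by rw [hz, Function.update_self]
  have hzne : ∀ j, j ≠ c → z j = t j := fun j hj => by rw [hz, Function.update_of_ne hj]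
  refine not_adm_of_sq (z := z) (i0 := i0) (by rw [hsum0]; norm_num) ?_ ?_ (hzt ▸ h)
  · intro j
    by_cases hj : j = c
    · subst hj
      rw [hi0, Pi.single_eq_same, Nat.choose_one_right, hzc]
      omega
    · rw [hi0, Pi.single_eq_of_ne hj, Nat.choose_zero_right]
  · intro i hi hsum hC
    rw [hzt]
    have hsumv : ∑ j, (z + i) j = ∑ j, t j := by
      rw [← hzt]
      simp only [Pi.add_apply]
      rw [Finset.sum_add_distrib, Finset.sum_add_distrib, hsum]
    rw [hsum0] at hsum
    obtain ⟨j, hrest⟩ := eq_single_of_sum_one hsum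
    have hjc : j ≠ c := by
      rintro rfl
      exact hi hrest
    have hCj := hC j
    rw [hrest, Pi.single_eq_same, Nat.choose_one_right, hzne j hjc] at hCj
    rcases (by omega : t j % 4 = 1 ∨ t j % 4 = 3) with h4 | h4
    · have hcj : c < j := by
        rcases lt_trichotomy j c with h5 | h5 | h5
        · exact absurd h4 (hno j h5)
        · exact absurd h5 hjc
        · exact h5
      refine monLT_of_lexF2 hsumv ?_ ⟨c, fun k hk => ?_, ?_⟩
      · refine lexLE_of_parts (b := Function.update (Function.update t c (t c - 2)) j (t j - 1))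
          (P := (Pi.single c 1 + Pi.single j 2 : Fin d → ℕ))
          (Q := (Pi.single c 2 + Pi.single j 1 : Fin d → ℕ)) ?_ ?_ ?_ ?_
        · funext x
          rw [hrest]
          simp only [Pi.add_apply]
          by_cases hxj : x = j
          · subst hxj
            rw [Function.update_self, Pi.single_eq_same, Pi.single_eq_same,
              Pi.single_eq_of_ne hjc, hzne x hjc]
            omega
          · rw [Function.update_of_ne hxj, Pi.single_eq_of_ne hxj, Pi.single_eq_of_ne hxj]
            by_cases hx0 : x = c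
            · subst hx0
              rw [Function.update_self, Pi.single_eq_same, hzc]; omega
            · rw [Function.update_of_ne hx0, Pi.single_eq_of_ne hx0, hzne x hx0]
              ring
        · funext x
          simp only [Pi.add_apply]
          by_cases hxj : x = j
          · subst hxj
            rw [Function.update_self, Pi.single_eq_same,
              Pi.single_eq_of_ne hjc]
            omega
          · rw [Function.update_of_ne hxj, Pi.single_eq_of_ne hxj]
            by_cases hx0 : x = c
            · subst hx0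
              rw [Function.update_self, Pi.single_eq_same]; omega
            · rw [Function.update_of_ne hx0, Pi.single_eq_of_ne hx0]
              ring
        · rintro x l ⟨h1, h2⟩
          simp only [Pi.add_apply] at h1 h2
          by_cases hxj : x = j
          · subst hxj
            rw [Function.update_self] at h1
            rw [Pi.single_eq_same, Pi.single_eq_of_ne hjc, zero_add] at h2
            have h3 : (1 : ℕ) = 2 ^ 0 := rfl
            rw [h3, two_pow_bit] at h2
            have h6 : l = 0 := by by_contra hne; simp [hne] at h2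
            subst h6
            rw [pow_zero, Nat.div_one] at h1
            omega
          · rw [Function.update_of_ne hxj] at h1
            rw [Pi.single_eq_of_ne hxj] at h2
            by_cases hx0 : x = c
            · subst hx0
              rw [Function.update_self] at h1
              rw [Pi.single_eq_same, add_zero] at h2
              have h2' := two_pow_bit 1 l
              rw [pow_one] at h2'
              rw [h2'] at h2
              have h6 : l = 1 := by by_contra hne; simp [hne] at h2
              subst h6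
              rw [pow_one] at h1
              omega
            · rw [Pi.single_eq_of_ne hx0] at h2
              simp at h2
        · left
          rw [wt_single_pair (Ne.symm hjc), wt_single_pair (Ne.symm hjc)]
          funext l
          rw [Pi.add_apply, Pi.add_apply, wt_single, wt_single, wt_single, wt_single]
          ring
      · rw [Pi.add_apply, hrest, Pi.single_eq_of_ne (ne_of_lt (hk.trans hcj)),
          hzne k (ne_of_lt hk), add_zero]
      · rw [Pi.add_apply, hrest, Pi.single_eq_of_ne (Ne.symm hjc), hzc]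
        omega
    · refine ⟨hsumv, Or.inl ?_⟩
      refine lexLT_of_parts (b := Function.update (Function.update t c (t c - 2)) j (t j - 3))
        (P := (Pi.single c 1 + Pi.single j 4 : Fin d → ℕ))
        (Q := (Pi.single c 2 + Pi.single j 3 : Fin d → ℕ)) ?_ ?_ ?_ ?_
      · funext x
        rw [hrest]
        simp only [Pi.add_apply]
        by_cases hxj : x = j
        · subst hxj
          rw [Function.update_self, Pi.single_eq_same, Pi.single_eq_same,
            Pi.single_eq_of_ne hjc, hzne x hjc]
          omega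
        · rw [Function.update_of_ne hxj, Pi.single_eq_of_ne hxj, Pi.single_eq_of_ne hxj]
          by_cases hx0 : x = c
          · subst hx0
            rw [Function.update_self, Pi.single_eq_same, hzc]; omega
          · rw [Function.update_of_ne hx0, Pi.single_eq_of_ne hx0, hzne x hx0]
            ring
      · funext x
        simp only [Pi.add_apply]
        by_cases hxj : x = j
        · subst hxj
          rw [Function.update_self, Pi.single_eq_same,
            Pi.single_eq_of_ne hjc]
          omega
        · rw [Function.update_of_ne hxj, Pi.single_eq_of_ne hxj]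
          by_cases hx0 : x = c
          · subst hx0
            rw [Function.update_self, Pi.single_eq_same]; omega
          · rw [Function.update_of_ne hx0, Pi.single_eq_of_ne hx0]
            ring
      · rintro x l ⟨h1, h2⟩
        simp only [Pi.add_apply] at h1 h2
        by_cases hxj : x = j
        · subst hxj
          rw [Function.update_self] at h1
          rw [Pi.single_eq_same, Pi.single_eq_of_ne hjc, zero_add] at h2
          have h6 : l < 2 := by
            by_contra hge
            rw [Nat.div_eq_of_lt] at h2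
            · simp at h2
            · calc 3 < 2 ^ 2 := by norm_num
                _ ≤ 2 ^ l := Nat.pow_le_pow_right (by norm_num) (by omega)
          interval_cases l
          · rw [pow_zero, Nat.div_one] at h1; omega
          · rw [pow_one] at h1; omega
        · rw [Function.update_of_ne hxj] at h1
          rw [Pi.single_eq_of_ne hxj] at h2
          by_cases hx0 : x = c
          · subst hx0
            rw [Function.update_self] at h1
            rw [Pi.single_eq_same, add_zero] at h2
            have h2' := two_pow_bit 1 l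
            rw [pow_one] at h2'
            rw [h2'] at h2
            have h6 : l = 1 := by by_contra hne; simp [hne] at h2
            subst h6
            rw [pow_one] at h1
            omega
          · rw [Pi.single_eq_of_ne hx0] at h2
            simp at h2
      · refine ⟨1, fun l hl => ?_, ?_⟩
        · have hl0 : l = 0 := by omega
          subst hl0
          rw [wt_single_pair (Ne.symm hjc), wt_single_pair (Ne.symm hjc)]
          simp [wt_single]
        · rw [wt_single_pair (Ne.symm hjc), wt_single_pair (Ne.symm hjc)]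
          simp [wt_single]

end Pool.Agent.HitD5
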