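import Pool.Agent.HitD5.SqMono

set_option autoImplicit false

/-!
# Four variables, exponents `3, 0, 3, 3` modulo `4`, the second one positive: inadmissible
-/

namespace Pool.Agent.CTD

open Pool.Agent.Helper60.Hit Pool.Agent.CTL45 MvPolynomial

/-- smaller than `(3,3)` in the first two weight components -/
def Low (z : Fin 4 → ℕ) : Prop := wt z 0 < 3 ∨ (wt z 0 = 3 ∧ wt z 1 < 3)

/-- weight vector `(3,3,0,...)` -/
def G3 (μ : Fin 4 → ℕ) : Prop := wt μ 0 = 3 ∧ wt μ 1 = 3 ∧ ∀ s, wt μ (s + 2) = 0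

/-- hit up to `Low` -/
noncomputable def HL : Submodule (ZMod 2) (MvPolynomial (Fin 4) (ZMod 2)) := hits 4 ⊔ msp Low

theorem low_of_lt {μ z : Fin 4 → ℕ} (hμ : G3 μ) (h : LexLT (wt z) (wt μ)) : Low z := by
  obtain ⟨i, hi, hi'⟩ := h
  rcases i with _ | _ | i
  · left; rw [← hμ.1]; exact hi'
  · right
    refine ⟨?_, ?_⟩
    · rw [hi 0 (by omega), hμ.1]
    · rw [hμ.2.1] at hi'; exact hi'
  · rw [hμ.2.2 i] at hi'; omega

theorem wt_add_four {d : ℕ} {z y : Fin d → ℕ} (hy : ∀ j, y j % 4 = 0) :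
    wt (z + y) 0 = wt z 0 ∧ wt (z + y) 1 = wt z 1 := by
  constructor
  · unfold wt
    refine Finset.sum_congr rfl fun j _ => ?_
    have := hy j
    simp only [Pi.add_apply, pow_zero, Nat.div_one]
    omega
  · unfold wt
    refine Finset.sum_congr rfl fun j _ => ?_
    have := hy j
    simp only [Pi.add_apply, pow_one]
    omega

theorem add_pow_four {d : ℕ} (f g : MvPolynomial (Fin d) (ZMod 2)) :
    (f + g) ^ 4 = f ^ 4 + g ^ 4 := by
  have h : ∀ x : MvPolynomial (Fin d) (ZMod 2), x ^ 4 = (x ^ 2) ^ 2 := fun x => by ring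
  rw [h, h f, h g, CharTwo.add_sq, CharTwo.add_sq]

theorem mono_pow {d : ℕ} (e : Fin d → ℕ) (k : ℕ) : mono e ^ k = mono (fun j => k * e j) := by
  rw [mono_eq_prod, mono_eq_prod, ← Finset.prod_pow]
  refine Finset.prod_congr rfl fun j _ => ?_
  rw [← pow_mul, mul_comm]

theorem pow_four_mem {d : ℕ} (w : MvPolynomial (Fin d) (ZMod 2)) :
    w ^ 4 ∈ msp (fun z => ∀ j, z j % 4 = 0) := by
  induction w using poly_induction with
  | h0 => rw [zero_pow (by norm_num)]; exact Submodule.zero_mem _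
  | hadd f g hf hg => rw [add_pow_four]; exact Submodule.add_mem _ hf hg
  | hm e =>
    rw [mono_pow]
    apply mono_mem_msp
    intro j
    show 4 * e j % 4 = 0
    omega

theorem low_mul {f : MvPolynomial (Fin 4) (ZMod 2)} (hf : f ∈ msp Low)
    (w : MvPolynomial (Fin 4) (ZMod 2)) : f * w ^ 4 ∈ msp Low := by
  refine msp_mul (Q2 := fun z => ∀ j, z j % 4 = 0) ?_ hf (pow_four_mem w)
  intro a b ha hb
  obtain ⟨h1, h2⟩ := wt_add_four (z := a) hb
  unfold Low at *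
  rw [h1, h2]; exact ha

theorem sq_low {μ : Fin 4 → ℕ} (hμ : G3 μ) {a : ℕ} (ha : 0 < a) : sq 4 a (mono μ) ∈ msp Low :=
  msp_mono (fun _ h => low_of_lt hμ h) (sq_mono_low μ ha)

theorem bracket_sq {μ : Fin 4 → ℕ} (hμ : G3 μ) {k : ℕ} (hk : 0 < k)
    (v : MvPolynomial (Fin 4) (ZMod 2)) : mono μ * (sq 4 k v) ^ 4 ∈ HL := by
  have h1 : sq 4 (4 * k) (mono μ * v ^ 4) ∈ hits 4 := sq_hits (by omega) _
  have h2 : sq 4 (4 * k) (mono μ * v ^ 4) + mono μ * (sq 4 k v) ^ 4 ∈ msp Low := by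
    rw [sq_apply, map_mul, map_pow, Polynomial.coeff_mul]
    have hmem : ((0, 4 * k) : ℕ × ℕ) ∈ Finset.HasAntidiagonal.antidiagonal (4 * k) := by
      rw [Finset.HasAntidiagonal.mem_antidiagonal]; simp
    rw [← Finset.add_sum_erase _ _ hmem]
    simp only
    rw [St_coeff_zero, coeff_pow_four, if_pos (by omega)]
    have h3 : 4 * k / 4 = k := by omega
    rw [h3, sq_apply]
    have h4 : ∀ A B : MvPolynomial (Fin 4) (ZMod 2), A + B + A = B := by
      intro A B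
      have : A + B + A = (A + A) + B := by ring
      rw [this, CharTwo.add_self_eq_zero, zero_add]
    rw [h4]
    refine Submodule.sum_mem _ fun x hx => ?_
    rw [Finset.mem_erase, Finset.HasAntidiagonal.mem_antidiagonal] at hx
    rw [coeff_pow_four]
    split_ifs
    · refine low_mul ?_ _
      refine sq_low hμ ?_
      rcases Nat.eq_zero_or_pos x.1 with h | h
      · exfalso
        apply hx.1
        have := hx.2
        ext
        · exact h
        · show x.2 = 4 * k; omega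
      · exact h
    · rw [mul_zero]; exact Submodule.zero_mem _
  have h5 : mono μ * (sq 4 k v) ^ 4 = sq 4 (4 * k) (mono μ * v ^ 4) +
      (sq 4 (4 * k) (mono μ * v ^ 4) + mono μ * (sq 4 k v) ^ 4) := by
    rw [← add_assoc, CharTwo.add_self_eq_zero, zero_add]
  rw [h5]
  exact Submodule.add_mem_sup h1 h2

/-- `[μ; g]` is hit up to `Low` if `g` is hit -/
theorem bracket_hits {μ : Fin 4 → ℕ} (hμ : G3 μ) {g : MvPolynomial (Fin 4) (ZMod 2)}
    (hg : g ∈ hits 4) : mono μ * g ^ 4 ∈ HL := by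
  refine hits_induction (P := fun g => mono μ * g ^ 4 ∈ HL) ?_ ?_ ?_ hg
  · rw [zero_pow (by norm_num), mul_zero]; exact Submodule.zero_mem _
  · intro f g hf hg
    rw [add_pow_four, mul_add]; exact Submodule.add_mem _ hf hg
  · intro e i hi
    exact bracket_sq hμ hi _

theorem bracket_congr {μ : Fin 4 → ℕ} (hμ : G3 μ) {f g : MvPolynomial (Fin 4) (ZMod 2)}
    (h : f + g ∈ hits 4) : mono μ * f ^ 4 + mono μ * g ^ 4 ∈ HL := by
  rw [← mul_add, ← add_pow_four]; exact bracket_hits hμ h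

/-! ### the telescope -/

theorem St_X_two_pow {d : ℕ} (j : Fin d) (b : ℕ) : St d (X j ^ 2 ^ b) =
    Polynomial.C (X j ^ 2 ^ b) + Polynomial.C (X j ^ 2 ^ (b + 1)) * Polynomial.X ^ 2 ^ b := by
  rw [map_pow, St_X, add_pow_char_pow, mul_pow, ← Polynomial.C_pow, ← Polynomial.C_pow, ← pow_mul,
    pow_succ']

theorem telescope {d : ℕ} (j : Fin d) (a c : ℕ) (hc : c ≤ a)
    (v : MvPolynomial (Fin d) (ZMod 2)) :
    X j * sq d (2 ^ a - 1) v + X j ^ 2 ^ c * sq d (2 ^ a - 2 ^ c) v ∈ hits d := by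
  induction c with
  | zero =>
    rw [pow_zero, pow_one, CharTwo.add_self_eq_zero]; exact Submodule.zero_mem _
  | succ c ih =>
    have h1 := ih (by omega)
    have hlt : 2 ^ (c + 1) ≤ 2 ^ a := Nat.pow_le_pow_right (by norm_num) hc
    have hpos : 0 < 2 ^ c := by positivity
    have hs : 2 ^ (c + 1) = 2 ^ c + 2 ^ c := by rw [pow_succ]; omega
    have h2 : sq d (2 ^ a - 2 ^ c) (X j ^ 2 ^ c * v) ∈ hits d := sq_hits (by omega) _
    have h3 : sq d (2 ^ a - 2 ^ c) (X j ^ 2 ^ c * v) = X j ^ 2 ^ c * sq d (2 ^ a - 2 ^ c) v +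
        X j ^ 2 ^ (c + 1) * sq d (2 ^ a - 2 ^ (c + 1)) v := by
      rw [sq_apply, map_mul, St_X_two_pow, add_mul, Polynomial.coeff_add, Polynomial.coeff_C_mul,
        mul_assoc, Polynomial.coeff_C_mul, sq_apply, sq_apply]
      have h4 : 2 ^ a - 2 ^ c = (2 ^ a - 2 ^ (c + 1)) + 2 ^ c := by omega
      congr 2
      rw [h4, mul_comm, Polynomial.coeff_mul_X_pow]
    rw [h3] at h2
    have h5 := Submodule.add_mem _ h1 h2
    have h6 : ∀ A B C : MvPolynomial (Fin d) (ZMod 2), A + B + (B + C) = A + C := by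
      intro A B C
      have : A + B + (B + C) = A + (B + B) + C := by ring
      rw [this, CharTwo.add_self_eq_zero, add_zero]
    rwa [h6] at h5

theorem telescope' {d : ℕ} (j : Fin d) (a : ℕ) (v : MvPolynomial (Fin d) (ZMod 2)) :
    X j * sq d (2 ^ a - 1) v + X j ^ 2 ^ a * v ∈ hits d := by
  have h := telescope j a a le_rfl v
  rwa [Nat.sub_self, sq_zero_apply] at h

/-! ### the two relations -/

theorem sq_one_X {d : ℕ} (j : Fin d) : sq d 1 (X j) = X j ^ 2 := by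
  rw [sq_apply, St_X, Polynomial.coeff_add, Polynomial.coeff_C, Polynomial.coeff_C_mul,
    Polynomial.coeff_X_one, if_neg (by norm_num), mul_one, zero_add]

theorem sq_two_X {d : ℕ} (j : Fin d) : sq d 2 (X j) = 0 := by
  rw [sq_apply, St_X, Polynomial.coeff_add, Polynomial.coeff_C, Polynomial.coeff_C_mul,
    Polynomial.coeff_X, if_neg (by norm_num), if_neg (by norm_num), mul_zero, zero_add]

theorem sq_one_pow_four {d : ℕ} (f : MvPolynomial (Fin d) (ZMod 2)) : sq d 1 (f ^ 4) = 0 := by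
  rw [sq_apply, map_pow, coeff_pow_four, if_neg (by norm_num)]

theorem sq_two_pow_four {d : ℕ} (f : MvPolynomial (Fin d) (ZMod 2)) : sq d 2 (f ^ 4) = 0 := by
  rw [sq_apply, map_pow, coeff_pow_four, if_neg (by norm_num)]

theorem sq_one_X2 {d : ℕ} (j : Fin d) : sq d 1 (X j ^ 2) = 0 := by
  rw [pow_two, sq_one_mul, sq_one_X, mul_comm, CharTwo.add_self_eq_zero]

theorem sq_two_X2 {d : ℕ} (j : Fin d) : sq d 2 (X j ^ 2) = X j ^ 4 := by
  rw [pow_two, sq_two_mul, sq_one_X, sq_two_X]; ring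

theorem sq_one_X3 {d : ℕ} (j : Fin d) : sq d 1 (X j ^ 3) = X j ^ 4 := by
  have h : (X j : MvPolynomial (Fin d) (ZMod 2)) ^ 3 = X j ^ 2 * X j := by ring
  rw [h, sq_one_mul, sq_one_X, sq_one_X2]; ring

theorem sq_two_X3 {d : ℕ} (j : Fin d) : sq d 2 (X j ^ 3) = X j ^ 5 := by
  have h : (X j : MvPolynomial (Fin d) (ZMod 2)) ^ 3 = X j ^ 2 * X j := by ring
  rw [h, sq_two_mul, sq_one_X, sq_one_X2, sq_two_X, sq_two_X2]; ring

theorem mono_four (a b c e : ℕ) : mono ![a, b, c, e] =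
    (X 0 ^ a * X 1 ^ b * X 2 ^ c * X 3 ^ e : MvPolynomial (Fin 4) (ZMod 2)) := by
  rw [mono_eq_prod, Fin.prod_univ_four]
  simp

theorem rel_D (v : MvPolynomial (Fin 4) (ZMod 2)) :
    mono ![0, 3, 3, 3] * (X 0 * v) ^ 4 + mono ![3, 0, 3, 3] * (X 1 * v) ^ 4 +
      mono ![3, 3, 0, 3] * (X 2 * v) ^ 4 + mono ![3, 3, 3, 0] * (X 3 * v) ^ 4 ∈ hits 4 := by
  have h1 : sq 4 1 (X 0 ^ 3 * (X 1 ^ 3 * (X 2 ^ 3 * (X 3 ^ 3 * v ^ 4)))) ∈ hits 4 :=
    sq_hits (by norm_num) _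
  simp only [sq_one_mul, sq_one_X3, sq_one_pow_four] at h1
  simp only [mono_four]
  convert h1 using 1
  ring

theorem rel_S (v : MvPolynomial (Fin 4) (ZMod 2)) :
    mono ![0, 3, 3, 3] * (X 0 * v) ^ 4 + mono ![2, 1, 3, 3] * (X 1 * v) ^ 4 +
      mono ![2, 3, 1, 3] * (X 2 * v) ^ 4 + mono ![2, 3, 3, 1] * (X 3 * v) ^ 4 ∈ HL := by
  have h1 : sq 4 2 (X 0 ^ 2 * (X 1 ^ 3 * (X 2 ^ 3 * (X 3 ^ 3 * v ^ 4)))) ∈ hits 4 :=
    sq_hits (by norm_num) _
  simp only [sq_one_mul, sq_two_mul, sq_one_X3, sq_two_X3, sq_one_X2, sq_two_X2, sq_one_pow_four,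
    sq_two_pow_four] at h1
  have e1 : mono ![2, 4, 4, 3] * v ^ 4 ∈ msp Low := by
    refine low_mul (mono_mem_msp ?_) v
    left; decide
  have e2 : mono ![2, 4, 3, 4] * v ^ 4 ∈ msp Low := by
    refine low_mul (mono_mem_msp ?_) v
    left; decide
  have e3 : mono ![2, 3, 4, 4] * v ^ 4 ∈ msp Low := by
    refine low_mul (mono_mem_msp ?_) v
    left; decide
  have h2 := Submodule.add_mem_sup h1 (Submodule.neg_mem _
    (Submodule.add_mem _ (Submodule.add_mem _ e1 e2) e3))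
  have h3 : ∀ x y : MvPolynomial (Fin 4) (ZMod 2), x ∈ HL → x = y → y ∈ HL := by
    rintro x y hx rfl; exact hx
  refine h3 _ _ h2 ?_
  simp only [mono_four]
  ring

theorem G3_of {μ : Fin 4 → ℕ} (h : ∀ j, μ j < 4) (h0 : wt μ 0 = 3) (h1 : wt μ 1 = 3) : G3 μ := by
  refine ⟨h0, h1, fun s => ?_⟩
  unfold wt
  refine Finset.sum_eq_zero fun j _ => ?_
  have h2 := h j
  have h3 : 1 ≤ 2 ^ s := Nat.one_le_two_pow
  have h4 : μ j < 2 ^ (s + 2) := by rw [pow_add]; omega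
  rw [Nat.div_eq_of_lt h4, Nat.zero_mod]

theorem G3a : G3 ![3, 0, 3, 3] := G3_of (by decide) (by decide) (by decide)
theorem G3b : G3 ![3, 3, 0, 3] := G3_of (by decide) (by decide) (by decide)
theorem G3c : G3 ![3, 3, 3, 0] := G3_of (by decide) (by decide) (by decide)
theorem G3d : G3 ![2, 1, 3, 3] := G3_of (by decide) (by decide) (by decide)
theorem G3e : G3 ![2, 3, 1, 3] := G3_of (by decide) (by decide) (by decide)
theorem G3f : G3 ![2, 3, 3, 1] := G3_of (by decide) (by decide) (by decide)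

/-- the six brackets -/
noncomputable def six (f g h : MvPolynomial (Fin 4) (ZMod 2)) : MvPolynomial (Fin 4) (ZMod 2) :=
  mono ![3, 0, 3, 3] * f ^ 4 + mono ![3, 3, 0, 3] * g ^ 4 + mono ![3, 3, 3, 0] * h ^ 4 +
    mono ![2, 1, 3, 3] * f ^ 4 + mono ![2, 3, 1, 3] * g ^ 4 + mono ![2, 3, 3, 1] * h ^ 4

theorem six_add (f g h f' g' h' : MvPolynomial (Fin 4) (ZMod 2)) :
    six (f + f') (g + g') (h + h') = six f g h + six f' g' h' := by
  unfold six
  rw [add_pow_four, add_pow_four, add_pow_four]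
  ring

theorem six_hits {f g h : MvPolynomial (Fin 4) (ZMod 2)} (hf : f ∈ hits 4) (hg : g ∈ hits 4)
    (hh : h ∈ hits 4) : six f g h ∈ HL := by
  unfold six
  refine Submodule.add_mem _ (Submodule.add_mem _ (Submodule.add_mem _ (Submodule.add_mem _
    (Submodule.add_mem _ ?_ ?_) ?_) ?_) ?_) ?_
  · exact bracket_hits G3a hf
  · exact bracket_hits G3b hg
  · exact bracket_hits G3c hh
  · exact bracket_hits G3d hf
  · exact bracket_hits G3e hg
  · exact bracket_hits G3f hh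

theorem six_X (w : MvPolynomial (Fin 4) (ZMod 2)) : six (X 1 * w) (X 2 * w) (X 3 * w) ∈ HL := by
  have h1 := Submodule.add_mem HL (Submodule.mem_sup_left (rel_D w)) (rel_S w)
  have h3 : ∀ x y z : MvPolynomial (Fin 4) (ZMod 2), x ∈ HL → x = y + (z + z) → y ∈ HL := by
    rintro x y z hx hxy
    rw [hxy, CharTwo.add_self_eq_zero, add_zero] at hx
    exact hx
  refine h3 _ _ (mono ![0, 3, 3, 3] * (X 0 * w) ^ 4) h1 ?_
  unfold six
  ring

theorem six_pow (a : ℕ) (v : MvPolynomial (Fin 4) (ZMod 2)) :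
    six (X 1 ^ 2 ^ a * v) (X 2 ^ 2 ^ a * v) (X 3 ^ 2 ^ a * v) ∈ HL := by
  have h1 := six_X (sq 4 (2 ^ a - 1) v)
  have h2 := six_hits (telescope' 1 a v) (telescope' 2 a v) (telescope' 3 a v)
  rw [six_add] at h2
  have h3 := Submodule.add_mem _ h1 h2
  rwa [← add_assoc, CharTwo.add_self_eq_zero, zero_add] at h3

/-! ### the end -/

theorem wt_four {μ w : Fin 4 → ℕ} (hμ : ∀ j, μ j < 4) :
    wt (fun j => μ j + 4 * w j) 0 = wt μ 0 ∧ wt (fun j => μ j + 4 * w j) 1 = wt μ 1 ∧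
      ∀ s, wt (fun j => μ j + 4 * w j) (s + 2) = wt w s := by
  refine ⟨?_, ?_, fun s => ?_⟩
  · unfold wt
    refine Finset.sum_congr rfl fun j _ => ?_
    simp only [pow_zero, Nat.div_one]; omega
  · unfold wt
    refine Finset.sum_congr rfl fun j _ => ?_
    simp only [pow_one]; omega
  · unfold wt
    refine Finset.sum_congr rfl fun j _ => ?_
    have h1 : (2 : ℕ) ^ (s + 2) = 4 * 2 ^ s := by rw [pow_add]; ring
    rw [h1, ← Nat.div_div_eq_div_mul]
    have h2 := hμ j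
    have h3 : (μ j + 4 * w j) / 4 = w j := by omega
    rw [h3]

theorem lexLE_four {μ μ' w w' : Fin 4 → ℕ} (hμ : ∀ j, μ j < 4) (hμ' : ∀ j, μ' j < 4)
    (g : G3 μ) (g' : G3 μ') (h : LexLE (wt w) (wt w')) :
    LexLE (wt (fun j => μ j + 4 * w j)) (wt (fun j => μ' j + 4 * w' j)) := by
  obtain ⟨a0, a1, a2⟩ := wt_four (w := w) hμ
  obtain ⟨b0, b1, b2⟩ := wt_four (w := w') hμ'
  rcases h with h | ⟨i, hi, hi'⟩
  · left
    funext s
    rcases s with _ | _ | s
    · rw [a0, b0, g.1, g'.1]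
    · rw [a1, b1, g.2.1, g'.2.1]
    · rw [a2, b2, h]
  · right
    refine ⟨i + 2, fun l hl => ?_, ?_⟩
    · rcases l with _ | _ | l
      · rw [a0, b0, g.1, g'.1]
      · rw [a1, b1, g.2.1, g'.2.1]
      · rw [a2, b2, hi l (by omega)]
    · rw [a2, b2]; exact hi'

theorem bracket_mono (μ y : Fin 4 → ℕ) (i : Fin 4) (k : ℕ) :
    mono μ * (X i ^ k * mono y) ^ 4 =
      mono (fun j => μ j + 4 * (y + Pi.single i k : Fin 4 → ℕ) j) := by
  rw [X_pow_eq_mono, ← mono_add, mono_pow, ← mono_add]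
  congr 1
  funext j
  simp only [Pi.add_apply]
  ring

theorem sum_bracket {μ : Fin 4 → ℕ} (hμ : ∑ j, μ j = 9) (y : Fin 4 → ℕ) (i : Fin 4) (k : ℕ) :
    ∑ j, (μ j + 4 * (y + Pi.single i k : Fin 4 → ℕ) j) = 9 + 4 * (∑ j, y j + k) := by
  rw [Finset.sum_add_distrib, hμ, ← Finset.mul_sum]
  simp only [Pi.add_apply]
  rw [Finset.sum_add_distrib]
  simp [Finset.sum_pi_single']

theorem S3 (t : Fin 4 → ℕ) (h0 : t 0 % 4 = 3) (h1 : t 1 % 4 = 0) (h1' : 0 < t 1)
    (h2 : t 2 % 4 = 3) (h3 : t 3 % 4 = 3) : ¬ Adm t := by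
  intro hadm
  apply hadm
  -- a binary digit of the second entry
  obtain ⟨a, ha⟩ := exists_bit (x := t 1 / 4) (by omega)
  have hle : 2 ^ a ≤ t 1 / 4 := by
    by_contra hc
    rw [Nat.div_eq_of_lt (by omega)] at ha; omega
  have hpos : 0 < 2 ^ a := by positivity
  let y : Fin 4 → ℕ := ![t 0 / 4, t 1 / 4 - 2 ^ a, t 2 / 4, t 3 / 4]
  have hy0 : y 0 = t 0 / 4 := rfl
  have hy1 : y 1 = t 1 / 4 - 2 ^ a := rfl
  have hy2 : y 2 = t 2 / 4 := rfl
  have hy3 : y 3 = t 3 / 4 := rfl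
  have hbit : y 1 / 2 ^ a % 2 = 0 := by
    have h4 : t 1 / 4 = y 1 + 2 ^ a := by omega
    rw [h4, Nat.add_div_right _ hpos] at ha
    omega
  have ht : t = fun j => (![3, 0, 3, 3] : Fin 4 → ℕ) j + 4 * (y + Pi.single 1 (2 ^ a) : Fin 4 → ℕ) j := by
    funext j
    fin_cases j
    · show t 0 = 3 + 4 * (y 0 + (Pi.single 1 (2 ^ a) : Fin 4 → ℕ) 0)
      rw [Pi.single_eq_of_ne (by decide), hy0]; omega
    · show t 1 = 0 + 4 * (y 1 + (Pi.single 1 (2 ^ a) : Fin 4 → ℕ) 1)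
      rw [Pi.single_eq_same, hy1]; omega
    · show t 2 = 3 + 4 * (y 2 + (Pi.single 1 (2 ^ a) : Fin 4 → ℕ) 2)
      rw [Pi.single_eq_of_ne (by decide), hy2]; omega
    · show t 3 = 3 + 4 * (y 3 + (Pi.single 1 (2 ^ a) : Fin 4 → ℕ) 3)
      rw [Pi.single_eq_of_ne (by decide), hy3]; omega
  -- the weights
  have hw : ∀ i : Fin 4, LexLE (wt (y + Pi.single i (2 ^ a) : Fin 4 → ℕ))
      (wt (y + Pi.single 1 (2 ^ a) : Fin 4 → ℕ)) := by
    intro i
    have e1 : wt (y + Pi.single 1 (2 ^ a) : Fin 4 → ℕ) =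
        wt y + wt (Pi.single 1 (2 ^ a) : Fin 4 → ℕ) := by
      apply wt_add_eq
      rintro j s ⟨b1, b2⟩
      by_cases hj : j = 1
      · subst hj
        rw [Pi.single_eq_same, two_pow_bit] at b2
        by_cases hs : s = a
        · subst hs; omega
        · rw [if_neg hs] at b2; omega
      · rw [Pi.single_eq_of_ne hj, Nat.zero_div] at b2; omega
    have e2 : wt (Pi.single i (2 ^ a) : Fin 4 → ℕ) = wt (Pi.single 1 (2 ^ a) : Fin 4 → ℕ) := by
      funext s; rw [wt_single, wt_single]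
    rw [e1, ← e2]
    exact wt_add_le _ _
  have hsumt : ∑ j, t j = 9 + 4 * (∑ j, y j + 2 ^ a) := by
    rw [ht]; exact sum_bracket (by decide) y 1 (2 ^ a)
  -- the other monomials are smaller
  have key : ∀ (μ : Fin 4 → ℕ) (i : Fin 4), (∀ j, μ j < 4) → G3 μ → ∑ j, μ j = 9 →
      LexF (fun j => μ j + 4 * (y + Pi.single i (2 ^ a) : Fin 4 → ℕ) j) t →
      mono μ * (X i ^ 2 ^ a * mono y) ^ 4 ∈ msp (fun z => MonLT z t) := by
    intro μ i m1 m2 m3 m4
    rw [bracket_mono]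
    apply mono_mem_msp
    refine monLT_of_le ?_ ?_ m4
    · rw [hsumt]; exact sum_bracket m3 y i _
    · have := lexLE_four m1 (μ' := ![3, 0, 3, 3]) (by decide) m2 G3a (hw i)
      rwa [← ht] at this
  have k2 : mono ![3, 3, 0, 3] * (X 2 ^ 2 ^ a * mono y) ^ 4 ∈ msp (fun z => MonLT z t) := by
    refine key _ _ (by decide) G3b (by decide) ⟨1, ?_, ?_⟩
    · intro j hj
      have hj0 : j = 0 := by rw [Fin.lt_def] at hj; ext; simp at hj ⊢; omega
      subst hj0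
      show 3 + 4 * (y 0 + (Pi.single 2 (2 ^ a) : Fin 4 → ℕ) 0) = t 0
      rw [Pi.single_eq_of_ne (by decide), hy0]; omega
    · show 3 + 4 * (y 1 + (Pi.single 2 (2 ^ a) : Fin 4 → ℕ) 1) < t 1
      rw [Pi.single_eq_of_ne (by decide), hy1]; omega
  have k3 : mono ![3, 3, 3, 0] * (X 3 ^ 2 ^ a * mono y) ^ 4 ∈ msp (fun z => MonLT z t) := by
    refine key _ _ (by decide) G3c (by decide) ⟨1, ?_, ?_⟩
    · intro j hj
      have hj0 : j = 0 := by rw [Fin.lt_def] at hj; ext; simp at hj ⊢; omega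
      subst hj0
      show 3 + 4 * (y 0 + (Pi.single 3 (2 ^ a) : Fin 4 → ℕ) 0) = t 0
      rw [Pi.single_eq_of_ne (by decide), hy0]; omega
    · show 3 + 4 * (y 1 + (Pi.single 3 (2 ^ a) : Fin 4 → ℕ) 1) < t 1
      rw [Pi.single_eq_of_ne (by decide), hy1]; omega
  have k4 : mono ![2, 1, 3, 3] * (X 1 ^ 2 ^ a * mono y) ^ 4 ∈ msp (fun z => MonLT z t) := by
    refine key _ _ (by decide) G3d (by decide) ⟨0, fun j hj => absurd hj (Fin.not_lt_zero j), ?_⟩
    show 2 + 4 * (y 0 + (Pi.single 1 (2 ^ a) : Fin 4 → ℕ) 0) < t 0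
    rw [Pi.single_eq_of_ne (by decide), hy0]; omega
  have k5 : mono ![2, 3, 1, 3] * (X 2 ^ 2 ^ a * mono y) ^ 4 ∈ msp (fun z => MonLT z t) := by
    refine key _ _ (by decide) G3e (by decide) ⟨0, fun j hj => absurd hj (Fin.not_lt_zero j), ?_⟩
    show 2 + 4 * (y 0 + (Pi.single 2 (2 ^ a) : Fin 4 → ℕ) 0) < t 0
    rw [Pi.single_eq_of_ne (by decide), hy0]; omega
  have k6 : mono ![2, 3, 3, 1] * (X 3 ^ 2 ^ a * mono y) ^ 4 ∈ msp (fun z => MonLT z t) := by
    refine key _ _ (by decide) G3f (by decide) ⟨0, fun j hj => absurd hj (Fin.not_lt_zero j), ?_⟩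
    show 2 + 4 * (y 0 + (Pi.single 3 (2 ^ a) : Fin 4 → ℕ) 0) < t 0
    rw [Pi.single_eq_of_ne (by decide), hy0]; omega
  -- the rest is hit up to smaller monomials
  have hE := six_pow a (mono y)
  obtain ⟨g, hg, f, hf, hgf⟩ := Submodule.mem_sup.mp hE
  have hdeg : ∀ (μ : Fin 4 → ℕ) (i : Fin 4), ∑ j, μ j = 9 →
      homogeneousComponent (∑ j, t j) (mono μ * (X i ^ 2 ^ a * mono y) ^ 4) =
        mono μ * (X i ^ 2 ^ a * mono y) ^ 4 := by
    intro μ i m
    rw [bracket_mono, hc_mono, if_pos]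
    rw [hsumt]; exact sum_bracket m y i _
  have hE2 : homogeneousComponent (∑ j, t j)
      (six (X 1 ^ 2 ^ a * mono y) (X 2 ^ 2 ^ a * mono y) (X 3 ^ 2 ^ a * mono y)) =
      six (X 1 ^ 2 ^ a * mono y) (X 2 ^ 2 ^ a * mono y) (X 3 ^ 2 ^ a * mono y) := by
    unfold six
    simp only [map_add]
    rw [hdeg _ _ (by decide), hdeg _ _ (by decide), hdeg _ _ (by decide), hdeg _ _ (by decide),
      hdeg _ _ (by decide), hdeg _ _ (by decide)]
  have hg2 := hc_hits (∑ j, t j) hg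
  have hf2 := hc_msp (∑ j, t j) hf
  have hf3 : homogeneousComponent (∑ j, t j) f ∈ msp (fun z => MonLT z t) := by
    refine msp_mono ?_ hf2
    rintro z ⟨hz, hzs⟩
    refine ⟨hzs, Or.inl ?_⟩
    obtain ⟨c0, c1, -⟩ := wt_four (μ := ![3, 0, 3, 3]) (w := y + Pi.single 1 (2 ^ a)) (by decide)
    rw [← ht, G3a.1] at c0
    rw [← ht, G3a.2.1] at c1
    rcases hz with hz | ⟨hz, hz'⟩
    · exact ⟨0, fun l hl => absurd hl (Nat.not_lt_zero l), by rw [c0]; exact hz⟩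
    · refine ⟨1, fun l hl => ?_, by rw [c1]; exact hz'⟩
      have : l = 0 := by omega
      subst this
      rw [c0]; exact hz
  have hmt : mono t = mono ![3, 0, 3, 3] * (X 1 ^ 2 ^ a * mono y) ^ 4 := by
    rw [bracket_mono, ← ht]
  have hfin : mono t = homogeneousComponent (∑ j, t j) g + (homogeneousComponent (∑ j, t j) f +
      (mono ![3, 3, 0, 3] * (X 2 ^ 2 ^ a * mono y) ^ 4 +
        mono ![3, 3, 3, 0] * (X 3 ^ 2 ^ a * mono y) ^ 4 +
        mono ![2, 1, 3, 3] * (X 1 ^ 2 ^ a * mono y) ^ 4 +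
        mono ![2, 3, 1, 3] * (X 2 ^ 2 ^ a * mono y) ^ 4 +
        mono ![2, 3, 3, 1] * (X 3 ^ 2 ^ a * mono y) ^ 4)) := by
    rw [← add_assoc, ← map_add, hgf, hE2, hmt]
    unfold six
    have : ∀ A B C D E F : MvPolynomial (Fin 4) (ZMod 2),
        A = A + B + C + D + E + F + (B + C + D + E + F) := by
      intro A B C D E F
      have h : A + B + C + D + E + F + (B + C + D + E + F) =
        A + ((B + C + D + E + F) + (B + C + D + E + F)) := by ring
      rw [h, CharTwo.add_self_eq_zero, add_zero]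
    exact this _ _ _ _ _ _
  rw [hfin]
  refine Submodule.add_mem_sup hg2 (Submodule.add_mem _ hf3 ?_)
  exact Submodule.add_mem _ (Submodule.add_mem _ (Submodule.add_mem _ (Submodule.add_mem _ k2 k3)
    k4) k5) k6

end Pool.Agent.CTD

namespace Pool.Agent.HitD5

open Pool.Agent.Helper60.Hit

theorem S3 {t : Fin 4 → ℕ} (h0 : t 0 % 4 = 3) (h1 : t 1 % 4 = 0) (h1' : 0 < t 1)
    (h2 : t 2 % 4 = 3) (h3 : t 3 % 4 = 3) : ¬ Adm t := Pool.Agent.CTD.S3 t h0 h1 h1' h2 h3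

end Pool.Agent.HitD5
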