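import Pool.Agent.HitD5.Kam
import Pool.Agent.HitD5.First
import Pool.Agent.HitD5.S3
import Pool.Agent.CTL45.Sat4
import Pool.Agent.CTL45.Prefix
import Pool.Agent.CTL45.BetweenAdm

set_option autoImplicit false

/-! # special forms of the landed theorems for the seven remaining cases -/

namespace Pool.Agent.HitD5

open Pool.Agent.Helper60.Hit MvPolynomial Pool.Agent.CTL45

theorem ins0 {t : Fin 4 → ℕ} (h : Adm t) : Adm (![0, t 0, t 1, t 2, t 3] : Fin 5 → ℕ) := by
  refine adm_insert (n := 4) 0 (t := t) rfl ?_ h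
  intro j
  fin_cases j <;> rfl

theorem ins1 {t : Fin 4 → ℕ} (h : Adm t) : Adm (![t 0, 0, t 1, t 2, t 3] : Fin 5 → ℕ) := by
  refine adm_insert (n := 4) 1 (t := t) rfl ?_ h
  intro j
  fin_cases j <;> rfl

theorem bits_of_mod4 {a : ℕ} (h : a % 4 = 3) (s : ℕ) (hs : s < 2) : a / 2 ^ s % 2 = 1 := by
  interval_cases s
  · simp; omega
  · simp; omega

theorem sat2 (p k1 k2 : Fin 5) (hp : p < k1) (h12 : k1 < k2) {e0 e : Fin 5 → ℕ} (h0 : e0 p = 0)
    (hm : ∀ i, p < i → e0 i % 4 = 3) (h1 : e0 k1 = 3) (ep : e p = 3) (e2 : e k2 + 3 = e0 k2)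
    (heq : ∀ i, i ≠ p → i ≠ k2 → e i = e0 i) (h : Adm e0) : Adm e := by
  refine (sat_main p e0 h0 2 ![k1, k2] 1 e ?_ ?_ ?_ ?_ ?_ ?_ ?_ ?_).1 h
  · intro i j hij
    fin_cases i <;> fin_cases j <;> simp_all
  · intro m
    fin_cases m
    · exact hp
    · exact hp.trans h12
  · intro i hi s hs
    exact bits_of_mod4 (hm i hi) s hs
  · intro m hm
    fin_cases m
    · exact h1
    · exact absurd hm (lt_irrefl _)
  · exact ep
  · show e k2 + ∑ m ∈ Finset.range 2, 2 ^ (2 - 1 - m) = e0 k2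
    rw [← e2]
    rfl
  · intro m hm
    fin_cases m
    · exact absurd hm (by decide)
    · exact absurd hm (lt_irrefl _)
  · intro i hi hi2
    exact heq i hi (hi2 1 le_rfl)

theorem cat (k c q : Fin 5) (kc : k < c) (cq : c < q) {e0 e : Fin 5 → ℕ} (ek : e k = 3)
    (e0k : e0 k = 0) (eq : e0 q = e q + 3) (e4 : e q % 4 = 0)
    (other : ∀ l, l ≠ k → l ≠ q → e0 l = e l) (hc : e c % 4 = 1 ∨ e c % 4 = 2) (h : Adm e0) :
    Adm e :=
  Sit.adm ⟨kc, cq, ek, e0k, eq, e4, other⟩ hc h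

/-- the first exponent is 1 or 3 mod 4 -/
theorem first_mod {t : Fin 4 → ℕ} (h : Adm t) (h0 : 0 < t 0) : t 0 = 1 ∨ t 0 % 4 = 3 := by
  obtain ⟨s, hs⟩ := first_spike (n := 3) h
  rcases s with _ | _ | s
  · simp at hs; omega
  · left; simpa using hs
  · right
    rw [hs, pow_add]
    have := Nat.one_le_two_pow (n := s)
    omega

theorem first_mod8 {t : Fin 4 → ℕ} (h : Adm t) (h0 : 0 < t 0) :
    t 0 = 1 ∨ t 0 = 3 ∨ t 0 % 8 = 7 := by
  obtain ⟨s, hs⟩ := first_spike (n := 3) h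
  rcases s with _ | _ | _ | s
  · simp at hs; omega
  · left; simpa using hs
  · right; left; simpa using hs
  · right; right
    rw [hs, pow_add]
    have := Nat.one_le_two_pow (n := s)
    omega

end Pool.Agent.HitD5
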