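import Pool.Agent.HitD5.CasePrep

set_option autoImplicit false

/-! # the cases A1, ..., A4 -/

namespace Pool.Agent.HitD5

open Pool.Agent.Helper60.Hit MvPolynomial Pool.Agent.CTL45

theorem hA3 (t : Fin 4 → ℕ) (h : Adm t) (hpos : ∀ i, 0 < t i) (h2 : t 2 = 3) (h3 : t 3 % 4 = 3) :
    Adm (![3, t 0, t 1, 3, t 3 - 3] : Fin 5 → ℕ) := by
  have h0 := ins0 h
  have ht3 := hpos 3
  rcases first_mod h (hpos 0) with ha | ha
  · refine cat 0 1 4 (by decide) (by decide) rfl rfl ?_ ?_ ?_ (Or.inl ?_) h0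
    · show t 3 = t 3 - 3 + 3
      omega
    · show (t 3 - 3) % 4 = 0
      omega
    · intro l hl1 hl2
      fin_cases l <;> simp_all
    · show t 0 % 4 = 1
      omega
  · have hb : t 1 % 4 = 0 ∨ t 1 % 4 = 1 ∨ t 1 % 4 = 2 ∨ t 1 % 4 = 3 := by omega
    rcases hb with hb | hb | hb | hb
    · exact absurd h (S3 ha hb (hpos 1) (by rw [h2]) h3)
    · refine cat 0 2 4 (by decide) (by decide) rfl rfl ?_ ?_ ?_ (Or.inl hb) h0
      · show t 3 = t 3 - 3 + 3
        omega
      · show (t 3 - 3) % 4 = 0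
        omega
      · intro l hl1 hl2
        fin_cases l <;> simp_all
    · refine cat 0 2 4 (by decide) (by decide) rfl rfl ?_ ?_ ?_ (Or.inr hb) h0
      · show t 3 = t 3 - 3 + 3
        omega
      · show (t 3 - 3) % 4 = 0
        omega
      · intro l hl1 hl2
        fin_cases l <;> simp_all
    · refine sat2 0 3 4 (by decide) (by decide) rfl ?_ h2 rfl ?_ ?_ h0
      · intro i hi
        fin_cases i
        · exact absurd hi (lt_irrefl _)
        · exact ha
        · exact hb
        · show t 2 % 4 = 3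
          rw [h2]
        · exact h3
      · show t 3 - 3 + 3 = t 3
        omega
      · intro l hl1 hl2
        fin_cases l <;> simp_all

theorem hA4 (t : Fin 4 → ℕ) (h : Adm t) (hpos : ∀ i, 0 < t i) (h2 : t 2 = 3) (h3 : t 3 % 4 = 3) :
    Adm (![t 0, 3, t 1, 3, t 3 - 3] : Fin 5 → ℕ) := by
  have h0 := ins1 h
  have ht3 := hpos 3
  rcases first_mod h (hpos 0) with ha | ha
  · refine SitP.adm (k := 1) (c := 0) (q := 4) ⟨rfl, by decide, ha, rfl, rfl, ?_, ?_, ?_⟩ h0
    · show t 3 = t 3 - 3 + 3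
      omega
    · show (t 3 - 3) % 4 = 0
      omega
    · intro l hl1 hl2
      fin_cases l <;> simp_all
  · have hb : t 1 % 4 = 0 ∨ t 1 % 4 = 1 ∨ t 1 % 4 = 2 ∨ t 1 % 4 = 3 := by omega
    rcases hb with hb | hb | hb | hb
    · exact absurd h (S3 ha hb (hpos 1) (by rw [h2]) h3)
    · refine cat 1 2 4 (by decide) (by decide) rfl rfl ?_ ?_ ?_ (Or.inl hb) h0
      · show t 3 = t 3 - 3 + 3
        omega
      · show (t 3 - 3) % 4 = 0
        omega
      · intro l hl1 hl2
        fin_cases l <;> simp_all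
    · refine cat 1 2 4 (by decide) (by decide) rfl rfl ?_ ?_ ?_ (Or.inr hb) h0
      · show t 3 = t 3 - 3 + 3
        omega
      · show (t 3 - 3) % 4 = 0
        omega
      · intro l hl1 hl2
        fin_cases l <;> simp_all
    · refine sat2 1 3 4 (by decide) (by decide) rfl ?_ h2 rfl ?_ ?_ h0
      · intro i hi
        fin_cases i
        · exact absurd hi (by decide)
        · exact absurd hi (lt_irrefl _)
        · exact hb
        · show t 2 % 4 = 3
          rw [h2]
        · exact h3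
      · show t 3 - 3 + 3 = t 3
        omega
      · intro l hl1 hl2
        fin_cases l <;> simp_all

/-- A1 without the two cases `t 3 = 0, 1` mod 4 -/
theorem hA1' (t : Fin 4 → ℕ) (h : Adm t) (hpos : ∀ i, 0 < t i) (h1 : t 1 = 3) (h2 : t 2 % 4 = 3)
    (hAB : t 0 % 4 = 3 → t 3 % 4 = 1 → Adm (![3, t 0, 3, t 2 - 3, t 3] : Fin 5 → ℕ))
    (hC : t 0 % 4 = 3 → t 3 % 4 = 0 → Adm (![3, t 0, 3, t 2 - 3, t 3] : Fin 5 → ℕ)) :
    Adm (![3, t 0, 3, t 2 - 3, t 3] : Fin 5 → ℕ) := by
  have h0 := ins0 h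
  have ht2 := hpos 2
  rcases first_mod h (hpos 0) with ha | ha
  · refine cat 0 1 3 (by decide) (by decide) rfl rfl ?_ ?_ ?_ (Or.inl ?_) h0
    · show t 2 = t 2 - 3 + 3
      omega
    · show (t 2 - 3) % 4 = 0
      omega
    · intro l hl1 hl2
      fin_cases l <;> simp_all
    · show t 0 % 4 = 1
      omega
  · have hb : t 3 % 4 = 0 ∨ t 3 % 4 = 1 ∨ t 3 % 4 = 2 ∨ t 3 % 4 = 3 := by omega
    rcases hb with hb | hb | hb | hb
    · exact hC ha hb
    · exact hAB ha hb
    · exfalso
      obtain ⟨j, hj, hj1⟩ := mod_two h (c := 3) hb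
      fin_cases j
      · change t 0 % 4 = 1 at hj1; omega
      · change t 1 % 4 = 1 at hj1; omega
      · change t 2 % 4 = 1 at hj1; omega
      · exact absurd hj (lt_irrefl _)
    · refine sat2 0 2 3 (by decide) (by decide) rfl ?_ h1 rfl ?_ ?_ h0
      · intro i hi
        fin_cases i
        · exact absurd hi (lt_irrefl _)
        · exact ha
        · show t 1 % 4 = 3
          rw [h1]
        · exact h2
        · exact hb
      · show t 2 - 3 + 3 = t 2
        omega
      · intro l hl1 hl2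
        fin_cases l <;> simp_all

/-- A2 without the case `t 2 = 0` mod 4 -/
theorem hA2' (t : Fin 4 → ℕ) (h : Adm t) (hpos : ∀ i, 0 < t i) (h1 : t 1 = 3) (h3 : t 3 % 4 = 3)
    (hC : t 0 % 4 = 3 → t 2 % 4 = 0 → Adm (![3, t 0, 3, t 2, t 3 - 3] : Fin 5 → ℕ)) :
    Adm (![3, t 0, 3, t 2, t 3 - 3] : Fin 5 → ℕ) := by
  have h0 := ins0 h
  have ht3 := hpos 3
  rcases first_mod h (hpos 0) with ha | ha
  · refine cat 0 1 4 (by decide) (by decide) rfl rfl ?_ ?_ ?_ (Or.inl ?_) h0
    · show t 3 = t 3 - 3 + 3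
      omega
    · show (t 3 - 3) % 4 = 0
      omega
    · intro l hl1 hl2
      fin_cases l <;> simp_all
    · show t 0 % 4 = 1
      omega
  · have hb : t 2 % 4 = 0 ∨ t 2 % 4 = 1 ∨ t 2 % 4 = 2 ∨ t 2 % 4 = 3 := by omega
    rcases hb with hb | hb | hb | hb
    · exact hC ha hb
    · refine cat 0 3 4 (by decide) (by decide) rfl rfl ?_ ?_ ?_ (Or.inl hb) h0
      · show t 3 = t 3 - 3 + 3
        omega
      · show (t 3 - 3) % 4 = 0
        omega
      · intro l hl1 hl2
        fin_cases l <;> simp_all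
    · refine cat 0 3 4 (by decide) (by decide) rfl rfl ?_ ?_ ?_ (Or.inr hb) h0
      · show t 3 = t 3 - 3 + 3
        omega
      · show (t 3 - 3) % 4 = 0
        omega
      · intro l hl1 hl2
        fin_cases l <;> simp_all
    · refine sat2 0 2 4 (by decide) (by decide) rfl ?_ h1 rfl ?_ ?_ h0
      · intro i hi
        fin_cases i
        · exact absurd hi (lt_irrefl _)
        · exact ha
        · show t 1 % 4 = 3
          rw [h1]
        · exact hb
        · exact h3
      · show t 3 - 3 + 3 = t 3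
        omega
      · intro l hl1 hl2
        fin_cases l <;> simp_all

end Pool.Agent.HitD5
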