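import Pool.Agent.HitD5.CasePrep

set_option autoImplicit false

/-! # the cases B1, B2, B3, from the operator lemmas -/

namespace Pool.Agent.HitD5

open Pool.Agent.Helper60.Hit MvPolynomial Pool.Agent.CTL45

/-- case B2 -/
theorem hB2' {t : Fin 4 → ℕ}
    (AB : (∀ i, t i % 4 = 3) → Adm (![7, t 0, 7, 7, t 3 - 7] : Fin 5 → ℕ))
    (G : t 0 = 1 → Adm (![7, t 0, 7, 7, t 3 - 7] : Fin 5 → ℕ))
    (h : Adm t) (hpos : ∀ i, 0 < t i) (h1 : t 1 = 7) (h2 : t 2 = 7) (h3 : t 3 % 8 = 7) :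
    Adm (![7, t 0, 7, 7, t 3 - 7] : Fin 5 → ℕ) := by
  rcases first_mod h (hpos 0) with h0 | h0
  · exact G h0
  · refine AB ?_
    intro i
    fin_cases i
    · exact h0
    · show t 1 % 4 = 3
      omega
    · show t 2 % 4 = 3
      omega
    · show t 3 % 4 = 3
      omega

/-- case B3 -/
theorem hB3' {t : Fin 4 → ℕ}
    (AB : (∀ i, t i % 4 = 3) → Adm (![7, 7, t 1, 7, t 3 - 7] : Fin 5 → ℕ))
    (G : t 1 = 1 → Adm (![7, 7, t 1, 7, t 3 - 7] : Fin 5 → ℕ))
    (h : Adm t) (hpos : ∀ i, 0 < t i) (h0 : t 0 = 7) (h2 : t 2 = 7) (h3 : t 3 % 8 = 7) :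
    Adm (![7, 7, t 1, 7, t 3 - 7] : Fin 5 → ℕ) := by
  have p1 := hpos 1
  have hm : t 1 % 4 = 0 ∨ t 1 % 4 = 1 ∨ t 1 % 4 = 2 ∨ t 1 % 4 = 3 := by omega
  rcases hm with hm | hm | hm | hm
  · exact absurd h (S3 (by omega) hm p1 (by omega) (by omega))
  · by_cases h1 : t 1 = 1
    · exact G h1
    · exfalso
      have hh := adm_half h
      have h8 : t 1 % 8 = 1 ∨ t 1 % 8 = 5 := by omega
      rcases h8 with h8 | h8
      · refine S3 (t := fun i => t i / 2) ?_ ?_ ?_ ?_ ?_ hh
        · show t 0 / 2 % 4 = 3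
          omega
        · show t 1 / 2 % 4 = 0
          omega
        · show 0 < t 1 / 2
          omega
        · show t 2 / 2 % 4 = 3
          omega
        · show t 3 / 2 % 4 = 3
          omega
      · obtain ⟨j, hj, hj1⟩ := mod_two (c := (1 : Fin 4)) hh (by
          show t 1 / 2 % 4 = 2
          omega)
        have hj0 : j = 0 := by
          rw [Fin.lt_def] at hj
          have : (j : ℕ) < 1 := hj
          ext
          show (j : ℕ) = 0
          omega
        rw [hj0] at hj1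
        have : t 0 / 2 % 4 = 1 := hj1
        omega
  · obtain ⟨j, hj, hj1⟩ := mod_two (c := (1 : Fin 4)) h hm
    have hj0 : j = 0 := by
      rw [Fin.lt_def] at hj
      have : (j : ℕ) < 1 := hj
      ext
      show (j : ℕ) = 0
      omega
    rw [hj0] at hj1
    omega
  · refine AB ?_
    intro i
    fin_cases i
    · show t 0 % 4 = 3
      omega
    · exact hm
    · show t 2 % 4 = 3
      omega
    · show t 3 % 4 = 3
      omega

/-- case B1 -/
theorem hB1' {t : Fin 4 → ℕ}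
    (AB : (∀ i, t i % 4 = 3) → Adm (![7, t 0, 7, t 2 - 6, t 3 - 1] : Fin 5 → ℕ))
    (G : (∀ i, t i % 2 = 1) → t 0 = 1 → Adm (![7, t 0, 7, t 2 - 6, t 3 - 1] : Fin 5 → ℕ))
    (C : t 0 % 4 = 3 → t 2 % 8 = 7 → t 3 % 4 = 1 →
      Adm (![7, t 0, 7, t 2 - 6, t 3 - 1] : Fin 5 → ℕ))
    (II : t 0 = 1 → t 2 % 8 = 6 → Adm (![7, 1, 7, t 2 - 6, t 3 - 1] : Fin 5 → ℕ))
    (h : Adm t) (hpos : ∀ i, 0 < t i) (h1 : t 1 = 7) (_h2 : 7 < t 2) (h22 : t 2 / 4 % 2 = 1)
    (h21 : t 2 / 2 % 2 = 1) (h3 : t 3 % 2 = 1) :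
    Adm (![7, t 0, 7, t 2 - 6, t 3 - 1] : Fin 5 → ℕ) := by
  have hm2 : t 2 % 8 = 7 ∨ t 2 % 8 = 6 := by omega
  rcases hm2 with hm2 | hm2
  · rcases first_mod h (hpos 0) with h0 | h0
    · refine G ?_ h0
      intro i
      fin_cases i
      · show t 0 % 2 = 1
        omega
      · show t 1 % 2 = 1
        omega
      · show t 2 % 2 = 1
        omega
      · exact h3
    · have hm3 : t 3 % 4 = 3 ∨ t 3 % 4 = 1 := by omega
      rcases hm3 with hm3 | hm3
      · refine AB ?_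
        intro i
        fin_cases i
        · exact h0
        · show t 1 % 4 = 3
          omega
        · show t 2 % 4 = 3
          omega
        · exact hm3
      · exact C h0 hm2 hm3
  · obtain ⟨j, hj, hj1⟩ := mod_two (c := (2 : Fin 4)) h (by omega)
    have hj0 : j = 0 ∨ j = 1 := by
      rw [Fin.lt_def] at hj
      have h' : (j : ℕ) < 2 := hj
      have : (j : ℕ) = 0 ∨ (j : ℕ) = 1 := by omega
      rcases this with h | h
      · left
        exact Fin.ext h
      · right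
        exact Fin.ext h
    rcases hj0 with hj0 | hj0
    · rw [hj0] at hj1
      have h0 : t 0 = 1 := by
        rcases first_mod h (hpos 0) with h0 | h0
        · exact h0
        · omega
      have h5 := II h0 hm2
      rw [h0]
      exact h5
    · rw [hj0] at hj1
      omega

end Pool.Agent.HitD5
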