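import Pool.Agent.HitD5.OpC
import Pool.Agent.HitD5.Data
import Pool.Agent.HitD5.CasePrep

set_option autoImplicit false

/-! # The operator C for the cases A1, A2 and B1 -/

namespace Pool.Agent.HitD5

open Pool.Agent.Helper60.Hit MvPolynomial Pool.Agent.CTL45

/-- the situation for A2 -/
theorem wkA2 {t : Fin 4 → ℕ} (h1 : t 1 = 3) (h3 : t 3 % 4 = 3) :
    Wk (seqOf (n := 4) 0 ![2, 4]) 2 1 (![3, t 0, 3, t 2, t 3 - 3] : Fin 5 → ℕ)
      (![0, t 0, t 1, t 2, t 3] : Fin 5 → ℕ) := by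
  refine wk_main (n := 4) 0 _ rfl 2 ![2, 4] 1 _ (strictMono2 (by decide)) ?_ ?_ ?_ ?_ rfl ?_ ?_ ?_
  · intro m; fin_cases m <;> decide
  · intro m hm
    fin_cases m
    · exact h1
    · exact absurd hm (lt_irrefl _)
  · intro m hm
    fin_cases m
    · show t 3 / 2 ^ (2 - 1 - 0) % 2 = 1
      norm_num; omega
    · show t 3 / 2 ^ (2 - 1 - 1) % 2 = 1
      norm_num; omega
  · intro m hm
    fin_cases m
    · exact absurd hm (by decide)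
    · exact absurd hm (lt_irrefl _)
  · show t 3 - 3 + ∑ m ∈ Finset.range 2, 2 ^ (2 - 1 - m) = t 3
    have h : ∑ m ∈ Finset.range 2, 2 ^ (2 - 1 - m) = 3 := rfl
    rw [h]; omega
  · intro m hm
    fin_cases m
    · exact absurd hm (by decide)
    · exact absurd hm (lt_irrefl _)
  · intro i hi hi2
    have h4 := hi2 1 le_rfl
    fin_cases i
    · exact absurd rfl hi
    · rfl
    · exact h1.symm
    · rfl
    · exact absurd rfl h4

theorem wt_tail0 (t : Fin 4 → ℕ) (k : ℕ) :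
    wt (fun i : Fin 4 => (![0, t 0, t 1, t 2, t 3] : Fin 5 → ℕ) i.succ / 2 ^ k) 0 =
      t 0 / 2 ^ k % 2 + t 1 / 2 ^ k % 2 + t 2 / 2 ^ k % 2 + t 3 / 2 ^ k % 2 := by
  rw [wt_zero4]
  rfl

/-- C for A1 -/
theorem cA1 {t : Fin 4 → ℕ} (h : Adm t) (h1 : t 1 = 3) (h2 : t 2 % 4 = 3) (h0 : t 0 % 4 = 3)
    (h3 : t 3 % 4 = 0) : Adm (![3, t 0, 3, t 2 - 3, t 3] : Fin 5 → ℕ) := by
  refine (wkA1 h1 h2).C (k := 0) rfl rfl (fun i => by simp [Nat.mod_one]) (Or.inl ?_) ?_ (insZ h)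
  · show t 0 / 2 ^ 0 % 4 = 3
    rw [pow_zero, Nat.div_one]
    exact h0
  · rw [wt_tail0, pow_zero, Nat.div_one, Nat.div_one, Nat.div_one, Nat.div_one]
    omega

/-- C for A2 -/
theorem cA2 {t : Fin 4 → ℕ} (h : Adm t) (h1 : t 1 = 3) (h3 : t 3 % 4 = 3) (h0 : t 0 % 4 = 3)
    (h2 : t 2 % 4 = 0) : Adm (![3, t 0, 3, t 2, t 3 - 3] : Fin 5 → ℕ) := by
  refine (wkA2 h1 h3).C (k := 0) rfl rfl (fun i => by simp [Nat.mod_one]) (Or.inl ?_) ?_ (insZ h)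
  · show t 0 / 2 ^ 0 % 4 = 3
    rw [pow_zero, Nat.div_one]
    exact h0
  · rw [wt_tail0, pow_zero, Nat.div_one, Nat.div_one, Nat.div_one, Nat.div_one]
    omega

/-- C for B1 -/
theorem cB1 {t : Fin 4 → ℕ} (h : Adm t) (h1 : t 1 = 7) (h2' : 7 < t 2) (h2 : t 2 % 8 = 7)
    (h0 : t 0 % 4 = 3) (h3 : t 3 % 4 = 1) :
    Adm (![7, t 0, 7, t 2 - 6, t 3 - 1] : Fin 5 → ℕ) := by
  refine (wkB1 h1 h2' (by omega) (by omega) (by omega)).C (k := 1) rfl rfl (fun i => ?_) ?_ ?_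
    (insZ h)
  · fin_cases i
    · show t 0 % 2 ^ 1 = 2 ^ 1 - 1
      norm_num; omega
    · show t 1 % 2 ^ 1 = 2 ^ 1 - 1
      norm_num; omega
    · show t 2 % 2 ^ 1 = 2 ^ 1 - 1
      norm_num; omega
    · show t 3 % 2 ^ 1 = 2 ^ 1 - 1
      norm_num; omega
  · have h5 := first_mod8 h (by omega)
    show t 0 / 2 ^ 1 % 4 = 3 ∨ t 0 / 2 ^ 1 = 1
    rw [pow_one]
    omega
  · rw [wt_tail0, pow_one]
    omega

end Pool.Agent.HitD5
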