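import Pool.Agent.HitD5.Frob

set_option autoImplicit false

/-! # the list of configurations for d = 5 -/

namespace Pool.Agent.HitD5

open Pool.Agent.Helper60.Hit MvPolynomial Pool.Agent.CTL45

theorem configs_eq {e : Fin 5 → ℕ} {a b c d f : ℕ} (h : Adm (![a, b, c, d, f] : Fin 5 → ℕ))
    (h0 : e 0 = a) (h1 : e 1 = b) (h2 : e 2 = c) (h3 : e 3 = d) (h4 : e 4 = f) : Adm e := by
  have he : e = ![a, b, c, d, f] := by
    funext i
    fin_cases i
    · exact h0
    · exact h1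
    · exact h2
    · exact h3
    · exact h4
  rw [he]
  exact h

theorem configs
    (HA1 : ∀ t : Fin 4 → ℕ, Adm t → (∀ i, 0 < t i) → t 1 = 3 → t 2 % 4 = 3 →
      Adm (![3, t 0, 3, t 2 - 3, t 3] : Fin 5 → ℕ))
    (HA2 : ∀ t : Fin 4 → ℕ, Adm t → (∀ i, 0 < t i) → t 1 = 3 → t 3 % 4 = 3 →
      Adm (![3, t 0, 3, t 2, t 3 - 3] : Fin 5 → ℕ))
    (HA3 : ∀ t : Fin 4 → ℕ, Adm t → (∀ i, 0 < t i) → t 2 = 3 → t 3 % 4 = 3 →
      Adm (![3, t 0, t 1, 3, t 3 - 3] : Fin 5 → ℕ))
    (HA4 : ∀ t : Fin 4 → ℕ, Adm t → (∀ i, 0 < t i) → t 2 = 3 → t 3 % 4 = 3 →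
      Adm (![t 0, 3, t 1, 3, t 3 - 3] : Fin 5 → ℕ))
    (HB1 : ∀ t : Fin 4 → ℕ, Adm t → (∀ i, 0 < t i) → t 1 = 7 → 7 < t 2 → t 2 / 4 % 2 = 1 →
      t 2 / 2 % 2 = 1 → t 3 % 2 = 1 → 1 < t 3 →
      Adm (![7, t 0, 7, t 2 - 6, t 3 - 1] : Fin 5 → ℕ))
    (HB2 : ∀ t : Fin 4 → ℕ, Adm t → (∀ i, 0 < t i) → t 1 = 7 → t 2 = 7 → t 3 % 8 = 7 →
      Adm (![7, t 0, 7, 7, t 3 - 7] : Fin 5 → ℕ))
    (HB3 : ∀ t : Fin 4 → ℕ, Adm t → (∀ i, 0 < t i) → t 0 = 7 → t 2 = 7 → t 3 % 8 = 7 →
      Adm (![7, 7, t 1, 7, t 3 - 7] : Fin 5 → ℕ))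
    {t : Fin 4 → ℕ} (ht : Adm t) (p : Fin 5) (e0 : Fin 5 → ℕ) (h0 : e0 p = 0)
    (h1 : ∀ j, e0 (p.succAbove j) = t j) (r : ℕ) (κ : Fin r → Fin 5) (u : Fin r)
    (e : Fin 5 → ℕ) (hκ : StrictMono κ) (hpκ : ∀ m, p < κ m)
    (hlow : ∀ m, m < u → e0 (κ m) = 2 ^ r - 1)
    (hbig : 2 ^ r - 1 < e0 (κ u))
    (hbu : ∀ m : Fin r, m ≤ u → e0 (κ u) / 2 ^ (r - 1 - (m : ℕ)) % 2 = 1)
    (hbm : ∀ m : Fin r, u < m → e0 (κ m) / 2 ^ (r - 1 - (m : ℕ)) % 2 = 1)
    (hep : e p = 2 ^ r - 1)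
    (heu : e (κ u) + ∑ m ∈ Finset.range ((u : ℕ) + 1), 2 ^ (r - 1 - m) = e0 (κ u))
    (hem : ∀ m : Fin r, u < m → e (κ m) + 2 ^ (r - 1 - (m : ℕ)) = e0 (κ m))
    (heq : ∀ i, i ≠ p → (∀ m, u ≤ m → i ≠ κ m) → e i = e0 i)
    (hpos : ∀ i, 0 < e i) : Adm e := by
  have hadm0 : Adm e0 := adm_insert p h0 h1 ht
  by_cases hs : ∀ i m, p < i → m < u → i ≤ κ m → e0 i = 2 ^ r - 1
  · exact (main_adm p e0 h0 r κ u e hκ hpκ hs hbu hbm hep heu hem heq).1 hadm0
  push Not at hs
  obtain ⟨i, m, hpi, hmu, him, hei⟩ := hs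
  have hik : ∀ l, l < u → i ≠ κ l := fun l hl h => hei (by rw [h]; exact hlow l hl)
  have hle : ∀ j, j ≠ p → e j ≤ e0 j := by
    intro j hj
    by_cases hc : ∀ m, u ≤ m → j ≠ κ m
    · exact (heq j hj hc).le
    · push Not at hc
      obtain ⟨l, hl, rfl⟩ := hc
      rcases eq_or_lt_of_le hl with h | h
      · rw [← h]
        exact Nat.le.intro heu
      · exact Nat.le.intro (hem l h)
  have hp0 : ∀ j, 0 < t j := by
    intro j
    rw [← h1 j]
    exact lt_of_lt_of_le (hpos _) (hle _ (Fin.succAbove_ne p j))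
  have hm1 : (m : ℕ) < u := hmu
  have hp1 : (p : ℕ) < i := hpi
  have hi1 : (i : ℕ) ≤ κ m := him
  have hcard : r ≤ 5 := by
    have := Fintype.card_le_of_injective κ hκ.injective
    simpa using this
  have hpos4 := hpos
  clear hle hadm0
  rcases r with _ | _ | _ | _ | _ | _ | r
  · exact absurd u.2 (by omega)
  · exact absurd u.2 (by omega)
  · -- r = 2
    have hu2 := u.2
    obtain rfl : u = 1 := Fin.ext (show (u : ℕ) = 1 by omega)
    have hm1' : (m : ℕ) < 1 := hm1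
    obtain rfl : m = 0 := Fin.ext (show (m : ℕ) = 0 by omega)
    have a1 : (p : ℕ) < κ 0 := hpκ 0
    have a2 : (κ 0 : ℕ) < κ 1 := hκ (by decide)
    have a3 := (κ 1).2
    have a4 : (i : ℕ) ≠ κ 0 := fun h => hik 0 (by decide) (Fin.ext h)
    have b1 := hlow 0 (by decide)
    have b2 := hbu 0 (by decide)
    have b3 := hbu 1 (by decide)
    have hc : ((p : ℕ) = 0 ∧ (κ 0 : ℕ) = 2 ∧ (κ 1 : ℕ) = 3) ∨ ((p : ℕ) = 0 ∧ (κ 0 : ℕ) = 2 ∧ (κ 1 : ℕ) = 4) ∨
      ((p : ℕ) = 0 ∧ (κ 0 : ℕ) = 3 ∧ (κ 1 : ℕ) = 4) ∨ ((p : ℕ) = 1 ∧ (κ 0 : ℕ) = 3 ∧ (κ 1 : ℕ) = 4) := by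
      omega
    have hex : ∀ i : Fin 5, i ≠ p → (i : ℕ) ≠ κ 1 → e i = e0 i := by
      intro j hj hj1
      refine heq j hj ?_
      intro l hl
      obtain rfl : l = 1 := by
        have h2 : (1 : ℕ) ≤ l := hl
        exact Fin.ext (show (l : ℕ) = 1 by have := l.2; omega)
      exact fun h => hj1 (by rw [h])
    rcases hc with ⟨q0, q1, q2⟩ | ⟨q0, q1, q2⟩ | ⟨q0, q1, q2⟩ | ⟨q0, q1, q2⟩
    · obtain rfl : p = 0 := Fin.ext q0
      have k0 : κ 0 = 2 := Fin.ext q1
      have k1 : κ 1 = 3 := Fin.ext q2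
      rw [k0] at b1
      rw [k1] at b2 b3 heu hex
      have t1 : e0 1 = t 0 := h1 0
      have t2 : e0 2 = t 1 := h1 1
      have t3 : e0 3 = t 2 := h1 2
      have t4 : e0 4 = t 3 := h1 3
      have c1 := hex 1 (by decide) (by decide)
      have c2 := hex 2 (by decide) (by decide)
      have c4 := hex 4 (by decide) (by decide)
      simp [Finset.sum_range_succ] at b1 b2 b3 heu hep
      exact configs_eq (HA1 t ht hp0 (by omega) (by omega)) hep (by omega) (by omega) (by omega)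
        (by omega)
    · obtain rfl : p = 0 := Fin.ext q0
      have k0 : κ 0 = 2 := Fin.ext q1
      have k1 : κ 1 = 4 := Fin.ext q2
      rw [k0] at b1
      rw [k1] at b2 b3 heu hex
      have t1 : e0 1 = t 0 := h1 0
      have t2 : e0 2 = t 1 := h1 1
      have t3 : e0 3 = t 2 := h1 2
      have t4 : e0 4 = t 3 := h1 3
      have c1 := hex 1 (by decide) (by decide)
      have c2 := hex 2 (by decide) (by decide)
      have c3 := hex 3 (by decide) (by decide)
      simp [Finset.sum_range_succ] at b1 b2 b3 heu hep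
      exact configs_eq (HA2 t ht hp0 (by omega) (by omega)) hep (by omega) (by omega) (by omega)
        (by omega)
    · obtain rfl : p = 0 := Fin.ext q0
      have k0 : κ 0 = 3 := Fin.ext q1
      have k1 : κ 1 = 4 := Fin.ext q2
      rw [k0] at b1
      rw [k1] at b2 b3 heu hex
      have t1 : e0 1 = t 0 := h1 0
      have t2 : e0 2 = t 1 := h1 1
      have t3 : e0 3 = t 2 := h1 2
      have t4 : e0 4 = t 3 := h1 3
      have c1 := hex 1 (by decide) (by decide)
      have c2 := hex 2 (by decide) (by decide)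
      have c3 := hex 3 (by decide) (by decide)
      simp [Finset.sum_range_succ] at b1 b2 b3 heu hep
      exact configs_eq (HA3 t ht hp0 (by omega) (by omega)) hep (by omega) (by omega) (by omega)
        (by omega)
    · obtain rfl : p = 1 := Fin.ext q0
      have k0 : κ 0 = 3 := Fin.ext q1
      have k1 : κ 1 = 4 := Fin.ext q2
      rw [k0] at b1
      rw [k1] at b2 b3 heu hex
      have t1 : e0 0 = t 0 := h1 0
      have t2 : e0 2 = t 1 := h1 1
      have t3 : e0 3 = t 2 := h1 2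
      have t4 : e0 4 = t 3 := h1 3
      have c1 := hex 0 (by decide) (by decide)
      have c2 := hex 2 (by decide) (by decide)
      have c3 := hex 3 (by decide) (by decide)
      simp [Finset.sum_range_succ] at b1 b2 b3 heu hep
      exact configs_eq (HA4 t ht hp0 (by omega) (by omega)) (by omega) hep (by omega) (by omega)
        (by omega)
  · -- r = 3
    have hu2 := u.2
    have a1 : (p : ℕ) < κ 0 := hpκ 0
    have a2 : (κ 0 : ℕ) < κ 1 := hκ (by decide)
    have a3 : (κ 1 : ℕ) < κ 2 := hκ (by decide)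
    have a4 := (κ 2).2
    have hu3 : (u : ℕ) = 1 ∨ (u : ℕ) = 2 := by omega
    rcases hu3 with hu3 | hu3
    · obtain rfl : u = 1 := Fin.ext hu3
      have hm1' : (m : ℕ) < 1 := hm1
      obtain rfl : m = 0 := Fin.ext (show (m : ℕ) = 0 by omega)
      have a5 : (i : ℕ) ≠ κ 0 := fun h => hik 0 (by decide) (Fin.ext h)
      obtain rfl : p = 0 := Fin.ext (show (p : ℕ) = 0 by omega)
      have k0 : κ 0 = 2 := Fin.ext (show (κ 0 : ℕ) = 2 by omega)
      have k1 : κ 1 = 3 := Fin.ext (show (κ 1 : ℕ) = 3 by omega)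
      have k2 : κ 2 = 4 := Fin.ext (show (κ 2 : ℕ) = 4 by omega)
      have b1 := hlow 0 (by decide)
      have b2 := hbu 0 (by decide)
      have b3 := hbu 1 (by decide)
      have b4 := hbm 2 (by decide)
      have b5 := hem 2 (by decide)
      have hex : ∀ i : Fin 5, i ≠ 0 → i ≠ 3 → i ≠ 4 → e i = e0 i := by
        intro j hj hj1 hj2
        refine heq j hj ?_
        intro l hl
        have h2 : (1 : ℕ) ≤ l := hl
        have h3 := l.2
        have h4 : (l : ℕ) = 1 ∨ (l : ℕ) = 2 := by omega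
        rcases h4 with h4 | h4
        · obtain rfl : l = 1 := Fin.ext h4
          rw [k1]
          exact hj1
        · obtain rfl : l = 2 := Fin.ext h4
          rw [k2]
          exact hj2
      rw [k0] at b1
      rw [k1] at b2 b3 heu hbig
      rw [k2] at b4 b5
      have t1 : e0 1 = t 0 := h1 0
      have t2 : e0 2 = t 1 := h1 1
      have t3 : e0 3 = t 2 := h1 2
      have t4 : e0 4 = t 3 := h1 3
      have c1 := hex 1 (by decide) (by decide) (by decide)
      have c2 := hex 2 (by decide) (by decide) (by decide)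
      have p4 := hpos4 4
      simp [Finset.sum_range_succ] at b1 b2 b3 b4 b5 heu hep hbig
      exact configs_eq (HB1 t ht hp0 (by omega) (by omega) (by omega) (by omega) (by omega)
        (by omega)) hep (by omega) (by omega) (by omega) (by omega)
    · obtain rfl : u = 2 := Fin.ext hu3
      have hm1' : (m : ℕ) < 2 := hm1
      have a5 : (i : ℕ) ≠ κ 0 := fun h => hik 0 (by decide) (Fin.ext h)
      have a6 : (i : ℕ) ≠ κ 1 := fun h => hik 1 (by decide) (Fin.ext h)
      have a7 : (i : ℕ) ≤ κ 1 := by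
        have h2 : (m : ℕ) = 0 ∨ (m : ℕ) = 1 := by omega
        rcases h2 with h2 | h2
        · obtain rfl : m = 0 := Fin.ext h2
          omega
        · obtain rfl : m = 1 := Fin.ext h2
          exact hi1
      have b1 := hlow 0 (by decide)
      have b2 := hlow 1 (by decide)
      have b3 := hbu 0 (by decide)
      have b4 := hbu 1 (by decide)
      have b5 := hbu 2 (by decide)
      have hex : ∀ i : Fin 5, i ≠ p → (i : ℕ) ≠ κ 2 → e i = e0 i := by
        intro j hj hj1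
        refine heq j hj ?_
        intro l hl
        obtain rfl : l = 2 := by
          have h2 : (2 : ℕ) ≤ l := hl
          exact Fin.ext (show (l : ℕ) = 2 by have := l.2; omega)
        exact fun h => hj1 (by rw [h])
      obtain rfl : p = 0 := Fin.ext (show (p : ℕ) = 0 by omega)
      have hc : ((κ 0 : ℕ) = 2 ∧ (κ 1 : ℕ) = 3 ∧ (κ 2 : ℕ) = 4) ∨
          ((κ 0 : ℕ) = 1 ∧ (κ 1 : ℕ) = 3 ∧ (κ 2 : ℕ) = 4) := by
        omega
      rcases hc with ⟨q0, q1, q2⟩ | ⟨q0, q1, q2⟩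
      · have k0 : κ 0 = 2 := Fin.ext q0
        have k1 : κ 1 = 3 := Fin.ext q1
        have k2 : κ 2 = 4 := Fin.ext q2
        rw [k0] at b1
        rw [k1] at b2
        rw [k2] at b3 b4 b5 heu hex
        have t1 : e0 1 = t 0 := h1 0
        have t2 : e0 2 = t 1 := h1 1
        have t3 : e0 3 = t 2 := h1 2
        have t4 : e0 4 = t 3 := h1 3
        have c1 := hex 1 (by decide) (by decide)
        have c2 := hex 2 (by decide) (by decide)
        have c3 := hex 3 (by decide) (by decide)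
        simp [Finset.sum_range_succ] at b1 b2 b3 b4 b5 heu hep
        exact configs_eq (HB2 t ht hp0 (by omega) (by omega) (by omega)) hep (by omega) (by omega)
          (by omega) (by omega)
      · have k0 : κ 0 = 1 := Fin.ext q0
        have k1 : κ 1 = 3 := Fin.ext q1
        have k2 : κ 2 = 4 := Fin.ext q2
        rw [k0] at b1
        rw [k1] at b2
        rw [k2] at b3 b4 b5 heu hex
        have t1 : e0 1 = t 0 := h1 0
        have t2 : e0 2 = t 1 := h1 1
        have t3 : e0 3 = t 2 := h1 2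
        have t4 : e0 4 = t 3 := h1 3
        have c1 := hex 1 (by decide) (by decide)
        have c2 := hex 2 (by decide) (by decide)
        have c3 := hex 3 (by decide) (by decide)
        simp [Finset.sum_range_succ] at b1 b2 b3 b4 b5 heu hep
        exact configs_eq (HB3 t ht hp0 (by omega) (by omega) (by omega)) hep (by omega) (by omega)
          (by omega) (by omega)
  · -- r = 4
    exfalso
    have hu2 := u.2
    have a1 : (p : ℕ) < κ 0 := hpκ 0
    have a2 : (κ 0 : ℕ) < κ 1 := hκ (by decide)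
    have a3 : (κ 1 : ℕ) < κ 2 := hκ (by decide)
    have a4 : (κ 2 : ℕ) < κ 3 := hκ (by decide)
    have a5 := (κ 3).2
    have hm3 : (m : ℕ) < 3 := by omega
    have k0 : (κ 0 : ℕ) = 1 := by omega
    have k1 : (κ 1 : ℕ) = 2 := by omega
    have k2 : (κ 2 : ℕ) = 3 := by omega
    have hm4 : (m : ℕ) = 0 ∨ (m : ℕ) = 1 ∨ (m : ℕ) = 2 := by omega
    have hik' : ∀ l : Fin 4, (l : ℕ) ≤ m → (i : ℕ) ≠ κ l := by
      intro l hl h
      exact hik l (lt_of_le_of_lt (show l ≤ m from hl) hmu) (Fin.ext h)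
    rcases hm4 with h | h | h
    · obtain rfl : m = 0 := Fin.ext h
      have g0 := hik' 0 (by decide)
      omega
    · obtain rfl : m = 1 := Fin.ext h
      have g0 := hik' 0 (by decide)
      have g1 := hik' 1 (by decide)
      omega
    · obtain rfl : m = 2 := Fin.ext h
      have g0 := hik' 0 (by decide)
      have g1 := hik' 1 (by decide)
      have g2 := hik' 2 (by decide)
      omega
  · -- r = 5
    exfalso
    have a1 : (p : ℕ) < κ 0 := hpκ 0
    have a2 : (κ 0 : ℕ) < κ 1 := hκ (by decide)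
    have a3 : (κ 1 : ℕ) < κ 2 := hκ (by decide)
    have a4 : (κ 2 : ℕ) < κ 3 := hκ (by decide)
    have a5 : (κ 3 : ℕ) < κ 4 := hκ (by decide)
    have a6 := (κ 4).2
    omega
  · omega

end Pool.Agent.HitD5
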