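import Pool.Agent.HitD5.CasesC
import Pool.Agent.HitD5.CasesA
import Pool.Agent.HitD5.CasesB
import Pool.Agent.HitD5.CaseII
import Pool.Agent.HitD5.Configs

set_option autoImplicit false

/-! # All configurations for d = 5 -/

namespace Pool.Agent.HitD5

open Pool.Agent.Helper60.Hit MvPolynomial Pool.Agent.CTL45

theorem HA1 (t : Fin 4 → ℕ) (h : Adm t) (hpos : ∀ i, 0 < t i) (h1 : t 1 = 3) (h2 : t 2 % 4 = 3) :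
    Adm (![3, t 0, 3, t 2 - 3, t 3] : Fin 5 → ℕ) := by
  refine hA1' t h hpos h1 h2 (fun h0 h3 => abA1 h h1 h2 fun i => ?_)
    (fun h0 h3 => cA1 h h1 h2 h0 h3)
  fin_cases i
  · show t 0 % 2 = 1
    omega
  · show t 1 % 2 = 1
    omega
  · show t 2 % 2 = 1
    omega
  · show t 3 % 2 = 1
    omega

theorem HA2 (t : Fin 4 → ℕ) (h : Adm t) (hpos : ∀ i, 0 < t i) (h1 : t 1 = 3) (h3 : t 3 % 4 = 3) :
    Adm (![3, t 0, 3, t 2, t 3 - 3] : Fin 5 → ℕ) :=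
  hA2' t h hpos h1 h3 (fun h0 h2 => cA2 h h1 h3 h0 h2)

theorem HB1 (t : Fin 4 → ℕ) (h : Adm t) (hpos : ∀ i, 0 < t i) (h1 : t 1 = 7) (h2 : 7 < t 2)
    (h22 : t 2 / 4 % 2 = 1) (h21 : t 2 / 2 % 2 = 1) (h3 : t 3 % 2 = 1) (h3' : 1 < t 3) :
    Adm (![7, t 0, 7, t 2 - 6, t 3 - 1] : Fin 5 → ℕ) :=
  hB1' (fun h4 => abB1 h h1 h2 h22 h21 h3 h4) (fun ho hg => gB1 h h1 h2 h22 h21 h3 ho hg)
    (fun h0 h28 h34 => cB1 h h1 h2 h28 h0 h34)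
    (fun h0 h26 => caseII h h0 h1 h26 h2 h3 h3' rfl) h hpos h1 h2 h22 h21 h3

theorem HB2 (t : Fin 4 → ℕ) (h : Adm t) (hpos : ∀ i, 0 < t i) (h1 : t 1 = 7) (h2 : t 2 = 7)
    (h3 : t 3 % 8 = 7) : Adm (![7, t 0, 7, 7, t 3 - 7] : Fin 5 → ℕ) :=
  hB2' (fun h4 => abB2 h h1 h2 h3 h4) (fun hg => gB2 h h1 h2 h3 hg) h hpos h1 h2 h3

theorem HB3 (t : Fin 4 → ℕ) (h : Adm t) (hpos : ∀ i, 0 < t i) (h0 : t 0 = 7) (h2 : t 2 = 7)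
    (h3 : t 3 % 8 = 7) : Adm (![7, 7, t 1, 7, t 3 - 7] : Fin 5 → ℕ) :=
  hB3' (fun h4 => abB3 h h0 h2 h3 h4) (fun hg => gB3 h h0 h2 h3 hg) h hpos h0 h2 h3

/-- the map `φ` preserves admissibility for `d = 5` -/
theorem phi_adm {t : Fin 4 → ℕ} (ht : Adm t) (p : Fin 5) (e0 : Fin 5 → ℕ) (h0 : e0 p = 0)
    (h1 : ∀ j, e0 (p.succAbove j) = t j) (r : ℕ) (κ : Fin r → Fin 5) (u : Fin r)
    (e : Fin 5 → ℕ) (hκ : StrictMono κ) (hpκ : ∀ m, p < κ m)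
    (hlow : ∀ m, m < u → e0 (κ m) = 2 ^ r - 1)
    (hbig : 2 ^ r - 1 < e0 (κ u))
    (hbu : ∀ m : Fin r, m ≤ u → e0 (κ u) / 2 ^ (r - 1 - (m : ℕ)) % 2 = 1)
    (hbm : ∀ m : Fin r, u < m → e0 (κ m) / 2 ^ (r - 1 - (m : ℕ)) % 2 = 1)
    (hep : e p = 2 ^ r - 1)
    (heu : e (κ u) + ∑ m ∈ Finset.range ((u : ℕ) + 1), 2 ^ (r - 1 - m) = e0 (κ u))
    (hem : ∀ m : Fin r, u < m → e (κ m) + 2 ^ (r - 1 - (m : ℕ)) = e0 (κ m))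
    (heq : ∀ i, i ≠ p → (∀ m, u ≤ m → i ≠ κ m) → e i = e0 i)
    (hpos : ∀ i, 0 < e i) : Adm e :=
  configs HA1 HA2 hA3 hA4 HB1 HB2 HB3 ht p e0 h0 h1 r κ u e hκ hpκ hlow hbig hbu hbm hep heu hem
    heq hpos

end Pool.Agent.HitD5
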