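import Pool.Agent.HitD5.Basic

set_option autoImplicit false

/-!
# Frobenius: products `mono η * g ^ (2 ^ k)`, order without the degree, the lemma K1
-/

namespace Pool.Agent.HitD5

open Pool.Agent.Helper60.Hit MvPolynomial Pool.Agent.CTL45

variable {d : ℕ}

/-- moving a nonzero part inside the binary digits lowers the weight vector at the lowest moved
digit -/
theorem wt_move {z c : Fin d → ℕ} (hc : c ≠ 0) (h : ∀ i, (z i).choose (c i) % 2 = 1) :
    ∃ s, (∃ i, c i / 2 ^ s % 2 = 1 ∧ z i / 2 ^ s % 2 = 1) ∧ (∀ l < s, ∀ i, c i / 2 ^ l % 2 = 0) ∧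
      (∀ l < s, wt (z + c) l = wt z l) ∧ wt (z + c) s < wt z s := by
  classical
  have hex : ∃ s, ∃ i, c i / 2 ^ s % 2 = 1 := by
    obtain ⟨i, hi⟩ : ∃ i, c i ≠ 0 := by
      by_contra hcon
      push Not at hcon
      exact hc (funext hcon)
    by_contra hcon
    push Not at hcon
    have h1 := one_le_popcount (c i) (c i) hi (Nat.lt_two_pow_self)
    have h2 : ∑ s ∈ Finset.range (c i), c i / 2 ^ s % 2 = 0 := by
      apply Finset.sum_eq_zero
      intro s _
      have := hcon s i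
      omega
    omega
  let s0 := Nat.find hex
  obtain ⟨i0, hi0⟩ : ∃ i, c i / 2 ^ s0 % 2 = 1 := Nat.find_spec hex
  have hmin : ∀ l < s0, ∀ i, c i / 2 ^ l % 2 = 0 := by
    intro l hl i
    have := Nat.find_min hex hl
    push Not at this
    have := this i
    omega
  have hbit : ∀ i s, z i / 2 ^ s % 2 = c i / 2 ^ s % 2 + (z i - c i) / 2 ^ s % 2 :=
    fun i s => (lucas_bits _ _ (h i)).2 s
  refine ⟨s0, ⟨i0, hi0, ?_⟩, hmin, ?_, ?_⟩
  · have := hbit i0 s0
    omega
  · intro l hl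
    unfold wt
    refine Finset.sum_congr rfl fun i _ => ?_
    rw [Pi.add_apply, bit_add_of_no_carry (fun s' hs' => ?_), hmin l hl i]
    · omega
    · rintro ⟨-, h2⟩
      rw [hmin s' (hs'.trans hl) i] at h2
      omega
  · unfold wt
    have hb : ∀ i, (z + c) i / 2 ^ s0 % 2 = (z i / 2 ^ s0 % 2 + c i / 2 ^ s0 % 2) % 2 := by
      intro i
      rw [Pi.add_apply, bit_add_of_no_carry (fun s' hs' => ?_)]
      rintro ⟨-, h2⟩
      rw [hmin s' hs' i] at h2
      omega
    refine Finset.sum_lt_sum (fun i _ => ?_) ⟨i0, Finset.mem_univ _, ?_⟩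
    · rw [hb i]
      have := hbit i s0
      omega
    · rw [hb i0]
      have := hbit i0 s0
      omega

/-- the weight vector is smaller at a place below `k`, and equal before -/
def LowK (k : ℕ) (η : Fin d → ℕ) (z : Fin d → ℕ) : Prop :=
  ∃ s < k, (∀ l < s, wt z l = wt η l) ∧ wt z s < wt η s

theorem bit_lt {k s a : ℕ} (ha : a < 2 ^ k) (h : a / 2 ^ s % 2 = 1) : s < k := by
  by_contra hcon
  have h1 : 2 ^ k ≤ 2 ^ s := Nat.pow_le_pow_right (by norm_num) (by omega)
  rw [Nat.div_eq_of_lt (by omega)] at h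
  omega

theorem sq_low {k : ℕ} {η : Fin d → ℕ} (hη : ∀ i, η i < 2 ^ k) :
    Sq d (mono η) + mono η ∈ msp (LowK k η) := by
  refine msp_mono ?_ (sq_add_mono_mem η)
  rintro y ⟨c, rfl, hc, hodd⟩
  obtain ⟨s, ⟨i, -, h2⟩, -, h3, h4⟩ := wt_move hc hodd
  exact ⟨s, bit_lt (hη i) h2, h3, h4⟩

theorem mono_pow (y : Fin d → ℕ) (m : ℕ) : mono y ^ m = mono (fun i => m * y i) := by
  rw [mono_eq_prod, mono_eq_prod, ← Finset.prod_pow]
  refine Finset.prod_congr rfl fun i _ => ?_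
  rw [← pow_mul, mul_comm]

/-- the linear map `g ↦ mono η * g ^ (2 ^ k)` -/
noncomputable def frob (k : ℕ) (η : Fin d → ℕ) :
    MvPolynomial (Fin d) (ZMod 2) →ₗ[ZMod 2] MvPolynomial (Fin d) (ZMod 2) where
  toFun g := mono η * g ^ (2 ^ k)
  map_add' x y := by rw [add_pow_char_pow, mul_add]
  map_smul' a x := by
    rw [RingHom.id_apply, smul_pow]
    have : a ^ (2 ^ k) = a := by
      have h : a = 0 ∨ a = 1 := by revert a; decide
      rcases h with rfl | rfl
      · rw [zero_pow (by positivity)]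
      · rw [one_pow]
    rw [this, mul_smul_comm]

theorem frob_apply (k : ℕ) (η : Fin d → ℕ) (g : MvPolynomial (Fin d) (ZMod 2)) :
    frob k η g = mono η * g ^ (2 ^ k) := rfl

/-- exponent vector `2 ^ k * v + η` -/
def ex (k : ℕ) (η v : Fin d → ℕ) : Fin d → ℕ := fun i => η i + 2 ^ k * v i

theorem frob_mono (k : ℕ) (η v : Fin d → ℕ) : frob k η (mono v) = mono (ex k η v) := by
  rw [frob_apply, mono_pow, ← mono_add]; rfl

theorem sum_ex (k : ℕ) (η v : Fin d → ℕ) : ∑ i, ex k η v i = ∑ i, η i + 2 ^ k * ∑ i, v i := by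
  unfold ex
  rw [Finset.sum_add_distrib, Finset.mul_sum]

theorem bit_ex_low {k a b l : ℕ} (hl : l < k) : (a + 2 ^ k * b) / 2 ^ l % 2 = a / 2 ^ l % 2 := by
  obtain ⟨j, rfl⟩ : ∃ j, k = l + (j + 1) := ⟨k - l - 1, by omega⟩
  have : 2 ^ (l + (j + 1)) * b = 2 ^ l * (2 * (2 ^ j * b)) := by ring
  rw [this, Nat.add_mul_div_left _ _ (by positivity)]
  omega

theorem bit_ex_high {k a b l : ℕ} (ha : a < 2 ^ k) :
    (a + 2 ^ k * b) / 2 ^ (k + l) % 2 = b / 2 ^ l % 2 := by
  rw [pow_add, ← Nat.div_div_eq_div_mul, Nat.add_mul_div_left _ _ (by positivity),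
    Nat.div_eq_of_lt ha, zero_add]

theorem wt_ex_low {k : ℕ} (η v : Fin d → ℕ) {l : ℕ} (hl : l < k) : wt (ex k η v) l = wt η l := by
  unfold wt ex
  exact Finset.sum_congr rfl fun i _ => bit_ex_low hl

theorem wt_ex_high {k : ℕ} {η : Fin d → ℕ} (hη : ∀ i, η i < 2 ^ k) (v : Fin d → ℕ) (l : ℕ) :
    wt (ex k η v) (k + l) = wt v l := by
  unfold wt ex
  exact Finset.sum_congr rfl fun i _ => bit_ex_high (hη i)

/-- multiplication by `g ^ (2 ^ k)` keeps `LowK` -/
theorem low_mul_pow {k : ℕ} {η : Fin d → ℕ} {R : MvPolynomial (Fin d) (ZMod 2)}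
    (hR : R ∈ msp (LowK k η)) (g : MvPolynomial (Fin d) (ZMod 2)) :
    R * g ^ (2 ^ k) ∈ msp (LowK k η) := by
  have h1 : g ^ (2 ^ k) ∈ msp (fun y : Fin d → ℕ => ∃ v : Fin d → ℕ, y = ex k 0 v) := by
    have := map_msp (frob k (0 : Fin d → ℕ)) (msp (fun y : Fin d → ℕ => ∃ v : Fin d → ℕ,
      y = ex k 0 v)) (Q := fun _ => True)
      (fun y _ => by rw [frob_mono]; exact mono_mem_msp ⟨y, rfl⟩) (mem_msp_top g)
    rwa [frob_apply, ← one_eq_mono, one_mul] at this
  refine msp_mul ?_ hR h1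
  rintro a b ⟨s, hs, h2, h3⟩ ⟨v, rfl⟩
  have h4 : a + ex k 0 v = ex k a v := by
    funext i; simp [ex]
  rw [h4]
  refine ⟨s, hs, fun l hl => ?_, ?_⟩
  · rw [wt_ex_low a v (hl.trans hs)]; exact h2 l hl
  · rw [wt_ex_low a v hs]; exact h3

theorem hc_frob (k : ℕ) (η : Fin d → ℕ) (m : ℕ) (g : MvPolynomial (Fin d) (ZMod 2)) :
    frob k η (homogeneousComponent m g) =
      homogeneousComponent (∑ i, η i + 2 ^ k * m) (frob k η g) := by
  have h : ∀ g : MvPolynomial (Fin d) (ZMod 2),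
      (frob k η ∘ₗ homogeneousComponent m + homogeneousComponent (∑ i, η i + 2 ^ k * m) ∘ₗ
        frob k η) g ∈ (⊥ : Submodule (ZMod 2) (MvPolynomial (Fin d) (ZMod 2))) := by
    intro g
    refine map_msp _ ⊥ (Q := fun _ => True) (fun y _ => ?_) (mem_msp_top g)
    rw [LinearMap.add_apply, LinearMap.comp_apply, LinearMap.comp_apply, frob_mono, hc_mono,
      hc_mono, sum_ex]
    by_cases hm : m = ∑ i, y i
    · rw [if_pos hm, if_pos (by rw [hm]), frob_mono, CharTwo.add_self_eq_zero]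
      exact Submodule.zero_mem _
    · rw [if_neg hm, if_neg, map_zero, add_zero]
      · exact Submodule.zero_mem _
      · intro hh
        apply hm
        have := Nat.add_left_cancel hh
        exact Nat.eq_of_mul_eq_mul_left (by positivity) this
  have h1 := h g
  rw [Submodule.mem_bot, LinearMap.add_apply, LinearMap.comp_apply, LinearMap.comp_apply] at h1
  exact CharTwo.add_eq_zero.mp h1

/-- `mono η * g ^ (2 ^ k)` for a hit polynomial `g` and `η < 2 ^ k` -/
theorem mono_mul_hit {k : ℕ} {η : Fin d → ℕ} (hη : ∀ i, η i < 2 ^ k)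
    {g : MvPolynomial (Fin d) (ZMod 2)} (hg : g ∈ hits d) :
    mono η * g ^ (2 ^ k) ∈ hits d ⊔ msp (LowK k η) := by
  rw [← frob_apply]
  refine map_hits (frob k η) _ (graded_hm _) (fun m => Or.inl ⟨_, hc_frob k η m⟩) ?_ hg
  intro z
  rw [map_add, frob_mono, frob_apply]
  have e1 : Sq d (mono (ex k η z)) = Sq d (mono η) * (Sq d (mono z)) ^ (2 ^ k) := by
    rw [← frob_mono, frob_apply, map_mul, map_pow]
  have e2 : mono η * Sq d (mono z) ^ (2 ^ k) + mono (ex k η z) =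
      (Sq d (mono (ex k η z)) + mono (ex k η z)) +
        (Sq d (mono η) + mono η) * Sq d (mono z) ^ (2 ^ k) := by
    rw [e1, add_mul]
    have : ∀ A B C : MvPolynomial (Fin d) (ZMod 2), B + C = (A + C) + (A + B) := by
      intro A B C
      have h : (A + C) + (A + B) = (A + A) + (B + C) := by ring
      rw [h, CharTwo.add_self_eq_zero, zero_add]
    exact this _ _ _
  rw [e2]
  exact Submodule.add_mem_sup (sq_add_mem' _) (low_mul_pow (sq_low hη) _)

/-! ### the order without the degree -/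

/-- the order on monomials, the degree not compared -/
def NLT (y u : Fin d → ℕ) : Prop := LexLT (wt y) (wt u) ∨ (wt y = wt u ∧ LexF y u)

theorem nlt_of_monLT {y u : Fin d → ℕ} (h : MonLT y u) : NLT y u := h.2

theorem hc_msp_mem {Q : (Fin d → ℕ) → Prop} {f : MvPolynomial (Fin d) (ZMod 2)} (hf : f ∈ msp Q)
    (m : ℕ) : homogeneousComponent m f ∈ msp (fun y => Q y ∧ ∑ i, y i = m) := by
  refine map_msp (homogeneousComponent m) _ (fun y hy => ?_) hf
  rw [hc_mono]
  split_ifs with h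
  · exact mono_mem_msp ⟨hy, h.symm⟩
  · exact Submodule.zero_mem _

theorem adm_nodeg {u : Fin d → ℕ} (h : Adm u) : mono u ∉ hits d ⊔ msp (fun y => NLT y u) := by
  intro hin
  apply h
  rw [Submodule.mem_sup] at hin ⊢
  obtain ⟨g, hg, f, hf, hgf⟩ := hin
  refine ⟨homogeneousComponent (∑ i, u i) g, graded_hits g hg _,
    homogeneousComponent (∑ i, u i) f, msp_mono ?_ (hc_msp_mem hf _), ?_⟩
  · rintro y ⟨h1, h2⟩
    exact ⟨h2, h1⟩
  · rw [← map_add, hgf, hc_mono, if_pos rfl]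

/-- transport of admissibility -/
theorem adm_transport {d' : ℕ} {e : Fin d → ℕ} {e' : Fin d' → ℕ}
    (Φ : MvPolynomial (Fin d) (ZMod 2) →ₗ[ZMod 2] MvPolynomial (Fin d') (ZMod 2))
    (hΦ : ∀ g ∈ hits d, Φ g ∈ hits d' ⊔ msp (fun y => NLT y e'))
    (hfull : Φ (mono e) + mono e' ∈ hits d' ⊔ msp (fun y => NLT y e'))
    (hlow : ∀ y, MonLT y e → Φ (mono y) ∈ hits d' ⊔ msp (fun y => NLT y e'))
    (h : Adm e') : Adm e := by
  intro hin
  apply adm_nodeg h
  rw [Submodule.mem_sup] at hin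
  obtain ⟨g, hg, f, hf, hgf⟩ := hin
  have h3 : mono e' = (Φ g + Φ f) + (Φ (mono e) + mono e') := by
    rw [← hgf, map_add]
    have : ∀ A B : MvPolynomial (Fin d') (ZMod 2), B = A + (A + B) := by
      intro A B
      rw [← add_assoc, CharTwo.add_self_eq_zero, zero_add]
    exact this _ _
  rw [h3]
  exact Submodule.add_mem _ (Submodule.add_mem _ (hΦ g hg)
    (map_msp Φ _ hlow hf)) hfull

theorem nlt_ex {k : ℕ} {η : Fin d → ℕ} (hη : ∀ i, η i < 2 ^ k) {y u : Fin d → ℕ}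
    (h : NLT y u) : NLT (ex k η y) (ex k η u) := by
  rcases h with ⟨s, h1, h2⟩ | ⟨h1, i, h2, h3⟩
  · left
    refine ⟨k + s, fun l hl => ?_, ?_⟩
    · rcases Nat.lt_or_ge l k with hlk | hlk
      · rw [wt_ex_low _ _ hlk, wt_ex_low _ _ hlk]
      · obtain ⟨m, rfl⟩ : ∃ m, l = k + m := ⟨l - k, by omega⟩
        rw [wt_ex_high hη, wt_ex_high hη]
        exact h1 m (by omega)
    · rw [wt_ex_high hη, wt_ex_high hη]; exact h2
  · right
    refine ⟨?_, i, fun j hj => ?_, ?_⟩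
    · funext l
      rcases Nat.lt_or_ge l k with hlk | hlk
      · rw [wt_ex_low _ _ hlk, wt_ex_low _ _ hlk]
      · obtain ⟨m, rfl⟩ : ∃ m, l = k + m := ⟨l - k, by omega⟩
        rw [wt_ex_high hη, wt_ex_high hη, h1]
    · unfold ex; rw [h2 j hj]
    · unfold ex
      have := Nat.mul_lt_mul_of_pos_left h3 (Nat.two_pow_pos k)
      omega

theorem low_nlt {k : ℕ} {η z u : Fin d → ℕ} (h : LowK k η z) : NLT z (ex k η u) := by
  obtain ⟨s, hs, h1, h2⟩ := h
  left
  refine ⟨s, fun l hl => ?_, ?_⟩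
  · rw [wt_ex_low _ _ (hl.trans hs)]; exact h1 l hl
  · rw [wt_ex_low _ _ hs]; exact h2

/-- K1: if `2 ^ k * u + η` is admissible (`η < 2 ^ k`) then so is `u` -/
theorem adm_of_ex {k : ℕ} {η u : Fin d → ℕ} (hη : ∀ i, η i < 2 ^ k) (h : Adm (ex k η u)) :
    Adm u := by
  refine adm_transport (frob k η) (fun g hg => ?_) ?_ (fun y hy => ?_) h
  · rw [frob_apply]
    exact sup_le_sup_left (msp_mono fun z hz => low_nlt hz) _ (mono_mul_hit hη hg)
  · rw [frob_mono, CharTwo.add_self_eq_zero]; exact Submodule.zero_mem _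
  · rw [frob_mono]
    exact Submodule.mem_sup_right (mono_mem_msp (nlt_ex hη hy.2))

end Pool.Agent.HitD5
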