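import Pool.Agent.HitD5.Kam

set_option autoImplicit false

/-! # Iterated halving, leaving out the first variable, sieves on monomials -/

namespace Pool.Agent.HitD5

open Pool.Agent.Helper60.Hit MvPolynomial Pool.Agent.CTL45

variable {d n : ℕ}

/-! ### iterated halving -/

/-- `k`-fold halving -/
noncomputable def psik : ℕ →
    (MvPolynomial (Fin d) (ZMod 2) →ₗ[ZMod 2] MvPolynomial (Fin d) (ZMod 2))
  | 0 => LinearMap.id
  | k + 1 => psik k ∘ₗ psi

theorem psik_hits (k : ℕ) {g : MvPolynomial (Fin d) (ZMod 2)} (hg : g ∈ hits d) :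
    psik k g ∈ hits d := by
  induction k generalizing g with
  | zero => exact hg
  | succ k ih => exact ih (psi_hits hg)

theorem mod_succ_iff (k z : ℕ) :
    z % 2 ^ (k + 1) = 2 ^ (k + 1) - 1 ↔ z % 2 = 1 ∧ z / 2 % 2 ^ k = 2 ^ k - 1 := by
  rw [pow_succ', Nat.mod_mul]
  have h1 : z / 2 % 2 ^ k < 2 ^ k := Nat.mod_lt _ (by positivity)
  have h2 : z % 2 < 2 := Nat.mod_lt _ (by norm_num)
  have h3 := Nat.one_le_two_pow (n := k)
  omega

theorem div_two_pow_succ (k : ℕ) (v : Fin d → ℕ) :
    (fun i => v i / 2 ^ (k + 1)) = fun i => v i / 2 / 2 ^ k := by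
  funext i
  rw [Nat.div_div_eq_div_mul, pow_succ']

theorem psik_mono (k : ℕ) (z : Fin d → ℕ) :
    psik k (mono z) = if ∀ i, z i % 2 ^ k = 2 ^ k - 1 then mono (fun i => z i / 2 ^ k)
      else 0 := by
  induction k generalizing z with
  | zero => simp [psik, Nat.mod_one]
  | succ k ih =>
    show psik k (psi (mono z)) = _
    rw [psi_mono]
    by_cases h : ∀ i, z i % 2 = 1
    · rw [if_pos h, ih]
      by_cases h1 : ∀ i, z i / 2 % 2 ^ k = 2 ^ k - 1
      · rw [if_pos h1, if_pos (fun i => (mod_succ_iff k (z i)).mpr ⟨h i, h1 i⟩),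
          div_two_pow_succ]
      · rw [if_neg h1, if_neg (fun h2 => h1 (fun i => ((mod_succ_iff k (z i)).mp (h2 i)).2))]
    · rw [if_neg h, map_zero, if_neg (fun h2 => h (fun i => ((mod_succ_iff k (z i)).mp (h2 i)).1))]

theorem nlt_halfk (k : ℕ) {y u : Fin d → ℕ} (hy : ∀ i, y i % 2 ^ k = 2 ^ k - 1)
    (hu : ∀ i, u i % 2 ^ k = 2 ^ k - 1) (h : NLT y u) :
    NLT (fun i => y i / 2 ^ k) (fun i => u i / 2 ^ k) := by
  induction k generalizing y u with
  | zero => simpa using h
  | succ k ih =>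
    rw [div_two_pow_succ, div_two_pow_succ]
    exact ih (y := fun i => y i / 2) (u := fun i => u i / 2)
      (fun i => ((mod_succ_iff k (y i)).mp (hy i)).2)
      (fun i => ((mod_succ_iff k (u i)).mp (hu i)).2)
      (nlt_half (fun i => ((mod_succ_iff k (y i)).mp (hy i)).1)
        (fun i => ((mod_succ_iff k (u i)).mp (hu i)).1) h)

/-- K1, iterated -/
theorem adm_halfk (k : ℕ) {u : Fin d → ℕ} (h : Adm u) : Adm (fun i => u i / 2 ^ k) := by
  induction k generalizing u with
  | zero => simpa using h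
  | succ k ih =>
    rw [div_two_pow_succ]
    exact ih (adm_half h)

theorem wt_halfk (k : ℕ) (z : Fin d → ℕ) (s : ℕ) :
    wt (fun i => z i / 2 ^ k) s = wt z (k + s) := by
  unfold wt
  refine Finset.sum_congr rfl fun i _ => ?_
  rw [Nat.div_div_eq_div_mul, pow_add]

/-! ### leaving out the first variable -/

/-- `x_0 ↦ 0`, `x_(i+1) ↦ x_i` -/
noncomputable def del :
    MvPolynomial (Fin (n + 1)) (ZMod 2) →ₐ[ZMod 2] MvPolynomial (Fin n) (ZMod 2) :=
  aeval (Fin.cons (α := fun _ => MvPolynomial (Fin n) (ZMod 2)) 0 (fun j => X j))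

theorem del_mono (y : Fin (n + 1) → ℕ) :
    del (mono y) = if y 0 = 0 then mono (fun j => y j.succ) else 0 := by
  unfold del
  rw [aeval_mono, Fin.prod_univ_succ, Fin.cons_zero]
  simp only [Fin.cons_succ]
  rw [mono_eq_prod (fun j => y j.succ)]
  split_ifs with h
  · rw [h, pow_zero, one_mul]
  · rw [zero_pow h, zero_mul]

theorem del_hits {g : MvPolynomial (Fin (n + 1)) (ZMod 2)} (hg : g ∈ hits (n + 1)) :
    del g ∈ hits n := by
  refine aeval_hits _ (fun i => ?_) hg
  refine Fin.cases ?_ (fun j => ?_) i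
  · rw [Fin.cons_zero]; exact lin_zero
  · rw [Fin.cons_succ]; exact lin_X _

theorem wt_tail {z : Fin (n + 1) → ℕ} (h : z 0 = 0) : wt (fun j => z (Fin.succ j)) = wt z := by
  funext s
  unfold wt
  rw [Fin.sum_univ_succ, h]
  simp

theorem nlt_tail {y u : Fin (n + 1) → ℕ} (hy : y 0 = 0) (hu : u 0 = 0) :
    NLT (fun j => y (Fin.succ j)) (fun j => u (Fin.succ j)) ↔ NLT y u := by
  unfold NLT
  rw [wt_tail hy, wt_tail hu]
  have h : LexF (fun j => y (Fin.succ j)) (fun j => u (Fin.succ j)) ↔ LexF y u := by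
    constructor
    · rintro ⟨i, h1, h2⟩
      refine ⟨i.succ, fun j hj => ?_, h2⟩
      revert hj
      refine Fin.cases ?_ (fun j => ?_) j
      · intro _; rw [hy, hu]
      · intro hj; exact h1 j (Fin.succ_lt_succ_iff.mp hj)
    · rintro ⟨i, h1, h2⟩
      revert h1 h2
      refine Fin.cases ?_ (fun i => ?_) i
      · intro _ h2
        rw [hy, hu] at h2
        exact absurd h2 (lt_irrefl _)
      · intro h1 h2
        exact ⟨i, fun j hj => h1 j.succ (Fin.succ_lt_succ_iff.mpr hj), h2⟩
  rw [h]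

/-- `x_i ↦ x_(i+1)` -/
noncomputable def incl :
    MvPolynomial (Fin n) (ZMod 2) →ₐ[ZMod 2] MvPolynomial (Fin (n + 1)) (ZMod 2) :=
  aeval (fun j => X (Fin.succ j))

theorem incl_mono (y : Fin n → ℕ) :
    incl (mono y) = mono (Fin.cons (α := fun _ => ℕ) 0 y) := by
  unfold incl
  rw [aeval_mono, mono_eq_prod, Fin.prod_univ_succ, Fin.cons_zero, pow_zero, one_mul]
  simp only [Fin.cons_succ]

theorem incl_hits {g : MvPolynomial (Fin n) (ZMod 2)} (hg : g ∈ hits n) :
    incl g ∈ hits (n + 1) :=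
  aeval_hits _ (fun _ => lin_X _) hg

/-- converse of `adm_insert` for the first position -/
theorem adm_tail {e0 : Fin (n + 1) → ℕ} (h0 : e0 0 = 0) (h : Adm e0) :
    Adm (fun j => e0 (Fin.succ j)) := by
  have hc : Fin.cons (α := fun _ => ℕ) 0 (fun j => e0 (Fin.succ j)) = e0 := by
    funext i
    refine Fin.cases ?_ (fun j => ?_) i
    · rw [Fin.cons_zero, h0]
    · rw [Fin.cons_succ]
  refine adm_transport incl.toLinearMap
    (fun g hg => Submodule.mem_sup_left (incl_hits hg)) ?_ (fun y hy => ?_) h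
  · rw [AlgHom.toLinearMap_apply, incl_mono, hc, CharTwo.add_self_eq_zero]
    exact Submodule.zero_mem _
  · rw [AlgHom.toLinearMap_apply, incl_mono]
    refine Submodule.mem_sup_right (mono_mem_msp ?_)
    rw [← nlt_tail (by rw [Fin.cons_zero]) h0]
    simp only [Fin.cons_succ]
    exact nlt_of_monLT hy

/-! ### sieves -/

/-- `x_b ↦ 0` for `b` in `G` -/
noncomputable def kill (G : Finset (Fin d)) :
    MvPolynomial (Fin d) (ZMod 2) →ₐ[ZMod 2] MvPolynomial (Fin d) (ZMod 2) :=
  aeval (fun i => if i ∈ G then 0 else X i)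

theorem kill_hits (G : Finset (Fin d)) {g : MvPolynomial (Fin d) (ZMod 2)} (hg : g ∈ hits d) :
    kill G g ∈ hits d := by
  refine aeval_hits _ (fun i => ?_) hg
  split_ifs
  · exact lin_zero
  · exact lin_X _

theorem kill_mono (G : Finset (Fin d)) (z : Fin d → ℕ) :
    kill G (mono z) = if ∀ b ∈ G, z b = 0 then mono z else 0 := by
  unfold kill
  rw [aeval_mono]
  split_ifs with h
  · rw [mono_eq_prod]
    refine Finset.prod_congr rfl fun i _ => ?_
    split_ifs with h1
    · rw [h i h1, pow_zero, pow_zero]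
    · rfl
  · push Not at h
    obtain ⟨b, hb, hb'⟩ := h
    apply Finset.prod_eq_zero (Finset.mem_univ b)
    rw [if_pos hb, zero_pow hb']

/-- the monomials with nonzero exponents on `B` -/
theorem exists_keep (B : Finset (Fin d)) :
    ∃ K : MvPolynomial (Fin d) (ZMod 2) →ₗ[ZMod 2] MvPolynomial (Fin d) (ZMod 2),
      (∀ g ∈ hits d, K g ∈ hits d) ∧
        ∀ z : Fin d → ℕ, K (mono z) = if ∀ b ∈ B, z b ≠ 0 then mono z else 0 := by
  classical
  induction B using Finset.induction_on with
  | empty => exact ⟨LinearMap.id, fun g hg => hg, fun z => by simp⟩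
  | insert a B ha ih =>
    obtain ⟨K, h1, h2⟩ := ih
    refine ⟨K ∘ₗ (LinearMap.id + (kill {a}).toLinearMap), fun g hg => ?_, fun z => ?_⟩
    · rw [LinearMap.comp_apply, LinearMap.add_apply, LinearMap.id_apply,
        AlgHom.toLinearMap_apply]
      exact h1 _ (Submodule.add_mem _ hg (kill_hits _ hg))
    · rw [LinearMap.comp_apply, LinearMap.add_apply, LinearMap.id_apply,
        AlgHom.toLinearMap_apply, kill_mono]
      by_cases hz : z a = 0
      · rw [if_pos (by simpa using hz), CharTwo.add_self_eq_zero, map_zero, if_neg]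
        intro h
        exact h a (Finset.mem_insert_self _ _) hz
      · rw [if_neg (by simpa using hz), add_zero, h2]
        by_cases hB : ∀ b ∈ B, z b ≠ 0
        · rw [if_pos hB, if_pos]
          intro b hb
          rw [Finset.mem_insert] at hb
          rcases hb with rfl | hb
          · exact hz
          · exact hB b hb
        · rw [if_neg hB, if_neg]
          intro h
          exact hB (fun b hb => h b (Finset.mem_insert_of_mem hb))

end Pool.Agent.HitD5
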