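import Pool.Agent.HitD5.Frob

set_option autoImplicit false

/-! # Kameko down, K2 -/

namespace Pool.Agent.HitD5

open Pool.Agent.Helper60.Hit MvPolynomial Pool.Agent.CTL45

variable {d : ℕ}

/-- Kameko down -/
noncomputable def psi : MvPolynomial (Fin d) (ZMod 2) →ₗ[ZMod 2] MvPolynomial (Fin d) (ZMod 2) :=
  lin (fun z => if ∀ i, z i % 2 = 1 then mono (fun i => z i / 2) else 0)

theorem psi_mono (z : Fin d → ℕ) :
    psi (mono z) = if ∀ i, z i % 2 = 1 then mono (fun i => z i / 2) else 0 :=
  lin_mono _ z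

theorem psi_odd {z : Fin d → ℕ} (h : ∀ i, z i % 2 = 1) :
    psi (mono z) = mono (fun i => z i / 2) := by
  rw [psi_mono, if_pos h]

theorem psi_even {z : Fin d → ℕ} {i : Fin d} (h : z i % 2 ≠ 1) : psi (mono z) = 0 := by
  rw [psi_mono, if_neg (fun h1 => h (h1 i))]

theorem hc_mono' (N : ℕ) (y : Fin d → ℕ) :
    homogeneousComponent N (mono y) = if ∑ i, y i = N then mono y else 0 := by
  rw [hc_mono]
  by_cases h : ∑ i, y i = N
  · rw [if_pos h, if_pos h.symm]
  · rw [if_neg h, if_neg (fun hh => h hh.symm)]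

theorem mono_ind {P : MvPolynomial (Fin d) (ZMod 2) → Prop} (h0 : P 0)
    (h1 : ∀ y, P (mono y)) (h2 : ∀ f g, P f → P g → P (f + g))
    (f : MvPolynomial (Fin d) (ZMod 2)) : P f := by
  have hf : f ∈ msp (fun _ : Fin d → ℕ => True) := mem_msp_iff.mpr (fun _ _ => trivial)
  induction hf using Submodule.span_induction with
  | mem x hx => obtain ⟨y, rfl, -⟩ := hx; exact h1 y
  | zero => exact h0
  | add x y _ _ hx hy => exact h2 x y hx hy
  | smul a x _ hx =>
    have h3 : a = 0 ∨ a = 1 := by revert a; decide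
    rcases h3 with rfl | rfl
    · rw [zero_smul]; exact h0
    · rw [one_smul]; exact hx

/-! ### indicator exponents -/

/-- exponent `1` on `S`, `0` elsewhere -/
def ind (S : Finset (Fin d)) : Fin d → ℕ := fun i => if i ∈ S then 1 else 0

theorem mono_ind_eq (S : Finset (Fin d)) :
    mono (ind S) = ∏ i ∈ S, (X i : MvPolynomial (Fin d) (ZMod 2)) := by
  classical
  rw [mono_eq_prod]
  have h : ∀ i, (X i : MvPolynomial (Fin d) (ZMod 2)) ^ ind S i = if i ∈ S then X i else 1 := by
    intro i
    unfold ind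
    split_ifs
    · rw [pow_one]
    · rw [pow_zero]
  rw [Finset.prod_congr rfl fun i _ => h i, Finset.prod_ite_mem, Finset.univ_inter]

theorem Sq_X (i : Fin d) : Sq d (X i) = X i + X i ^ 2 := (lin_X i).2

theorem Sq_ind (S : Finset (Fin d)) :
    Sq d (mono (ind S)) = ∑ T ∈ S.powerset, mono (ind S + ind T) := by
  classical
  rw [mono_ind_eq, map_prod]
  have h : ∀ i ∈ S, Sq d (X i) = X i * (1 + X i) := by
    intro i _
    rw [Sq_X]; ring
  rw [Finset.prod_congr rfl h, Finset.prod_mul_distrib, Finset.prod_one_add, Finset.mul_sum]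
  refine Finset.sum_congr rfl fun T _ => ?_
  rw [mono_add, mono_ind_eq, mono_ind_eq]

theorem sq_mono (b : Fin d → ℕ) : (mono b) ^ 2 = mono (fun i => 2 * b i) := by
  rw [sq, ← mono_add]
  congr 1
  funext i
  rw [Pi.add_apply]; ring

theorem sum_ind (S : Finset (Fin d)) : ∑ i, ind S i = S.card := by
  classical
  unfold ind
  rw [Finset.sum_boole, Finset.filter_mem_eq_inter, Finset.univ_inter]
  simp

theorem mono_mul_sq_mono (a b : Fin d → ℕ) :
    mono a * (mono b) ^ 2 = mono (fun i => 2 * b i + a i) := by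
  rw [sq_mono, ← mono_add]
  congr 1
  funext i
  rw [Pi.add_apply, add_comm]

theorem psi_mul_sq (a : Fin d → ℕ) (f : MvPolynomial (Fin d) (ZMod 2)) :
    psi (mono a * f ^ 2) = if ∀ i, a i % 2 = 1 then mono (fun i => a i / 2) * f else 0 := by
  refine mono_ind (P := fun f => psi (mono a * f ^ 2) =
    if ∀ i, a i % 2 = 1 then mono (fun i => a i / 2) * f else 0) ?_ ?_ ?_ f
  · simp
  · intro y
    rw [mono_mul_sq_mono, psi_mono]
    have h : (∀ i, (2 * y i + a i) % 2 = 1) ↔ (∀ i, a i % 2 = 1) :=
      forall_congr' fun i => by omega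
    by_cases h1 : ∀ i, a i % 2 = 1
    · rw [if_pos h1, if_pos (h.mpr h1), ← mono_add]
      congr 1
      funext i
      rw [Pi.add_apply]; omega
    · rw [if_neg h1, if_neg (fun h2 => h1 (h.mp h2))]
  · intro f g hf hg
    rw [CharTwo.add_sq, mul_add, map_add, hf, hg]
    split_ifs
    · ring
    · rw [add_zero]

theorem psi_hc (M : ℕ) (f : MvPolynomial (Fin d) (ZMod 2)) :
    psi (homogeneousComponent (2 * M + d) f) = homogeneousComponent M (psi f) := by
  refine mono_ind (P := fun f => psi (homogeneousComponent (2 * M + d) f) =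
    homogeneousComponent M (psi f)) ?_ ?_ ?_ f
  · simp
  · intro y
    rw [hc_mono', psi_mono]
    by_cases h : ∀ i, y i % 2 = 1
    · rw [if_pos h, hc_mono']
      have h1 : ∑ i, y i = 2 * ∑ i, y i / 2 + d := by
        have h2 : ∀ i ∈ (Finset.univ : Finset (Fin d)), y i = 2 * (y i / 2) + 1 := by
          intro i _; have := h i; omega
        rw [Finset.sum_congr rfl h2, Finset.sum_add_distrib, ← Finset.mul_sum]
        simp
      by_cases h3 : ∑ i, y i / 2 = M
      · rw [if_pos h3, if_pos (by omega), psi_odd h]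
      · rw [if_neg h3, if_neg (by omega), map_zero]
    · rw [if_neg h, map_zero]
      split_ifs
      · rw [psi_mono, if_neg h]
      · rw [map_zero]
  · intro f g hf hg
    rw [map_add, map_add, map_add, map_add, hf, hg]

theorem psi_hc_ne {N : ℕ} (hN : ∀ M, N ≠ 2 * M + d) (f : MvPolynomial (Fin d) (ZMod 2)) :
    psi (homogeneousComponent N f) = 0 := by
  refine mono_ind (P := fun f => psi (homogeneousComponent N f) = 0) ?_ ?_ ?_ f
  · simp
  · intro y
    rw [hc_mono']
    split_ifs with h
    · rw [psi_mono, if_neg]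
      intro h1
      apply hN (∑ i, y i / 2)
      rw [← h]
      have h2 : ∀ i ∈ (Finset.univ : Finset (Fin d)), y i = 2 * (y i / 2) + 1 := by
        intro i _; have := h1 i; omega
      rw [Finset.sum_congr rfl h2, Finset.sum_add_distrib, ← Finset.mul_sum]
      simp
    · rw [map_zero]
  · intro f g hf hg
    rw [map_add, map_add, hf, hg, add_zero]

theorem psi_Sq (f : MvPolynomial (Fin d) (ZMod 2)) : psi (Sq d f) = Sq d (psi f) := by
  classical
  refine mono_ind (P := fun f => psi (Sq d f) = Sq d (psi f)) ?_ ?_ ?_ f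
  · simp
  · intro z
    have hz : mono z = mono (ind (Finset.univ.filter (fun i => z i % 2 = 1))) *
        (mono (fun i => z i / 2)) ^ 2 := by
      rw [mono_mul_sq_mono]
      congr 1
      funext i
      simp only [ind, Finset.mem_filter, Finset.mem_univ, true_and]
      split_ifs <;> omega
    rw [hz, map_mul, map_pow, Sq_ind, Finset.sum_mul, map_sum, ← hz, psi_mono]
    by_cases h : ∀ i, z i % 2 = 1
    · rw [if_pos h, Finset.sum_eq_single ∅]
      · rw [psi_mul_sq, if_pos]
        · have h1 : (fun i => (ind (Finset.univ.filter (fun i => z i % 2 = 1)) +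
              ind (∅ : Finset (Fin d))) i / 2) = 0 := by
            funext i
            simp [ind, h i]
          rw [h1, ← one_eq_mono, one_mul]
        · intro i
          simp [ind, h i]
      · intro T _ hT
        obtain ⟨t, ht⟩ := Finset.nonempty_iff_ne_empty.mpr hT
        rw [psi_mul_sq, if_neg]
        intro h1
        have := h1 t
        simp [ind, h t, ht] at this
      · intro h1
        exact absurd (Finset.empty_mem_powerset _) h1
    · rw [if_neg h, map_zero]
      push Not at h
      obtain ⟨i, hi⟩ := h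
      refine Finset.sum_eq_zero fun T hT => ?_
      rw [Finset.mem_powerset] at hT
      have hiT : i ∉ T := fun h1 => hi (Finset.mem_filter.mp (hT h1)).2
      rw [psi_mul_sq, if_neg]
      intro h1
      have := h1 i
      simp [ind, hi, hiT] at this
  · intro f g hf hg
    rw [map_add, map_add, map_add, map_add, hf, hg]

theorem psi_hits {g : MvPolynomial (Fin d) (ZMod 2)} (hg : g ∈ hits d) : psi g ∈ hits d := by
  refine map_hits psi (hits d) graded_hits (fun m => ?_) (fun z => ?_) hg
  · by_cases h : ∃ M, m = 2 * M + d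
    · obtain ⟨M, rfl⟩ := h
      exact Or.inl ⟨M, fun g => psi_hc M g⟩
    · push Not at h
      exact Or.inr (fun g => psi_hc_ne h g)
  · rw [map_add, psi_Sq]
    exact sq_add_mem _

theorem wt_half (z : Fin d → ℕ) (s : ℕ) : wt (fun i => z i / 2) s = wt z (s + 1) := by
  unfold wt
  refine Finset.sum_congr rfl fun i _ => ?_
  rw [pow_succ', ← Nat.div_div_eq_div_mul]

theorem wt_zero_odd {z : Fin d → ℕ} (h : ∀ i, z i % 2 = 1) : wt z 0 = d := by
  unfold wt
  rw [Finset.sum_congr rfl (fun i _ => by rw [pow_zero, Nat.div_one, h i])]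
  simp

theorem nlt_half {y u : Fin d → ℕ} (hy : ∀ i, y i % 2 = 1) (hu : ∀ i, u i % 2 = 1)
    (h : NLT y u) : NLT (fun i => y i / 2) (fun i => u i / 2) := by
  rcases h with ⟨s, h1, h2⟩ | ⟨h1, i, h2, h3⟩
  · left
    obtain ⟨s', rfl⟩ : ∃ s', s = s' + 1 := by
      refine ⟨s - 1, ?_⟩
      rcases Nat.eq_zero_or_pos s with rfl | hs
      · rw [wt_zero_odd hy, wt_zero_odd hu] at h2; exact absurd h2 (lt_irrefl _)
      · omega
    refine ⟨s', fun l hl => ?_, ?_⟩
    · rw [wt_half, wt_half]; exact h1 (l + 1) (by omega)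
    · rw [wt_half, wt_half]; exact h2
  · right
    refine ⟨?_, i, fun j hj => ?_, ?_⟩
    · funext s; rw [wt_half, wt_half, h1]
    · show y j / 2 = u j / 2
      rw [h2 j hj]
    · show y i / 2 < u i / 2
      have := hy i
      have := hu i
      omega

theorem psi_msp {u : Fin d → ℕ} (hu : ∀ i, u i % 2 = 1) {f : MvPolynomial (Fin d) (ZMod 2)}
    (hf : f ∈ msp (fun y => NLT y u)) : psi f ∈ msp (fun y => NLT y (fun i => u i / 2)) := by
  refine map_msp psi _ (fun y hy => ?_) hf
  rw [psi_mono]
  split_ifs with h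
  · exact mono_mem_msp (nlt_half h hu hy)
  · exact Submodule.zero_mem _

/-- K1, form with halves (from `adm_of_ex`) -/
theorem adm_half {u : Fin d → ℕ} (h : Adm u) : Adm (fun i => u i / 2) := by
  have h1 : ex 1 (fun i => u i % 2) (fun i => u i / 2) = u := by
    funext i
    show u i % 2 + 2 ^ 1 * (u i / 2) = u i
    omega
  refine adm_of_ex (k := 1) (η := fun i => u i % 2) (fun i => ?_) (h1.symm ▸ h)
  show u i % 2 < 2 ^ 1
  omega

/-- K2 -/
theorem adm_full {u : Fin d → ℕ} (h : Adm u) : Adm (fun i => 2 * u i + 1) := by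
  have hodd : ∀ i, (fun i => 2 * u i + 1) i % 2 = 1 := fun i => by
    show (2 * u i + 1) % 2 = 1
    omega
  have hhalf : (fun i => (fun i => 2 * u i + 1) i / 2) = u := by
    funext i
    show (2 * u i + 1) / 2 = u i
    omega
  refine adm_transport psi (fun g hg => Submodule.mem_sup_left (psi_hits hg)) ?_ ?_ h
  · rw [psi_odd hodd, hhalf, CharTwo.add_self_eq_zero]; exact Submodule.zero_mem _
  · intro y hy
    have h1 := psi_msp hodd (mono_mem_msp (nlt_of_monLT hy))
    rw [hhalf] at h1
    exact Submodule.mem_sup_right h1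

end Pool.Agent.HitD5
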