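import Pool.Agent.HitD5.Frob

set_option autoImplicit false

/-!
# The operator C, part 1: `G_j` and `Rop` preserve the hit polynomials up to small weight
-/

namespace Pool.Agent.HitD5

open Pool.Agent.Helper60.Hit MvPolynomial Pool.Agent.CTL45

/-- `x_1 ↦ v`, the other variables fixed -/
noncomputable def sub1 (v : MvPolynomial (Fin 4) (ZMod 2)) :
    MvPolynomial (Fin 4) (ZMod 2) →ₐ[ZMod 2] MvPolynomial (Fin 4) (ZMod 2) :=
  aeval (fun i => if i = 1 then v else X i)

/-- `G_j`: monomials without `x_1` and with odd exponents elsewhere go to `x_1 f / x_j` -/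
noncomputable def Gj (j : Fin 4) :
    MvPolynomial (Fin 4) (ZMod 2) →ₗ[ZMod 2] MvPolynomial (Fin 4) (ZMod 2) :=
  lin (fun z => if z 1 = 0 ∧ ∀ i, i ≠ 1 → z i % 2 = 1 then
    mono (Function.update (Function.update z j (z j - 1)) 1 1) else 0)

/-- `Z` -/
noncomputable def Zop : MvPolynomial (Fin 4) (ZMod 2) →ₗ[ZMod 2] MvPolynomial (Fin 4) (ZMod 2) :=
  Gj 0 ∘ₗ (sub1 (X 0)).toLinearMap + Gj 2 ∘ₗ (sub1 (X 2)).toLinearMap +
    Gj 3 ∘ₗ (sub1 (X 3)).toLinearMap

/-- `1 - Omega` -/
noncomputable def Rop : MvPolynomial (Fin 4) (ZMod 2) →ₗ[ZMod 2] MvPolynomial (Fin 4) (ZMod 2) :=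
  (sub1 0).toLinearMap + Zop ∘ₗ (LinearMap.id + (sub1 0).toLinearMap)

/-! part 1 -/

theorem Gj_mono (j : Fin 4) (z : Fin 4 → ℕ) :
    Gj j (mono z) = if z 1 = 0 ∧ ∀ i, i ≠ 1 → z i % 2 = 1 then
      mono (Function.update (Function.update z j (z j - 1)) 1 1) else 0 :=
  lin_mono _ z

theorem sum_upd {j : Fin 4} (hj : j ≠ 1) {z : Fin 4 → ℕ} (h1 : z 1 = 0) (h2 : z j % 2 = 1) :
    ∑ i, (Function.update (Function.update z j (z j - 1)) 1 1) i = ∑ i, z i := by
  have key : ∀ i : Fin 4, i = 0 ∨ i = 1 ∨ i = 2 ∨ i = 3 := by decide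
  rcases key j with rfl | rfl | rfl | rfl
  · simp [Fin.sum_univ_four, Function.update_apply, h1]
    omega
  · exact absurd rfl hj
  · simp [Fin.sum_univ_four, Function.update_apply, h1]
    omega
  · simp [Fin.sum_univ_four, Function.update_apply, h1]
    omega

theorem wt_three {z : Fin 4 → ℕ} (h : z 1 = 0 ∧ ∀ i, i ≠ 1 → z i % 2 = 1) : wt z 0 = 3 := by
  have h0 := h.2 0 (by decide)
  have h2 := h.2 2 (by decide)
  have h3 := h.2 3 (by decide)
  have h1 := h.1
  unfold wt
  rw [Fin.sum_univ_four, pow_zero, Nat.div_one, Nat.div_one, Nat.div_one, Nat.div_one]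
  omega

theorem hc_Gj {j : Fin 4} (hj : j ≠ 1) (m : ℕ) (g : MvPolynomial (Fin 4) (ZMod 2)) :
    Gj j (homogeneousComponent m g) = homogeneousComponent m (Gj j g) := by
  have h : ∀ g : MvPolynomial (Fin 4) (ZMod 2),
      (Gj j ∘ₗ homogeneousComponent m + homogeneousComponent m ∘ₗ Gj j) g ∈
        (⊥ : Submodule (ZMod 2) (MvPolynomial (Fin 4) (ZMod 2))) := by
    intro g
    refine map_msp _ ⊥ (Q := fun _ => True) (fun y _ => ?_) (mem_msp_top g)
    rw [LinearMap.add_apply, LinearMap.comp_apply, LinearMap.comp_apply, hc_mono, Gj_mono]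
    by_cases hc : y 1 = 0 ∧ ∀ i, i ≠ 1 → y i % 2 = 1
    · rw [if_pos hc, hc_mono, sum_upd hj hc.1 (hc.2 j hj)]
      by_cases hm : m = ∑ i, y i
      · rw [if_pos hm, if_pos hm, Gj_mono, if_pos hc, CharTwo.add_self_eq_zero]
        exact Submodule.zero_mem _
      · rw [if_neg hm, if_neg hm, map_zero, add_zero]
        exact Submodule.zero_mem _
    · rw [if_neg hc, map_zero, add_zero]
      by_cases hm : m = ∑ i, y i
      · rw [if_pos hm, Gj_mono, if_neg hc]
        exact Submodule.zero_mem _
      · rw [if_neg hm, map_zero]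
        exact Submodule.zero_mem _
  have h1 := h g
  rw [Submodule.mem_bot, LinearMap.add_apply, LinearMap.comp_apply, LinearMap.comp_apply] at h1
  exact CharTwo.add_eq_zero.mp h1

theorem Gj_eq_zero {j : Fin 4} {z : Fin 4 → ℕ} (h : wt z 0 ≠ 3) : Gj j (mono z) = 0 := by
  rw [Gj_mono, if_neg (fun hc => h (wt_three hc))]

theorem sub1_zero_mono (y : Fin 4 → ℕ) : sub1 0 (mono y) = if y 1 = 0 then mono y else 0 := by
  unfold sub1
  rw [aeval_mono]
  by_cases h : y 1 = 0
  · rw [if_pos h, mono_eq_prod]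
    refine Finset.prod_congr rfl fun i _ => ?_
    by_cases hi : i = 1
    · subst hi
      rw [h, pow_zero, pow_zero]
    · rw [if_neg hi]
  · rw [if_neg h]
    refine Finset.prod_eq_zero (Finset.mem_univ 1) ?_
    rw [if_pos rfl, zero_pow h]

theorem sub1_hits {v : MvPolynomial (Fin 4) (ZMod 2)} (hv : Lin 4 v)
    {g : MvPolynomial (Fin 4) (ZMod 2)} (hg : g ∈ hits 4) : sub1 v g ∈ hits 4 := by
  refine aeval_hits _ (fun i => ?_) hg
  split_ifs
  · exact hv
  · exact lin_X i

/-- the exponent vector `η'` without `x_j` and with `x_1` -/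
def et (j : Fin 4) (η : Fin 4 → ℕ) : Fin 4 → ℕ :=
  Function.update (Function.update η j 0) 1 1

theorem Gj_frob {j : Fin 4} (hj : j ≠ 1) {η : Fin 4 → ℕ} (h1 : η 1 = 0)
    (h2 : ∀ i, i ≠ 1 → η i = 1) (g : MvPolynomial (Fin 4) (ZMod 2)) :
    Gj j (frob 1 η g) = frob 1 (et j η) (sub1 0 g) := by
  have h : ∀ g : MvPolynomial (Fin 4) (ZMod 2),
      (Gj j ∘ₗ frob 1 η + frob 1 (et j η) ∘ₗ (sub1 0).toLinearMap) g ∈
        (⊥ : Submodule (ZMod 2) (MvPolynomial (Fin 4) (ZMod 2))) := by
    intro g
    refine map_msp _ ⊥ (Q := fun _ => True) (fun y _ => ?_) (mem_msp_top g)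
    rw [LinearMap.add_apply, LinearMap.comp_apply, LinearMap.comp_apply, frob_mono,
      AlgHom.toLinearMap_apply, sub1_zero_mono, Gj_mono]
    by_cases hy : y 1 = 0
    · have hc : ex 1 η y 1 = 0 ∧ ∀ i, i ≠ 1 → ex 1 η y i % 2 = 1 := by
        refine ⟨by unfold ex; rw [h1, hy]; rfl, fun i hi => ?_⟩
        unfold ex
        rw [h2 i hi]
        omega
      rw [if_pos hc, if_pos hy, frob_mono]
      have e : Function.update (Function.update (ex 1 η y) j (ex 1 η y j - 1)) 1 1 =
          ex 1 (et j η) y := by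
        funext i
        unfold ex et
        by_cases hi : i = 1
        · subst hi
          rw [Function.update_self, Function.update_self, hy]
          rfl
        · rw [Function.update_of_ne hi, Function.update_of_ne hi]
          by_cases hij : i = j
          · subst hij
            rw [Function.update_self, Function.update_self, h2 i hi]
            omega
          · rw [Function.update_of_ne hij, Function.update_of_ne hij]
      rw [e, CharTwo.add_self_eq_zero]
      exact Submodule.zero_mem _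
    · rw [if_neg hy, map_zero, add_zero, if_neg]
      · exact Submodule.zero_mem _
      · rintro ⟨hc, -⟩
        unfold ex at hc
        omega
  have h3 := h g
  rw [Submodule.mem_bot, LinearMap.add_apply, LinearMap.comp_apply, LinearMap.comp_apply,
    AlgHom.toLinearMap_apply] at h3
  exact CharTwo.add_eq_zero.mp h3

theorem Gj_frob_zero {j : Fin 4} {η : Fin 4 → ℕ} {i : Fin 4} (hi : i ≠ 1) (h : η i = 0)
    (g : MvPolynomial (Fin 4) (ZMod 2)) : Gj j (frob 1 η g) = 0 := by
  have h1 : (Gj j ∘ₗ frob 1 η) g ∈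
      (⊥ : Submodule (ZMod 2) (MvPolynomial (Fin 4) (ZMod 2))) := by
    refine map_msp _ ⊥ (Q := fun _ => True) (fun y _ => ?_) (mem_msp_top g)
    rw [LinearMap.comp_apply, frob_mono, Gj_mono, if_neg]
    · exact Submodule.zero_mem _
    · rintro ⟨-, hc⟩
      have := hc i hi
      unfold ex at this
      rw [h] at this
      omega
  rwa [Submodule.mem_bot, LinearMap.comp_apply] at h1

theorem sq_split (k : ℕ) (η v : Fin 4 → ℕ) :
    Sq 4 (mono (ex k η v)) + mono (ex k η v) =
      (Sq 4 (mono η) + mono η) * (Sq 4 (mono v)) ^ (2 ^ k) +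
        frob k η (Sq 4 (mono v) + mono v) := by
  rw [map_add, frob_mono, frob_apply]
  have e1 : Sq 4 (mono (ex k η v)) = Sq 4 (mono η) * (Sq 4 (mono v)) ^ (2 ^ k) := by
    rw [← frob_mono, frob_apply, map_mul, map_pow]
  rw [e1, add_mul]
  have : ∀ A B C : MvPolynomial (Fin 4) (ZMod 2), A + C = A + B + (B + C) := by
    intro A B C
    have h : A + B + (B + C) = A + C + (B + B) := by ring
    rw [h, CharTwo.add_self_eq_zero, add_zero]
  exact this _ _ _

theorem Gj_hits {j : Fin 4} (hj : j ≠ 1) {g : MvPolynomial (Fin 4) (ZMod 2)} (hg : g ∈ hits 4) :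
    Gj j g ∈ hits 4 ⊔ msp (fun z => wt z 0 < 3) := by
  refine map_hits (Gj j) _ (graded_hm _) (fun m => Or.inl ⟨m, hc_Gj hj m⟩) ?_ hg
  intro z
  by_cases hz : z 1 = 0
  · obtain ⟨η, hη⟩ : ∃ η : Fin 4 → ℕ, η = fun i => z i % 2 := ⟨_, rfl⟩
    obtain ⟨v, hv⟩ : ∃ v : Fin 4 → ℕ, v = fun i => z i / 2 := ⟨_, rfl⟩
    have hz2 : z = ex 1 η v := by
      funext i
      unfold ex
      rw [hη, hv]
      simp only [pow_one]
      omega
    have hη2 : ∀ i, η i < 2 ^ 1 := by
      intro i
      rw [hη]
      simp only [pow_one]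
      omega
    have hη1 : η 1 = 0 := by
      rw [hη]
      simp only [hz]
    rw [hz2, sq_split, map_add]
    refine Submodule.add_mem _ ?_ ?_
    · have h1 := low_mul_pow (sq_low hη2) (Sq 4 (mono v))
      have h2 : Gj j ((Sq 4 (mono η) + mono η) * Sq 4 (mono v) ^ 2 ^ 1) ∈
          (⊥ : Submodule (ZMod 2) (MvPolynomial (Fin 4) (ZMod 2))) := by
        refine map_msp (Gj j) ⊥ (fun y hy => ?_) h1
        obtain ⟨s, hs, -, h3⟩ := hy
        have hs0 : s = 0 := by omega
        rw [hs0] at h3
        have h4 : wt η 0 ≤ 3 := by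
          unfold wt
          rw [Fin.sum_univ_four, pow_zero, Nat.div_one, Nat.div_one, Nat.div_one, Nat.div_one]
          omega
        rw [Gj_eq_zero (by omega)]
        exact Submodule.zero_mem _
      rw [Submodule.mem_bot] at h2
      rw [h2]
      exact Submodule.zero_mem _
    · by_cases hall : ∀ i, i ≠ 1 → η i = 1
      · rw [Gj_frob hj hη1 hall, frob_apply]
        have h5 : ∀ i, et j η i < 2 ^ 1 := by
          intro i
          unfold et
          by_cases hi : i = 1
          · subst hi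
            rw [Function.update_self]
            norm_num
          · rw [Function.update_of_ne hi]
            by_cases hij : i = j
            · subst hij
              rw [Function.update_self]
              norm_num
            · rw [Function.update_of_ne hij]
              exact hη2 i
        have h6 := mono_mul_hit h5 (sub1_hits lin_zero (sq_add_mem' v))
        refine sup_le_sup_left (msp_mono fun y hy => ?_) _ h6
        obtain ⟨s, hs, -, h3⟩ := hy
        have hs0 : s = 0 := by omega
        rw [hs0] at h3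
        have h7 : wt (et j η) 0 ≤ 3 := by
          have h8 : et j η j = 0 := by
            unfold et
            rw [Function.update_of_ne hj, Function.update_self]
          have h9 : ∀ i, et j η i ≤ 1 := fun i => by
            have := h5 i
            omega
          have h10 : wt (et j η) 0 ≤ ∑ i ∈ Finset.univ.erase j, 1 := by
            unfold wt
            rw [← Finset.sum_erase (a := j) _ (by rw [h8]; norm_num)]
            refine Finset.sum_le_sum fun i _ => ?_
            omega
          refine h10.trans ?_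
          rw [Finset.sum_const, Finset.card_erase_of_mem (Finset.mem_univ j)]
          simp
        exact lt_of_lt_of_le h3 h7
      · push Not at hall
        obtain ⟨i, hi, hi2⟩ := hall
        rw [Gj_frob_zero hi (by have := hη2 i; omega)]
        exact Submodule.zero_mem _
  · have h2 : Gj j (Sq 4 (mono z) + mono z) ∈
        (⊥ : Submodule (ZMod 2) (MvPolynomial (Fin 4) (ZMod 2))) := by
      refine map_msp (Gj j) ⊥ (fun y hy => ?_) (sq_add_mono_mem z)
      obtain ⟨c, rfl, -, -⟩ := hy
      rw [Gj_mono, if_neg]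
      · exact Submodule.zero_mem _
      · rintro ⟨h3, -⟩
        rw [Pi.add_apply] at h3
        omega
    rw [Submodule.mem_bot] at h2
    rw [h2]
    exact Submodule.zero_mem _

theorem Zop_hits {g : MvPolynomial (Fin 4) (ZMod 2)} (hg : g ∈ hits 4) :
    Zop g ∈ hits 4 ⊔ msp (fun z => wt z 0 < 3) := by
  unfold Zop
  rw [LinearMap.add_apply, LinearMap.add_apply, LinearMap.comp_apply, LinearMap.comp_apply,
    LinearMap.comp_apply, AlgHom.toLinearMap_apply, AlgHom.toLinearMap_apply,
    AlgHom.toLinearMap_apply]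
  exact Submodule.add_mem _ (Submodule.add_mem _ (Gj_hits (by decide) (sub1_hits (lin_X 0) hg))
    (Gj_hits (by decide) (sub1_hits (lin_X 2) hg))) (Gj_hits (by decide) (sub1_hits (lin_X 3) hg))

theorem Rop_hits {g : MvPolynomial (Fin 4) (ZMod 2)} (hg : g ∈ hits 4) :
    Rop g ∈ hits 4 ⊔ msp (fun z => wt z 0 < 3) := by
  unfold Rop
  rw [LinearMap.add_apply, LinearMap.comp_apply, LinearMap.add_apply, LinearMap.id_apply,
    AlgHom.toLinearMap_apply]
  have h := sub1_hits lin_zero hg
  exact Submodule.add_mem _ (Submodule.mem_sup_left h) (Zop_hits (Submodule.add_mem _ hg h))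

end Pool.Agent.HitD5
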