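import Pool.Agent.HitD5.Omega1

set_option autoImplicit false

/-!
# The operator C, part 2: `Rop` on monomials

`Rop_le`, `Rop_small`, `Rop_three`; also `sq1_mem`, the formula for `Sq ^ 1` of a monomial.
-/

namespace Pool.Agent.HitD5

open Pool.Agent.Helper60.Hit MvPolynomial Pool.Agent.CTL45

/-! ### `Sq ^ 1` -/

section sq1

variable {d : ℕ}

/-- polynomials without terms of degree below `k` -/
noncomputable def OrdGe (d k : ℕ) : Submodule (ZMod 2) (MvPolynomial (Fin d) (ZMod 2)) :=
  msp (fun y => k ≤ ∑ i, y i)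

theorem ord_mul {a b : ℕ} {f g : MvPolynomial (Fin d) (ZMod 2)} (hf : f ∈ OrdGe d a)
    (hg : g ∈ OrdGe d b) : f * g ∈ OrdGe d (a + b) := by
  refine msp_mul ?_ hf hg
  intro x y hx hy
  simp only [Pi.add_apply]
  rw [Finset.sum_add_distrib]
  omega

theorem ord_le {a b : ℕ} (h : a ≤ b) {f : MvPolynomial (Fin d) (ZMod 2)}
    (hf : f ∈ OrdGe d b) : f ∈ OrdGe d a :=
  msp_mono (fun _ hy => h.trans hy) hf

theorem ord_zero (f : MvPolynomial (Fin d) (ZMod 2)) : f ∈ OrdGe d 0 :=
  msp_mono (fun _ _ => Nat.zero_le _) (mem_msp_top f)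

theorem ord_X_pow (i : Fin d) (k : ℕ) : (X i : MvPolynomial (Fin d) (ZMod 2)) ^ k ∈ OrdGe d k := by
  rw [X_pow_eq_mono]
  refine mono_mem_msp ?_
  rw [Finset.sum_pi_single']
  simp

theorem one_add_pow_form {R : Type*} [CommRing R] (x : R) (k : ℕ) :
    ∃ q : R, (1 + x) ^ k = 1 + (k : R) * x + x ^ 2 * q := by
  induction k with
  | zero => exact ⟨0, by simp⟩
  | succ k ih =>
    obtain ⟨q, hq⟩ := ih
    refine ⟨(k : R) + q + x * q, ?_⟩
    rw [pow_succ, hq]
    push_cast
    ring

theorem sq1_aux (e : Fin d → ℕ) (s : Finset (Fin d)) :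
    ∃ r ∈ OrdGe d (∑ i ∈ s, e i + 2),
      ∏ i ∈ s, (X i + X i ^ 2 : MvPolynomial (Fin d) (ZMod 2)) ^ e i =
        (∏ i ∈ s, (X i : MvPolynomial (Fin d) (ZMod 2)) ^ e i) *
          (1 + ∑ i ∈ s, ((e i : ℕ) : MvPolynomial (Fin d) (ZMod 2)) * X i) + r := by
  classical
  induction s using Finset.induction_on with
  | empty =>
    exact ⟨0, Submodule.zero_mem _, by simp⟩
  | insert a s ha ih =>
    obtain ⟨r, hr, h⟩ := ih
    obtain ⟨q, hq⟩ := one_add_pow_form (X a : MvPolynomial (Fin d) (ZMod 2)) (e a)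
    have hb : (X a + X a ^ 2 : MvPolynomial (Fin d) (ZMod 2)) ^ e a =
        X a ^ e a * (1 + ((e a : ℕ) : MvPolynomial (Fin d) (ZMod 2)) * X a) +
          X a ^ (e a + 2) * q := by
      have : (X a + X a ^ 2 : MvPolynomial (Fin d) (ZMod 2)) = X a * (1 + X a) := by ring
      rw [this, mul_pow, hq]
      ring
    have hP : ∏ i ∈ s, (X i : MvPolynomial (Fin d) (ZMod 2)) ^ e i ∈ OrdGe d (∑ i ∈ s, e i) := by
      have : ∀ s' : Finset (Fin d), ∏ i ∈ s', (X i : MvPolynomial (Fin d) (ZMod 2)) ^ e i ∈
          OrdGe d (∑ i ∈ s', e i) := by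
        intro s'
        induction s' using Finset.induction_on with
        | empty => rw [Finset.sum_empty]; exact ord_zero _
        | insert b s' hb' ih' =>
          rw [Finset.prod_insert hb', Finset.sum_insert hb']
          exact ord_mul (ord_X_pow b (e b)) ih'
      exact this s
    have hσ : ∑ i ∈ s, ((e i : ℕ) : MvPolynomial (Fin d) (ZMod 2)) * X i ∈ OrdGe d 1 := by
      refine Submodule.sum_mem _ fun i _ => ?_
      have := ord_mul (ord_zero ((e i : ℕ) : MvPolynomial (Fin d) (ZMod 2))) (ord_X_pow i 1)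
      rwa [pow_one, zero_add] at this
    have hτ : ((e a : ℕ) : MvPolynomial (Fin d) (ZMod 2)) * X a ∈ OrdGe d 1 := by
      have := ord_mul (ord_zero ((e a : ℕ) : MvPolynomial (Fin d) (ZMod 2))) (ord_X_pow a 1)
      rwa [pow_one, zero_add] at this
    rw [Finset.prod_insert ha, Finset.prod_insert ha, Finset.sum_insert ha, Finset.sum_insert ha,
      h, hb]
    generalize ∏ i ∈ s, (X i : MvPolynomial (Fin d) (ZMod 2)) ^ e i = P at hP
    generalize ∑ i ∈ s, ((e i : ℕ) : MvPolynomial (Fin d) (ZMod 2)) * X i = σ at hσ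
    generalize ((e a : ℕ) : MvPolynomial (Fin d) (ZMod 2)) * X a = τ at hτ
    refine ⟨(X a ^ e a * P) * (τ * σ) + (X a ^ (e a + 2) * P) * (q * (1 + σ)) +
      (X a ^ e a * r) * (1 + τ) + (X a ^ (e a + 2) * r) * q, ?_, by ring⟩
    have hXa := ord_X_pow (d := d) a (e a)
    have hXa2 := ord_X_pow (d := d) a (e a + 2)
    refine Submodule.add_mem _ (Submodule.add_mem _ (Submodule.add_mem _ ?_ ?_) ?_) ?_
    · exact ord_le (by omega) (ord_mul (ord_mul hXa hP) (ord_mul hτ hσ))
    · exact ord_le (by omega) (ord_mul (ord_mul hXa2 hP) (ord_zero _))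
    · exact ord_le (by omega) (ord_mul (ord_mul hXa hr) (ord_zero _))
    · exact ord_le (by omega) (ord_mul (ord_mul hXa2 hr) (ord_zero _))

/-- `Sq ^ 1` of a monomial is hit -/
theorem sq1_mem (e : Fin d → ℕ) :
    ∑ i, ((e i : ℕ) : MvPolynomial (Fin d) (ZMod 2)) * mono (e + Pi.single i 1) ∈ hits d := by
  obtain ⟨r, hr, h⟩ := sq1_aux e Finset.univ
  have h1 : Sq d (mono e) = mono e +
      ∑ i, ((e i : ℕ) : MvPolynomial (Fin d) (ZMod 2)) * mono (e + Pi.single i 1) + r := by
    unfold Sq
    rw [aeval_mono, h, ← mono_eq_prod, mul_add, mul_one, Finset.mul_sum]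
    congr 2
    refine Finset.sum_congr rfl fun i _ => ?_
    rw [mono_add, ← X_pow_eq_mono, pow_one]
    ring
  have h2 : homogeneousComponent (∑ i, e i + 1) (Sq d (mono e)) =
      ∑ i, ((e i : ℕ) : MvPolynomial (Fin d) (ZMod 2)) * mono (e + Pi.single i 1) := by
    rw [h1, map_add, map_add, hc_mono, if_neg (by omega), zero_add, map_sum]
    rw [hc_msp_zero hr (fun y hy => by omega), add_zero]
    refine Finset.sum_congr rfl fun i _ => ?_
    have h3 : ∑ j, (e + Pi.single i 1 : Fin d → ℕ) j = ∑ j, e j + 1 := by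
      simp only [Pi.add_apply]
      rw [Finset.sum_add_distrib, Finset.sum_pi_single']
      simp
    rcases Nat.mod_two_eq_zero_or_one (e i) with h0 | h1
    · have : ((e i : ℕ) : MvPolynomial (Fin d) (ZMod 2)) = 0 := by
        rw [CharP.cast_eq_zero_iff (MvPolynomial (Fin d) (ZMod 2)) 2]; omega
      rw [this, zero_mul, map_zero]
    · rw [odd_natCast _ h1, one_mul, hc_mono, h3, if_pos rfl]
  rw [← h2]
  exact Submodule.subset_span ⟨e, 1, one_pos, rfl⟩

/-- `Sq ^ 1` of a monomial with odd exponents is hit -/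
theorem sq1_odd_mem {e : Fin d → ℕ} (he : ∀ i, e i % 2 = 1) :
    ∑ i, mono (e + Pi.single i 1) ∈ hits d := by
  have := sq1_mem e
  have h2 : ∑ i, ((e i : ℕ) : MvPolynomial (Fin d) (ZMod 2)) * mono (e + Pi.single i 1) =
      ∑ i, mono (e + Pi.single i 1) := by
    refine Finset.sum_congr rfl fun i _ => ?_
    rw [odd_natCast _ (he i), one_mul]
  rwa [h2] at this

end sq1

/-! ### the bits of one exponent -/

/-- the binary digits -/
def bt (a : ℕ) : ℕ → ℕ := fun s => a / 2 ^ s % 2

theorem wt4 (z : Fin 4 → ℕ) : wt z = bt (z 0) + bt (z 1) + bt (z 2) + bt (z 3) := by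
  funext s
  unfold wt
  rw [Fin.sum_univ_four]
  rfl

theorem bt_add_le (a b : ℕ) : LexLE (bt (a + b)) (bt a + bt b) := by
  have h := wt_add_le (fun _ : Fin 1 => a) (fun _ : Fin 1 => b)
  have e : ∀ c : ℕ, wt (fun _ : Fin 1 => c) = bt c := by
    intro c
    funext s
    unfold wt bt
    simp
  have e2 : (fun _ : Fin 1 => a) + (fun _ : Fin 1 => b) = (fun _ : Fin 1 => a + b) := rfl
  rw [e2, e, e, e] at h
  exact h

theorem bt_odd {a : ℕ} (h : a % 2 = 1) : bt a = bt 1 + bt (a - 1) := by
  funext s
  rw [Pi.add_apply]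
  unfold bt
  rcases s with _ | s
  · simp only [pow_zero, Nat.div_one]; omega
  · have h1 : 1 / 2 ^ (s + 1) = 0 := Nat.div_eq_of_lt (Nat.one_lt_two_pow (by omega))
    have h2 : a / 2 ^ (s + 1) = (a - 1) / 2 ^ (s + 1) := by
      rw [pow_succ', ← Nat.div_div_eq_div_mul, ← Nat.div_div_eq_div_mul]
      congr 1
      omega
    rw [h1, h2]
    omega

theorem bt_merge {a s : ℕ} (hs : 1 ≤ s) (h : s % 2 = 1 ∨ a % 2 = 1) :
    LexLE (bt 1 + bt (a + s - 1)) (bt s + bt a) := by
  rcases h with h | h
  · have h1 := LexLE.add_right (bt_add_le a (s - 1)) (bt 1)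
    have e1 : bt (a + (s - 1)) + bt 1 = bt 1 + bt (a + s - 1) := by
      rw [add_comm, show a + (s - 1) = a + s - 1 by omega]
    have e2 : bt a + bt (s - 1) + bt 1 = bt s + bt a := by
      rw [bt_odd h]; abel
    rw [e1, e2] at h1
    exact h1
  · have h1 := LexLE.add_right (bt_add_le (a - 1) s) (bt 1)
    have e1 : bt (a - 1 + s) + bt 1 = bt 1 + bt (a + s - 1) := by
      rw [add_comm, show a - 1 + s = a + s - 1 by omega]
    have e2 : bt (a - 1) + bt s + bt 1 = bt s + bt a := by
      rw [bt_odd h]; abel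
    rw [e1, e2] at h1
    exact h1

/-! ### the operators on monomials -/

theorem sub1_mono (v : MvPolynomial (Fin 4) (ZMod 2)) (z : Fin 4 → ℕ) :
    sub1 v (mono z) = X 0 ^ z 0 * v ^ z 1 * X 2 ^ z 2 * X 3 ^ z 3 := by
  unfold sub1
  rw [aeval_mono, Fin.prod_univ_four]
  simp

theorem mono4 (z : Fin 4 → ℕ) :
    mono z = (X 0 ^ z 0 * X 1 ^ z 1 * X 2 ^ z 2 * X 3 ^ z 3 : MvPolynomial (Fin 4) (ZMod 2)) := by
  rw [mono_eq_prod, Fin.prod_univ_four]

theorem ne_one_cases {j : Fin 4} (hj : j ≠ 1) : j = 0 ∨ j = 2 ∨ j = 3 := by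
  revert hj; revert j; decide

/-- the exponent vector of the `j`-term of `Z` -/
def zz (j : Fin 4) (z : Fin 4 → ℕ) : Fin 4 → ℕ :=
  Function.update (Function.update z j (z j + z 1 - 1)) 1 1

theorem zz_one (j : Fin 4) (z : Fin 4 → ℕ) : zz j z 1 = 1 := by
  unfold zz
  rw [Function.update_self]

theorem zz_self {j : Fin 4} (hj : j ≠ 1) (z : Fin 4 → ℕ) : zz j z j = z j + z 1 - 1 := by
  unfold zz
  rw [Function.update_of_ne hj, Function.update_self]

theorem zz_other {j i : Fin 4} (hi : i ≠ 1) (hij : i ≠ j) (z : Fin 4 → ℕ) : zz j z i = z i := by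
  unfold zz
  rw [Function.update_of_ne hi, Function.update_of_ne hij]

theorem Gterm {j : Fin 4} (hj : j ≠ 1) (z : Fin 4 → ℕ) :
    Gj j (sub1 (X j) (mono z)) =
      if (∀ i, i ≠ 1 → (if i = j then z j + z 1 else z i) % 2 = 1) then mono (zz j z) else 0 := by
  have h1 : sub1 (X j) (mono z) = mono (Function.update z 1 0 + Pi.single j (z 1)) := by
    rw [sub1_mono, mono_add, ← X_pow_eq_mono, mono4]
    rw [Function.update_of_ne (show (0 : Fin 4) ≠ 1 by decide), Function.update_self,
      Function.update_of_ne (show (2 : Fin 4) ≠ 1 by decide),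
      Function.update_of_ne (show (3 : Fin 4) ≠ 1 by decide)]
    ring
  have hw1 : (Function.update z 1 0 + Pi.single j (z 1) : Fin 4 → ℕ) 1 = 0 := by
    rw [Pi.add_apply, Function.update_self, Pi.single_eq_of_ne hj.symm, add_zero]
  have hwi : ∀ i, i ≠ 1 → (Function.update z 1 0 + Pi.single j (z 1) : Fin 4 → ℕ) i =
      if i = j then z j + z 1 else z i := by
    intro i hi
    rw [Pi.add_apply, Function.update_of_ne hi]
    by_cases hij : i = j
    · subst hij; rw [Pi.single_eq_same, if_pos rfl]
    · rw [Pi.single_eq_of_ne hij, if_neg hij, add_zero]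
  rw [h1]
  unfold Gj
  rw [lin_mono]
  by_cases hc : ∀ i, i ≠ 1 → (if i = j then z j + z 1 else z i) % 2 = 1
  · rw [if_pos hc, if_pos ⟨hw1, fun i hi => by rw [hwi i hi]; exact hc i hi⟩]
    congr 1
    funext i
    by_cases hi1 : i = 1
    · subst hi1; rw [Function.update_self, zz_one]
    · rw [Function.update_of_ne hi1]
      by_cases hij : i = j
      · subst hij
        rw [Function.update_self, zz_self hj, hwi i hj, if_pos rfl]
      · rw [Function.update_of_ne hij, zz_other hi1 hij, hwi i hi1, if_neg hij]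
  · rw [if_neg hc, if_neg]
    rintro ⟨-, h⟩
    apply hc
    intro i hi
    rw [← hwi i hi]
    exact h i hi

theorem Zop_apply (f : MvPolynomial (Fin 4) (ZMod 2)) :
    Zop f = Gj 0 (sub1 (X 0) f) + Gj 2 (sub1 (X 2) f) + Gj 3 (sub1 (X 3) f) := rfl

theorem Rop_apply (f : MvPolynomial (Fin 4) (ZMod 2)) :
    Rop f = sub1 0 f + Zop (f + sub1 0 f) := rfl

theorem Rop_zero {z : Fin 4 → ℕ} (h : z 1 = 0) : Rop (mono z) = mono z := by
  rw [Rop_apply, sub1_zero_mono, if_pos h, CharTwo.add_self_eq_zero, map_zero, add_zero]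

theorem Rop_pos {z : Fin 4 → ℕ} (h : z 1 ≠ 0) : Rop (mono z) = Zop (mono z) := by
  rw [Rop_apply, sub1_zero_mono, if_neg h, add_zero, zero_add]

theorem wt_zz {j : Fin 4} (hj : j ≠ 1) {z : Fin 4 → ℕ} (h1 : z 1 ≠ 0)
    (h : z 1 % 2 = 1 ∨ z j % 2 = 1) : LexLE (wt (zz j z)) (wt z) := by
  have key := bt_merge (a := z j) (s := z 1) (by omega) h
  have hj' := ne_one_cases hj
  rw [wt4, wt4 z]
  rcases hj' with rfl | rfl | rfl
  · rw [zz_self (by decide), zz_one, zz_other (by decide) (by decide),
      zz_other (by decide) (by decide)]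
    have := LexLE.add_right key (bt (z 2) + bt (z 3))
    have e1 : bt 1 + bt (z 0 + z 1 - 1) + (bt (z 2) + bt (z 3)) =
        bt (z 0 + z 1 - 1) + bt 1 + bt (z 2) + bt (z 3) := by abel
    have e2 : bt (z 1) + bt (z 0) + (bt (z 2) + bt (z 3)) =
        bt (z 0) + bt (z 1) + bt (z 2) + bt (z 3) := by abel
    rwa [e1, e2] at this
  · rw [zz_self (by decide), zz_one, zz_other (by decide) (by decide),
      zz_other (by decide) (by decide)]
    have := LexLE.add_right key (bt (z 0) + bt (z 3))
    have e1 : bt 1 + bt (z 2 + z 1 - 1) + (bt (z 0) + bt (z 3)) =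
        bt (z 0) + bt 1 + bt (z 2 + z 1 - 1) + bt (z 3) := by abel
    have e2 : bt (z 1) + bt (z 2) + (bt (z 0) + bt (z 3)) =
        bt (z 0) + bt (z 1) + bt (z 2) + bt (z 3) := by abel
    rwa [e1, e2] at this
  · rw [zz_self (by decide), zz_one, zz_other (by decide) (by decide),
      zz_other (by decide) (by decide)]
    have := LexLE.add_right key (bt (z 0) + bt (z 2))
    have e1 : bt 1 + bt (z 3 + z 1 - 1) + (bt (z 0) + bt (z 2)) =
        bt (z 0) + bt 1 + bt (z 2) + bt (z 3 + z 1 - 1) := by abel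
    have e2 : bt (z 1) + bt (z 3) + (bt (z 0) + bt (z 2)) =
        bt (z 0) + bt (z 1) + bt (z 2) + bt (z 3) := by abel
    rwa [e1, e2] at this

/-- a term of `Z` -/
theorem Gterm_mem {j : Fin 4} (hj : j ≠ 1) {z : Fin 4 → ℕ} (h1 : z 1 ≠ 0) :
    Gj j (sub1 (X j) (mono z)) ∈ msp (fun y => LexLE (wt y) (wt z)) := by
  rw [Gterm hj]
  split_ifs with hc
  · refine mono_mem_msp (wt_zz hj h1 ?_)
    have := hc j hj
    rw [if_pos rfl] at this
    omega
  · exact Submodule.zero_mem _

/-! part 2 -/

/-- `Rop` does not raise the weight vector -/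
theorem Rop_le (z : Fin 4 → ℕ) : Rop (mono z) ∈ msp (fun y => LexLE (wt y) (wt z)) := by
  by_cases h1 : z 1 = 0
  · rw [Rop_zero h1]
    exact mono_mem_msp (Or.inl rfl)
  · rw [Rop_pos h1, Zop_apply]
    exact Submodule.add_mem _ (Submodule.add_mem _ (Gterm_mem (by decide) h1)
      (Gterm_mem (by decide) h1)) (Gterm_mem (by decide) h1)

theorem lexLE_zero {a b : ℕ → ℕ} (h : LexLE a b) : a 0 ≤ b 0 := by
  rcases h with rfl | ⟨i, h1, h2⟩
  · exact le_rfl
  · rcases i with _ | i
    · exact h2.le
    · exact (h1 0 (Nat.succ_pos i)).le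

theorem wt_zero4 (z : Fin 4 → ℕ) : wt z 0 = z 0 % 2 + z 1 % 2 + z 2 % 2 + z 3 % 2 := by
  unfold wt
  rw [Fin.sum_univ_four]
  simp

theorem Gterm_if {j : Fin 4} (hj : j ≠ 1) (z : Fin 4 → ℕ) (c : Prop) [Decidable c]
    (h : c ↔ ∀ i, i ≠ 1 → (if i = j then z j + z 1 else z i) % 2 = 1) :
    Gj j (sub1 (X j) (mono z)) = if c then mono (zz j z) else 0 := by
  rw [Gterm hj]
  by_cases hc : c
  · rw [if_pos hc, if_pos (h.mp hc)]
  · rw [if_neg hc, if_neg (fun h' => hc (h.mpr h'))]

theorem Zop_mono (z : Fin 4 → ℕ) : Zop (mono z) =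
    (if (z 0 + z 1) % 2 = 1 ∧ z 2 % 2 = 1 ∧ z 3 % 2 = 1 then mono (zz 0 z) else 0) +
    (if z 0 % 2 = 1 ∧ (z 2 + z 1) % 2 = 1 ∧ z 3 % 2 = 1 then mono (zz 2 z) else 0) +
    (if z 0 % 2 = 1 ∧ z 2 % 2 = 1 ∧ (z 3 + z 1) % 2 = 1 then mono (zz 3 z) else 0) := by
  rw [Zop_apply]
  congr 1
  · congr 1
    · refine Gterm_if (by decide) z _ ⟨fun h i hi => ?_, fun h => ?_⟩
      · have hi' := ne_one_cases hi
        rcases hi' with rfl | rfl | rfl
        · rw [if_pos rfl]; exact h.1
        · rw [if_neg (by decide)]; exact h.2.1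
        · rw [if_neg (by decide)]; exact h.2.2
      · have a0 := h 0 (by decide)
        have a2 := h 2 (by decide)
        have a3 := h 3 (by decide)
        rw [if_pos rfl] at a0
        rw [if_neg (by decide)] at a2 a3
        exact ⟨a0, a2, a3⟩
    · refine Gterm_if (by decide) z _ ⟨fun h i hi => ?_, fun h => ?_⟩
      · have hi' := ne_one_cases hi
        rcases hi' with rfl | rfl | rfl
        · rw [if_neg (by decide)]; exact h.1
        · rw [if_pos rfl]; exact h.2.1
        · rw [if_neg (by decide)]; exact h.2.2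
      · have a0 := h 0 (by decide)
        have a2 := h 2 (by decide)
        have a3 := h 3 (by decide)
        rw [if_pos rfl] at a2
        rw [if_neg (by decide)] at a0 a3
        exact ⟨a0, a2, a3⟩
  · refine Gterm_if (by decide) z _ ⟨fun h i hi => ?_, fun h => ?_⟩
    · have hi' := ne_one_cases hi
      rcases hi' with rfl | rfl | rfl
      · rw [if_neg (by decide)]; exact h.1
      · rw [if_neg (by decide)]; exact h.2.1
      · rw [if_pos rfl]; exact h.2.2
    · have a0 := h 0 (by decide)
      have a2 := h 2 (by decide)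
      have a3 := h 3 (by decide)
      rw [if_pos rfl] at a3
      rw [if_neg (by decide)] at a0 a2
      exact ⟨a0, a2, a3⟩

theorem zz_eq_self {j : Fin 4} (hj : j ≠ 1) {z : Fin 4 → ℕ} (h : z 1 = 1) : zz j z = z := by
  funext i
  by_cases hi : i = 1
  · subst hi; rw [zz_one, h]
  · by_cases hij : i = j
    · subst hij; rw [zz_self hj, h]; rfl
    · rw [zz_other hi hij]

theorem Rop_small {z : Fin 4 → ℕ} (h1 : z 1 < 3) (hw : wt z 0 ≤ 3) :
    mono z + Rop (mono z) ∈ hits 4 ⊔ msp (fun y => wt y 0 < 3) := by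
  rcases Nat.lt_or_ge (wt z 0) 3 with hw3 | hw3
  · refine Submodule.mem_sup_right (Submodule.add_mem _ (mono_mem_msp hw3) ?_)
    refine msp_mono (fun y hy => ?_) (Rop_le z)
    have := lexLE_zero hy
    show wt y 0 < 3
    omega
  have hw4 := wt_zero4 z
  have h01 : z 1 = 0 ∨ z 1 = 1 ∨ z 1 = 2 := by omega
  rcases h01 with h01 | h01 | h01
  · rw [Rop_zero h01, CharTwo.add_self_eq_zero]
    exact Submodule.zero_mem _
  · -- `x_1` with exponent one: exactly one even exponent
    have e : Zop (mono z) = mono z := by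
      rw [Zop_mono, h01, zz_eq_self (by decide) h01, zz_eq_self (by decide) h01,
        zz_eq_self (by decide) h01]
      have hcases : (z 0 % 2 = 0 ∧ z 2 % 2 = 1 ∧ z 3 % 2 = 1) ∨
          (z 0 % 2 = 1 ∧ z 2 % 2 = 0 ∧ z 3 % 2 = 1) ∨
          (z 0 % 2 = 1 ∧ z 2 % 2 = 1 ∧ z 3 % 2 = 0) := by omega
      rcases hcases with ⟨a, b, c⟩ | ⟨a, b, c⟩ | ⟨a, b, c⟩
      · rw [if_pos (by omega), if_neg (by omega), if_neg (by omega), add_zero, add_zero]
      · rw [if_neg (by omega), if_pos (by omega), if_neg (by omega), add_zero, zero_add]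
      · rw [if_neg (by omega), if_neg (by omega), if_pos (by omega), add_zero, zero_add]
    rw [Rop_pos (by omega), e, CharTwo.add_self_eq_zero]
    exact Submodule.zero_mem _
  · -- `x_1 ^ 2`: all other exponents odd, the sum is a `Sq ^ 1`
    have a : z 0 % 2 = 1 := by omega
    have b : z 2 % 2 = 1 := by omega
    have c : z 3 % 2 = 1 := by omega
    have hodd : ∀ i, (Function.update z 1 1) i % 2 = 1 := by
      intro i
      by_cases hi : i = 1
      · subst hi; rw [Function.update_self]
      · rw [Function.update_of_ne hi]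
        have hi' := ne_one_cases hi
        rcases hi' with rfl | rfl | rfl
        · exact a
        · exact b
        · exact c
    have hsq := sq1_odd_mem hodd
    have e1 : Function.update z 1 1 + Pi.single (1 : Fin 4) 1 = z := by
      funext i
      rw [Pi.add_apply]
      by_cases hi : i = 1
      · subst hi; rw [Function.update_self, Pi.single_eq_same, h01]
      · rw [Function.update_of_ne hi, Pi.single_eq_of_ne hi, add_zero]
    have e2 : ∀ j : Fin 4, j ≠ 1 → Function.update z 1 1 + Pi.single j 1 = zz j z := by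
      intro j hj
      funext i
      rw [Pi.add_apply]
      by_cases hi : i = 1
      · subst hi; rw [Function.update_self, Pi.single_eq_of_ne hj.symm, zz_one, add_zero]
      · rw [Function.update_of_ne hi]
        by_cases hij : i = j
        · subst hij; rw [Pi.single_eq_same, zz_self hj, h01]; rfl
        · rw [Pi.single_eq_of_ne hij, zz_other hi hij, add_zero]
    rw [Fin.sum_univ_four, e1, e2 0 (by decide), e2 2 (by decide), e2 3 (by decide)] at hsq
    rw [Rop_pos (by omega), Zop_mono, if_pos (by omega), if_pos (by omega), if_pos (by omega)]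
    refine Submodule.mem_sup_left ?_
    have e3 : mono z + (mono (zz 0 z) + mono (zz 2 z) + mono (zz 3 z)) =
        mono (zz 0 z) + mono z + mono (zz 2 z) + mono (zz 3 z) := by abel
    rw [e3]
    exact hsq

theorem Rop_three {t z : Fin 4 → ℕ} (ht1 : t 1 = 3) (ht0 : t 0 % 4 = 3 ∨ t 0 = 1)
    (h3 : wt t 0 = 3) (hz1 : z 1 = 3) (hz0 : z 0 ≤ t 0) (hw : wt z = wt t) :
    Rop (mono z) ∈ hits 4 ⊔ msp (fun y => NLT y t) := by
  have hz3 : wt z 0 = 3 := by rw [hw]; exact h3
  have hw4 := wt_zero4 z
  -- the criterion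
  have crit : ∀ y : Fin 4 → ℕ, LexLE (wt y) (wt z) → LexF y t → NLT y t := by
    intro y hy hf
    rcases hy with hy | hy
    · exact Or.inr ⟨hy.trans hw, hf⟩
    · rw [hw] at hy; exact Or.inl hy
  have lex0 : ∀ y : Fin 4 → ℕ, y 0 < t 0 → LexF y t := by
    intro y hy
    exact ⟨0, fun j hj => absurd hj (by omega), hy⟩
  have lex1 : ∀ y : Fin 4 → ℕ, y 0 ≤ t 0 → y 1 < 3 → LexF y t := by
    intro y hy hy1
    rcases Nat.lt_or_ge (y 0) (t 0) with h | h
    · exact lex0 y h
    · refine ⟨1, fun j hj => ?_, by rw [ht1]; exact hy1⟩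
      have : j = 0 := by
        revert hj; revert j; decide
      subst this
      omega
  rw [Rop_pos (by omega), Zop_mono]
  have hcases : (z 0 % 2 = 0 ∧ z 2 % 2 = 1 ∧ z 3 % 2 = 1) ∨
      (z 0 % 2 = 1 ∧ z 2 % 2 = 0 ∧ z 3 % 2 = 1) ∨
      (z 0 % 2 = 1 ∧ z 2 % 2 = 1 ∧ z 3 % 2 = 0) := by omega
  rcases hcases with ⟨a, b, c⟩ | ⟨a, b, c⟩ | ⟨a, b, c⟩
  · rw [if_pos (by omega), if_neg (by omega), if_neg (by omega), add_zero, add_zero]
    have v0 : zz 0 z 0 = z 0 + 2 := by rw [zz_self (by decide), hz1]; rfl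
    have v1 : zz 0 z 1 = 1 := zz_one 0 z
    have v2 : zz 0 z 2 = z 2 := zz_other (by decide) (by decide) z
    have v3 : zz 0 z 3 = z 3 := zz_other (by decide) (by decide) z
    rcases ht0 with ht0 | ht0
    · refine Submodule.mem_sup_right (mono_mem_msp ?_)
      rcases (show z 0 % 4 = 0 ∨ z 0 % 4 = 2 by omega) with h4 | h4
      · exact crit _ (wt_zz (by decide) (by omega) (by omega)) (lex0 _ (by rw [v0]; omega))
      · left
        rw [← hw]
        refine ⟨1, fun l hl => ?_, ?_⟩
        · have : l = 0 := by omega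
          subst this
          rw [wt_zero4, wt_zero4, v0, v1, v2, v3, hz1]
          omega
        · unfold wt
          rw [Fin.sum_univ_four, Fin.sum_univ_four, v0, v1, v2, v3, hz1, pow_one]
          omega
    · have hz00 : z 0 = 0 := by omega
      have hodd : ∀ i, (Function.update (Function.update z 0 1) 1 1) i % 2 = 1 := by
        intro i
        by_cases hi : i = 1
        · subst hi; rw [Function.update_self]
        · rw [Function.update_of_ne hi]
          have hi' := ne_one_cases hi
          rcases hi' with rfl | rfl | rfl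
          · rw [Function.update_self]
          · rw [Function.update_of_ne (by decide)]; exact b
          · rw [Function.update_of_ne (by decide)]; exact c
      have hsq := sq1_odd_mem hodd
      rw [Fin.sum_univ_four] at hsq
      have e0 : Function.update (Function.update z 0 1) 1 1 + Pi.single (0 : Fin 4) 1 = zz 0 z := by
        funext i
        rw [Pi.add_apply]
        by_cases hi : i = 1
        · subst hi; rw [Function.update_self, Pi.single_eq_of_ne (by decide), zz_one, add_zero]
        · rw [Function.update_of_ne hi]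
          by_cases hij : i = 0
          · subst hij; rw [Pi.single_eq_same, Function.update_self, v0, hz00]
          · rw [Pi.single_eq_of_ne hij, Function.update_of_ne hij, zz_other hi hij, add_zero]
      rw [e0] at hsq
      -- the other three terms are small
      have hbt3 : bt 3 = bt 1 + bt 2 := bt_odd (by norm_num)
      have w0 : wt z = bt 1 + bt 2 + bt (z 2) + bt (z 3) := by
        rw [wt4, hz00, hz1, hbt3]
        have : bt 0 = 0 := by
          funext s; unfold bt; simp
        rw [this, zero_add]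
      have small : ∀ j : Fin 4, j ≠ 0 →
          NLT (Function.update (Function.update z 0 1) 1 1 + Pi.single j 1) t := by
        intro j hj
        set y := Function.update (Function.update z 0 1) 1 1 + Pi.single j 1 with hy
        have y0 : y 0 = 1 := by
          rw [hy, Pi.add_apply, Pi.single_eq_of_ne hj.symm, Function.update_of_ne (by decide),
            Function.update_self, add_zero]
        have yj : ∀ i, i ≠ 0 → i ≠ 1 → i ≠ j → y i = z i := by
          intro i h0 h1 hij
          rw [hy, Pi.add_apply, Pi.single_eq_of_ne hij, Function.update_of_ne h1,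
            Function.update_of_ne h0, add_zero]
        have yj' : j ≠ 1 → y j = z j + 1 := by
          intro h1
          rw [hy, Pi.add_apply, Pi.single_eq_same, Function.update_of_ne h1,
            Function.update_of_ne hj]
        have y1 : j ≠ 1 → y 1 = 1 := by
          intro h1
          rw [hy, Pi.add_apply, Pi.single_eq_of_ne h1.symm, Function.update_self, add_zero]
        have y1' : j = 1 → y 1 = 2 := by
          intro h1
          subst h1
          rw [hy, Pi.add_apply, Pi.single_eq_same, Function.update_self]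
        have hj' : j = 1 ∨ j = 2 ∨ j = 3 := by
          clear_value y
          clear hy yj' y1 y1' yj y0 y
          revert hj; revert j; decide
        refine crit y ?_ (lex1 y (by rw [y0, ht0]) ?_)
        · rw [w0, wt4, y0]
          rcases hj' with rfl | rfl | rfl
          · rw [y1' rfl, yj 2 (by decide) (by decide) (by decide),
              yj 3 (by decide) (by decide) (by decide)]
            exact Or.inl rfl
          · rw [y1 (by decide), yj' (by decide), yj 3 (by decide) (by decide) (by decide)]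
            have h5 := LexLE.add_right (bt_add_le (z 2 - 1) 2) (bt 1 + bt 1 + bt (z 3))
            have e1 : bt (z 2 - 1 + 2) + (bt 1 + bt 1 + bt (z 3)) =
                bt 1 + bt 1 + bt (z 2 + 1) + bt (z 3) := by
              rw [show z 2 - 1 + 2 = z 2 + 1 by omega]; abel
            have e2 : bt (z 2 - 1) + bt 2 + (bt 1 + bt 1 + bt (z 3)) =
                bt 1 + bt 2 + bt (z 2) + bt (z 3) := by
              rw [bt_odd b]; abel
            rw [e1, e2] at h5
            exact h5
          · rw [y1 (by decide), yj' (by decide), yj 2 (by decide) (by decide) (by decide)]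
            have h5 := LexLE.add_right (bt_add_le (z 3 - 1) 2) (bt 1 + bt 1 + bt (z 2))
            have e1 : bt (z 3 - 1 + 2) + (bt 1 + bt 1 + bt (z 2)) =
                bt 1 + bt 1 + bt (z 2) + bt (z 3 + 1) := by
              rw [show z 3 - 1 + 2 = z 3 + 1 by omega]; abel
            have e2 : bt (z 3 - 1) + bt 2 + (bt 1 + bt 1 + bt (z 2)) =
                bt 1 + bt 2 + bt (z 2) + bt (z 3) := by
              rw [bt_odd c]; abel
            rw [e1, e2] at h5
            exact h5
        · rcases hj' with rfl | rfl | rfl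
          · rw [y1' rfl]; norm_num
          · rw [y1 (by decide)]; norm_num
          · rw [y1 (by decide)]; norm_num
      have s1 : mono (Function.update (Function.update z 0 1) 1 1 + Pi.single (1 : Fin 4) 1) ∈
          msp (fun y => NLT y t) := mono_mem_msp (small 1 (by decide))
      have s2 : mono (Function.update (Function.update z 0 1) 1 1 + Pi.single (2 : Fin 4) 1) ∈
          msp (fun y => NLT y t) := mono_mem_msp (small 2 (by decide))
      have s3 : mono (Function.update (Function.update z 0 1) 1 1 + Pi.single (3 : Fin 4) 1) ∈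
          msp (fun y => NLT y t) := mono_mem_msp (small 3 (by decide))
      generalize mono (Function.update (Function.update z 0 1) 1 1 + Pi.single (1 : Fin 4) 1) = A1
        at hsq s1
      generalize mono (Function.update (Function.update z 0 1) 1 1 + Pi.single (2 : Fin 4) 1) = A2
        at hsq s2
      generalize mono (Function.update (Function.update z 0 1) 1 1 + Pi.single (3 : Fin 4) 1) = A3
        at hsq s3
      have e5 : mono (zz 0 z) = (mono (zz 0 z) + A1 + A2 + A3) + (A1 + A2 + A3) := by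
        have : (mono (zz 0 z) + A1 + A2 + A3) + (A1 + A2 + A3) =
            mono (zz 0 z) + ((A1 + A2 + A3) + (A1 + A2 + A3)) := by abel
        rw [this, CharTwo.add_self_eq_zero, add_zero]
      rw [e5]
      exact Submodule.add_mem_sup hsq (Submodule.add_mem _ (Submodule.add_mem _ s1 s2) s3)
  · rw [if_neg (by omega), if_pos (by omega), if_neg (by omega), add_zero, zero_add]
    refine Submodule.mem_sup_right (mono_mem_msp ?_)
    refine crit _ (wt_zz (by decide) (by omega) (by omega)) (lex1 _ ?_ ?_)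
    · rw [zz_other (by decide) (by decide)]; exact hz0
    · rw [zz_one]; norm_num
  · rw [if_neg (by omega), if_neg (by omega), if_pos (by omega), add_zero, zero_add]
    refine Submodule.mem_sup_right (mono_mem_msp ?_)
    refine crit _ (wt_zz (by decide) (by omega) (by omega)) (lex1 _ ?_ ?_)
    · rw [zz_other (by decide) (by decide)]; exact hz0
    · rw [zz_one]; norm_num

end Pool.Agent.HitD5
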