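import Pool.Agent.HitD5.Iter
import Pool.Agent.HitD5.Weak54
import Pool.Agent.HitD5.Omega2

set_option autoImplicit false

/-! # The operator C: transport of admissibility -/

namespace Pool.Agent.HitD5

open Pool.Agent.Helper60.Hit MvPolynomial Pool.Agent.CTL45

theorem lexLT_half {d : ℕ} {y u : Fin d → ℕ} (hy : ∀ i, y i % 2 = 1) (hu : ∀ i, u i % 2 = 1)
    (h : LexLT (wt y) (wt u)) : LexLT (wt (fun i => y i / 2)) (wt (fun i => u i / 2)) := by
  obtain ⟨s, h1, h2⟩ := h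
  obtain ⟨s', rfl⟩ : ∃ s', s = s' + 1 := by
    refine ⟨s - 1, ?_⟩
    rcases Nat.eq_zero_or_pos s with rfl | hs
    · rw [wt_zero_odd hy, wt_zero_odd hu] at h2; exact absurd h2 (lt_irrefl _)
    · omega
  refine ⟨s', fun l hl => ?_, ?_⟩
  · rw [wt_half, wt_half]; exact h1 (l + 1) (by omega)
  · rw [wt_half, wt_half]; exact h2

theorem lexLT_halfk {d : ℕ} (k : ℕ) {y u : Fin d → ℕ} (hy : ∀ i, y i % 2 ^ k = 2 ^ k - 1)
    (hu : ∀ i, u i % 2 ^ k = 2 ^ k - 1) (h : LexLT (wt y) (wt u)) :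
    LexLT (wt (fun i => y i / 2 ^ k)) (wt (fun i => u i / 2 ^ k)) := by
  induction k generalizing y u with
  | zero => simpa using h
  | succ k ih =>
    rw [div_two_pow_succ, div_two_pow_succ]
    exact ih (y := fun i => y i / 2) (u := fun i => u i / 2)
      (fun i => ((mod_succ_iff k (y i)).mp (hy i)).2)
      (fun i => ((mod_succ_iff k (u i)).mp (hu i)).2)
      (lexLT_half (fun i => ((mod_succ_iff k (y i)).mp (hy i)).1)
        (fun i => ((mod_succ_iff k (u i)).mp (hu i)).1) h)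

theorem lexLE_halfk {d : ℕ} (k : ℕ) {y u : Fin d → ℕ} (hy : ∀ i, y i % 2 ^ k = 2 ^ k - 1)
    (hu : ∀ i, u i % 2 ^ k = 2 ^ k - 1) (h : LexLE (wt y) (wt u)) :
    LexLE (wt (fun i => y i / 2 ^ k)) (wt (fun i => u i / 2 ^ k)) := by
  rcases h with h | h
  · left
    funext s
    rw [wt_halfk, wt_halfk, h]
  · right
    exact lexLT_halfk k hy hu h

/-- leave out the first variable, then `k`-fold halving -/
noncomputable def Lam (k : ℕ) :
    MvPolynomial (Fin 5) (ZMod 2) →ₗ[ZMod 2] MvPolynomial (Fin 4) (ZMod 2) :=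
  psik k ∘ₗ (del (n := 4)).toLinearMap

theorem Lam_hits (k : ℕ) {g : MvPolynomial (Fin 5) (ZMod 2)} (hg : g ∈ hits 5) :
    Lam k g ∈ hits 4 :=
  psik_hits k (del_hits hg)

theorem Lam_zero (k : ℕ) {z : Fin 5 → ℕ} (h : z 0 ≠ 0) : Lam k (mono z) = 0 := by
  show psik k (del (mono z)) = 0
  rw [del_mono, if_neg h, map_zero]

theorem Lam_mono (k : ℕ) {z : Fin 5 → ℕ} (h : z 0 = 0) : Lam k (mono z) =
    if ∀ i : Fin 4, z i.succ % 2 ^ k = 2 ^ k - 1 then mono (fun i : Fin 4 => z i.succ / 2 ^ k)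
      else 0 := by
  show psik k (del (mono z)) = _
  rw [del_mono, if_pos h, psik_mono]

section core

variable {k : ℕ} {e0 : Fin 5 → ℕ}

/-- the target in four variables -/
def tk (k : ℕ) (e0 : Fin 5 → ℕ) : Fin 4 → ℕ := fun i => e0 i.succ / 2 ^ k

theorem nlt_of_lexLT {d : ℕ} {y u : Fin d → ℕ} (h : LexLT (wt y) (wt u)) : NLT y u := Or.inl h

theorem Lam_nlt (h0 : e0 0 = 0) (hk : ∀ i : Fin 4, e0 i.succ % 2 ^ k = 2 ^ k - 1)
    {f : MvPolynomial (Fin 5) (ZMod 2)} (hf : f ∈ msp (fun z => NLT z e0)) :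
    Lam k f ∈ msp (fun z => NLT z (tk k e0)) := by
  refine map_msp (Lam k) _ (fun z hz => ?_) hf
  by_cases hz0 : z 0 = 0
  · rw [Lam_mono k hz0]
    split_ifs with h
    · refine mono_mem_msp ?_
      exact nlt_halfk k (y := fun i : Fin 4 => z i.succ) (u := fun i : Fin 4 => e0 i.succ) h hk
        ((nlt_tail hz0 h0).mpr hz)
    · exact Submodule.zero_mem _
  · rw [Lam_zero k hz0]
    exact Submodule.zero_mem _

theorem tail_le (h0 : e0 0 = 0) (hk : ∀ i : Fin 4, e0 i.succ % 2 ^ k = 2 ^ k - 1)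
    {z : Fin 5 → ℕ} (hz0 : z 0 = 0) (hz : ∀ i : Fin 4, z i.succ % 2 ^ k = 2 ^ k - 1)
    (h : LexLE (wt z) (wt e0)) :
    LexLE (wt (fun i : Fin 4 => z i.succ / 2 ^ k)) (wt (tk k e0)) := by
  refine lexLE_halfk k (y := fun i : Fin 4 => z i.succ) (u := fun i : Fin 4 => e0 i.succ) hz hk ?_
  rw [wt_tail hz0, wt_tail h0]
  exact h

theorem tail_lt (h0 : e0 0 = 0) (hk : ∀ i : Fin 4, e0 i.succ % 2 ^ k = 2 ^ k - 1)
    {z : Fin 5 → ℕ} (hz0 : z 0 = 0) (hz : ∀ i : Fin 4, z i.succ % 2 ^ k = 2 ^ k - 1)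
    (h : LexLT (wt z) (wt e0)) :
    LexLT (wt (fun i : Fin 4 => z i.succ / 2 ^ k)) (wt (tk k e0)) := by
  refine lexLT_halfk k (y := fun i : Fin 4 => z i.succ) (u := fun i : Fin 4 => e0 i.succ) hz hk ?_
  rw [wt_tail hz0, wt_tail h0]
  exact h

/-- small weight stays small under `Rop` -/
theorem Rop_lt {t z : Fin 4 → ℕ} (h : LexLT (wt z) (wt t)) :
    Rop (mono z) ∈ hits 4 ⊔ msp (fun y => NLT y t) :=
  Submodule.mem_sup_right (msp_mono (fun _ hy => Or.inl (hy.trans_lt h)) (Rop_le z))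

theorem low_le {t : Fin 4 → ℕ} (h3 : wt t 0 = 3) :
    hits 4 ⊔ msp (fun z => wt z 0 < 3) ≤ hits 4 ⊔ msp (fun y => NLT y t) := by
  refine sup_le_sup_left (msp_mono fun z hz => Or.inl ⟨0, fun l hl => absurd hl (Nat.not_lt_zero l), ?_⟩) _
  rw [h3]
  exact hz

/-- terms with the exponent `2 ^ (k + 2) - 1` at the place `2` -/
theorem RL (h0 : e0 0 = 0) (hk : ∀ i : Fin 4, e0 i.succ % 2 ^ k = 2 ^ k - 1)
    (ht1 : tk k e0 1 = 3) (ht0 : tk k e0 0 % 4 = 3 ∨ tk k e0 0 = 1) (h3 : wt (tk k e0) 0 = 3)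
    {z : Fin 5 → ℕ} (hz0 : z 0 = 0) (hz1 : z 1 ≤ e0 1) (hz2 : z 2 = 2 ^ (k + 2) - 1)
    (hle : LexLE (wt z) (wt e0)) :
    Rop (Lam k (mono z)) ∈ hits 4 ⊔ msp (fun y => NLT y (tk k e0)) := by
  rw [Lam_mono k hz0]
  split_ifs with h
  · rcases tail_le h0 hk hz0 h hle with hw | hw
    · refine Rop_three ht1 ht0 h3 ?_ ?_ hw
      · show z 2 / 2 ^ k = 3
        rw [hz2, pow_add]
        have h5 := Nat.one_le_two_pow (n := k)
        rw [Nat.div_eq_iff (by omega)]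
        omega
      · exact Nat.div_le_div_right hz1
    · exact Rop_lt hw
  · rw [map_zero]
    exact Submodule.zero_mem _

/-- terms with a smaller exponent at the place `2` -/
theorem RS (h0 : e0 0 = 0) (hk : ∀ i : Fin 4, e0 i.succ % 2 ^ k = 2 ^ k - 1)
    (h3 : wt (tk k e0) 0 = 3)
    {z : Fin 5 → ℕ} (hz0 : z 0 = 0) (hz2 : z 2 < 2 ^ (k + 2) - 1)
    (hle : LexLE (wt z) (wt e0)) :
    Lam k (mono z) + Rop (Lam k (mono z)) ∈ hits 4 ⊔ msp (fun y => NLT y (tk k e0)) := by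
  rw [Lam_mono k hz0]
  split_ifs with h
  · rcases tail_le h0 hk hz0 h hle with hw | hw
    · refine low_le h3 (Rop_small ?_ ?_)
      · show z 2 / 2 ^ k < 3
        have h5 : z 2 % 2 ^ k = 2 ^ k - 1 := h 1
        have h6 := Nat.div_add_mod (z 2) (2 ^ k)
        have h7 := Nat.one_le_two_pow (n := k)
        by_contra hcon
        push Not at hcon
        have h8 := Nat.mul_le_mul_left (2 ^ k) hcon
        rw [pow_add] at hz2
        omega
      · rw [hw, h3]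
    · exact Submodule.add_mem _ (Submodule.mem_sup_right (mono_mem_msp (Or.inl hw))) (Rop_lt hw)
  · rw [map_zero, add_zero]
    exact Submodule.zero_mem _

/-- terms of smaller weight -/
theorem RW (h0 : e0 0 = 0) (hk : ∀ i : Fin 4, e0 i.succ % 2 ^ k = 2 ^ k - 1)
    {z : Fin 5 → ℕ} (hz0 : z 0 = 0) (hlt : LexLT (wt z) (wt e0)) :
    Rop (Lam k (mono z)) ∈ hits 4 ⊔ msp (fun y => NLT y (tk k e0)) := by
  rw [Lam_mono k hz0]
  split_ifs with h
  · exact Rop_lt (tail_lt h0 hk hz0 h hlt)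
  · rw [map_zero]
    exact Submodule.zero_mem _

end core

section op

variable {w : ℕ → Fin 5} {k : ℕ}

/-- the second summand of the operator -/
noncomputable def T1 (w : ℕ → Fin 5) (r : ℕ) :
    MvPolynomial (Fin 5) (ZMod 2) →ₗ[ZMod 2] MvPolynomial (Fin 5) (ZMod 2) :=
  CM (w 0) (MM w r 1) ∘ₗ PP w 1

theorem T1_mono {r : ℕ} (h : Inc w r) (hr : 1 ≤ r) (y : Fin 5 → ℕ) :
    T1 w r (mono y) = Cr (MM w r 1) (y (w 1)) * mono (bs w 1 y) := by
  unfold T1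
  rw [LinearMap.comp_apply, PP_mono, CM_mono, (cyc_spec h y 1 hr).1]
  rfl

theorem TS_one {r : ℕ} (h : Inc w r) (hr : 1 ≤ r) (y : Fin 5 → ℕ) :
    TS w r 1 (mono y) = Cr (MM w r 0) (y (w 0)) * mono (bs w 0 y) + T1 w r (mono y) := by
  rw [TS_mono h 1 hr, Finset.sum_range_succ, Finset.sum_range_one, T1_mono h hr]

theorem T1_mem {r : ℕ} (h : Inc w r) (hr : 1 ≤ r) (hw0 : w 0 = 0) (hw1 : w 1 = 2)
    (y : Fin 5 → ℕ) :
    T1 w r (mono y) ∈ msp (fun z => z 0 = 0 ∧ z 1 = y 1 ∧ z 2 = y 0 ∧ LexLE (wt z) (wt y)) := by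
  rw [T1_mono h hr]
  refine summand_mem fun c hc => ?_
  have c0 : c 0 = 0 := good_zero hc (by
    rw [← hw0]
    exact h.notMem (by omega) hr)
  have c2 : c 2 = 0 := good_zero hc (by
    rw [← hw1]
    exact h.notMem le_rfl hr)
  have c1 : c 1 = 0 := good_zero hc (by
    intro hmem
    have := h.lt_of_mem (le_refl 1) hmem
    rw [hw1] at this
    exact absurd this (by decide))
  refine ⟨?_, ?_, ?_, term_le h hr hc⟩
  · rw [Pi.add_apply, c0, zero_add]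
    have := bs_zero (w := w) 1 y
    rw [hw0] at this
    exact this
  · rw [Pi.add_apply, c1, zero_add]
    refine bs_other h y hr ?_
    intro j hj
    have hj' : j = 0 ∨ j = 1 := by omega
    rcases hj' with rfl | rfl
    · rw [hw0]; decide
    · rw [hw1]; decide
  · rw [Pi.add_apply, c2, zero_add]
    have := bs_succ h y hr (Nat.zero_lt_one)
    rw [hw1, hw0] at this
    exact this

theorem T1_hits {r : ℕ} {g : MvPolynomial (Fin 5) (ZMod 2)} (hg : g ∈ hits 5) :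
    T1 w r g ∈ hits 5 := by
  unfold T1
  rw [LinearMap.comp_apply]
  exact CM_hits _ _ (PP_hits w 1 hg)

/-- the operator of C -/
noncomputable def Psi (w : ℕ → Fin 5) (k : ℕ) :
    MvPolynomial (Fin 5) (ZMod 2) →ₗ[ZMod 2] MvPolynomial (Fin 4) (ZMod 2) :=
  Lam k ∘ₗ TS w (k + 2) 1 + Rop ∘ₗ Lam k ∘ₗ T1 w (k + 2)

theorem Psi_apply (f : MvPolynomial (Fin 5) (ZMod 2)) :
    Psi w k f = Lam k (TS w (k + 2) 1 f) + Rop (Lam k (T1 w (k + 2) f)) := rfl

variable {e e0 : Fin 5 → ℕ}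

theorem Psi_hits (h3 : wt (tk k e0) 0 = 3) {g : MvPolynomial (Fin 5) (ZMod 2)}
    (hg : g ∈ hits 5) : Psi w k g ∈ hits 4 ⊔ msp (fun y => NLT y (tk k e0)) := by
  rw [Psi_apply]
  exact Submodule.add_mem _ (Submodule.mem_sup_left (Lam_hits k (TS_hits w _ _ hg)))
    (low_le h3 (Rop_hits (Lam_hits k (T1_hits hg))))

/-- transport of a property of the terms of `T1` through `Rop` and `Lam` -/
theorem RT (h : Inc w (k + 2)) (hw0 : w 0 = 0) (hw1 : w 1 = 2) (y : Fin 5 → ℕ)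
    (N : Submodule (ZMod 2) (MvPolynomial (Fin 4) (ZMod 2)))
    (hN : ∀ z : Fin 5 → ℕ, z 0 = 0 → z 1 = y 1 → z 2 = y 0 → LexLE (wt z) (wt y) →
      Rop (Lam k (mono z)) ∈ N) : Rop (Lam k (T1 w (k + 2) (mono y))) ∈ N := by
  have h5 := map_msp (Rop ∘ₗ Lam k) N (fun z hz => ?_) (T1_mem h (by omega) hw0 hw1 y)
  · rw [LinearMap.comp_apply] at h5
    exact h5
  · rw [LinearMap.comp_apply]
    exact hN z hz.1 hz.2.1 hz.2.2.1 hz.2.2.2

theorem RT2 (h : Inc w (k + 2)) (hw0 : w 0 = 0) (hw1 : w 1 = 2) (y : Fin 5 → ℕ)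
    (N : Submodule (ZMod 2) (MvPolynomial (Fin 4) (ZMod 2)))
    (hN : ∀ z : Fin 5 → ℕ, z 0 = 0 → z 1 = y 1 → z 2 = y 0 → LexLE (wt z) (wt y) →
      Lam k (mono z) + Rop (Lam k (mono z)) ∈ N) :
    Lam k (T1 w (k + 2) (mono y)) + Rop (Lam k (T1 w (k + 2) (mono y))) ∈ N := by
  have h5 := map_msp (Lam k + Rop ∘ₗ Lam k) N (fun z hz => ?_) (T1_mem h (by omega) hw0 hw1 y)
  · rw [LinearMap.add_apply, LinearMap.comp_apply] at h5
    exact h5
  · rw [LinearMap.add_apply, LinearMap.comp_apply]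
    exact hN z hz.1 hz.2.1 hz.2.2.1 hz.2.2.2

theorem Psi_full (S : Wk w (k + 2) 1 e e0) (hw0 : w 0 = 0) (hw1 : w 1 = 2)
    (he0 : e 0 = 2 ^ (k + 2) - 1) (he1 : e 1 = e0 1)
    (h0 : e0 0 = 0) (hk : ∀ i : Fin 4, e0 i.succ % 2 ^ k = 2 ^ k - 1)
    (ht1 : tk k e0 1 = 3) (ht0 : tk k e0 0 % 4 = 3 ∨ tk k e0 0 = 1)
    (h3 : wt (tk k e0) 0 = 3) :
    Psi w k (mono e) + mono (tk k e0) ∈ hits 4 ⊔ msp (fun y => NLT y (tk k e0)) := by
  have hmono0 : Lam k (mono e0) = mono (tk k e0) := by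
    rw [Lam_mono k h0, if_pos hk]
    rfl
  have e1 : Psi w k (mono e) + mono (tk k e0) = Lam k (TS w (k + 2) 1 (mono e) + mono e0) +
        Rop (Lam k (T1 w (k + 2) (mono e))) := by
    rw [map_add, hmono0, Psi_apply, add_right_comm]
  rw [e1]
  refine Submodule.add_mem _ (Submodule.mem_sup_right (Lam_nlt h0 hk S.full)) ?_
  refine RT S.inc hw0 hw1 e _ fun z hz0 hz1 hz2 hz3 => ?_
  refine RL h0 hk ht1 ht0 h3 hz0 ?_ ?_ ?_
  · rw [hz1, he1]
  · rw [hz2, he0]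
  · rw [S.hwt]; exact hz3

theorem TS_small (S : Wk w (k + 2) 1 e e0) (hw0 : w 0 = 0) {y : Fin 5 → ℕ} (hy : MonLT y e)
    (h : LexLT (wt y) (wt e) ∨ 2 ^ (k + 2) - 1 ≤ y 0) :
    TS w (k + 2) 1 (mono y) ∈ msp (fun z => NLT z e0) := by
  rcases h with h | h
  · rw [TS_mono S.inc 1 (by omega)]
    refine Submodule.sum_mem _ fun l hl => summand_mem fun c hc => ?_
    rw [Finset.mem_range] at hl
    refine Or.inl ?_
    rw [S.hwt]
    exact (term_le S.inc (by omega) hc).trans_lt h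
  · refine msp_mono (fun z hz => ?_) (S.TAY hy)
    rcases hz with hz | hz
    · exact hz
    · exfalso
      obtain ⟨-, j, hj, -, -, hj2, -⟩ := hz
      have hj0 : j = 0 := by omega
      rw [hj0, hw0] at hj2
      omega

theorem Psi_low (S : Wk w (k + 2) 1 e e0) (hw0 : w 0 = 0) (hw1 : w 1 = 2)
    (he0 : e 0 = 2 ^ (k + 2) - 1) (he1 : e 1 = e0 1)
    (h0 : e0 0 = 0) (hk : ∀ i : Fin 4, e0 i.succ % 2 ^ k = 2 ^ k - 1)
    (ht1 : tk k e0 1 = 3) (ht0 : tk k e0 0 % 4 = 3 ∨ tk k e0 0 = 1)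
    (h3 : wt (tk k e0) 0 = 3) {y : Fin 5 → ℕ} (hy : MonLT y e) :
    Psi w k (mono y) ∈ hits 4 ⊔ msp (fun y => NLT y (tk k e0)) := by
  rw [Psi_apply]
  rcases hy.2 with hlt | ⟨hweq, hF⟩
  · -- smaller weight
    refine Submodule.add_mem _ (Submodule.mem_sup_right
      (Lam_nlt h0 hk (TS_small S hw0 hy (Or.inl hlt)))) ?_
    refine RT S.inc hw0 hw1 y _ fun z hz0 hz1 hz2 hz3 => ?_
    refine RW h0 hk hz0 ?_
    rw [S.hwt]
    exact hz3.trans_lt hlt
  · by_cases hy0 : y 0 = e 0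
    · refine Submodule.add_mem _ (Submodule.mem_sup_right
        (Lam_nlt h0 hk (TS_small S hw0 hy (Or.inr (by rw [hy0, he0]))))) ?_
      refine RT S.inc hw0 hw1 y _ fun z hz0 hz1 hz2 hz3 => ?_
      refine RL h0 hk ht1 ht0 h3 hz0 ?_ ?_ ?_
      · rw [hz1, ← he1]
        obtain ⟨f, hf, hf'⟩ := hF
        rcases lt_trichotomy f 1 with hf1 | hf1 | hf1
        · have hf0 : f = 0 := by
            rw [Fin.lt_def] at hf1
            have h11 : ((1 : Fin 5) : ℕ) = 1 := rfl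
            rw [h11] at hf1
            apply Fin.ext
            show (f : ℕ) = 0
            omega
          rw [hf0, hy0] at hf'
          exact absurd hf' (lt_irrefl _)
        · rw [hf1] at hf'
          exact le_of_lt hf'
        · exact le_of_eq (hf 1 hf1)
      · rw [hz2, hy0, he0]
      · rw [S.hwt, ← hweq]; exact hz3
    · have hy0' : y 0 < e 0 := by
        obtain ⟨f, hf, hf'⟩ := hF
        rcases eq_or_lt_of_le (Fin.zero_le f) with hf0 | hf0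
        · rw [hf0]; exact hf'
        · exact absurd (hf 0 hf0) hy0
      have hT0 : TS w (k + 2) 1 (mono y) = T1 w (k + 2) (mono y) := by
        rw [TS_one S.inc (by omega), Cr_eq_zero, zero_mul, zero_add]
        rw [S.inc.card_MM, Nat.sub_zero, hw0, ← he0]
        exact hy0'
      rw [hT0]
      refine RT2 S.inc hw0 hw1 y _ fun z hz0 hz1 hz2 hz3 => ?_
      refine RS h0 hk h3 hz0 ?_ ?_
      · rw [hz2, ← he0]; exact hy0'
      · rw [S.hwt, ← hweq]; exact hz3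

/-- the operator C -/
theorem Wk.C (S : Wk w (k + 2) 1 e e0) (hw0 : w 0 = 0) (hw1 : w 1 = 2)
    (hk : ∀ i : Fin 4, e0 i.succ % 2 ^ k = 2 ^ k - 1)
    (ht0 : e0 1 / 2 ^ k % 4 = 3 ∨ e0 1 / 2 ^ k = 1)
    (h3 : wt (fun i : Fin 4 => e0 i.succ / 2 ^ k) 0 = 3)
    (hadm : Adm e0) : Adm e := by
  have h0 : e0 0 = 0 := by rw [← hw0]; exact S.e0_eq_zero
  have he0 : e 0 = 2 ^ (k + 2) - 1 := by
    have := S.he 0 (by omega)
    rw [hw0] at this
    exact this
  have he1 : e 1 = e0 1 := by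
    refine (S.e0_of_notMem ?_ ?_).symm
    · intro hmem
      have := S.inc.lt_of_mem (le_refl 1) hmem
      rw [hw1] at this
      exact absurd this (by decide)
    · rw [hw0]; decide
  have ht1 : tk k e0 1 = 3 := by
    have h5 : e0 2 = 2 ^ (k + 2) - 1 := by
      have := S.e0_w (j := 0) (by omega)
      rw [hw1] at this
      exact this
    show e0 2 / 2 ^ k = 3
    rw [h5, pow_add]
    have h6 := Nat.one_le_two_pow (n := k)
    rw [Nat.div_eq_iff (by omega)]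
    omega
  have hadm' : Adm (tk k e0) := adm_halfk k (adm_tail h0 hadm)
  exact adm_transport (Psi w k) (fun g hg => Psi_hits h3 hg)
    (Psi_full S hw0 hw1 he0 he1 h0 hk ht1 ht0 h3)
    (fun y hy => Psi_low S hw0 hw1 he0 he1 h0 hk ht1 ht0 h3 hy) hadm'

end op

end Pool.Agent.HitD5
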