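import Pool.Agent.HitD5.Iter
import Pool.Agent.HitD5.Weak54

set_option autoImplicit false

/-! # The operators AB and G0 -/

namespace Pool.Agent.HitD5

open Pool.Agent.Helper60.Hit MvPolynomial Pool.Agent.CTL45

variable {n : ℕ}



variable {w : ℕ → Fin (n + 1)} {r u : ℕ} {e e0 : Fin (n + 1) → ℕ}

/-- `k`-fold halving of the tail -/
noncomputable def hd (k : ℕ) :
    MvPolynomial (Fin (n + 1)) (ZMod 2) →ₗ[ZMod 2] MvPolynomial (Fin n) (ZMod 2) :=
  psik k ∘ₗ del.toLinearMap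

theorem hd_hits (k : ℕ) {g : MvPolynomial (Fin (n + 1)) (ZMod 2)} (hg : g ∈ hits (n + 1)) :
    hd k g ∈ hits n := psik_hits k (del_hits hg)

theorem hd_mono (k : ℕ) (z : Fin (n + 1) → ℕ) :
    hd k (mono z) = if z 0 = 0 ∧ ∀ i : Fin n, z i.succ % 2 ^ k = 2 ^ k - 1 then
      mono (fun i => z i.succ / 2 ^ k) else 0 := by
  unfold hd
  rw [LinearMap.comp_apply, AlgHom.toLinearMap_apply, del_mono]
  by_cases h : z 0 = 0
  · rw [if_pos h, psik_mono]
    by_cases h1 : ∀ i : Fin n, z i.succ % 2 ^ k = 2 ^ k - 1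
    · rw [if_pos h1, if_pos ⟨h, h1⟩]
    · rw [if_neg h1, if_neg (fun h2 => h1 h2.2)]
  · rw [if_neg h, map_zero, if_neg (fun h2 => h h2.1)]

/-- the common principle: an operator `S` on `P_n` which preserves hit polynomials, sends
every monomial to itself or to zero, keeps the half of `t` and kills the halves of the bad
monomials or makes them small -/
theorem adm_of_sieve (S : Wk w r u e e0) (hw0 : w 0 = 0) (k : ℕ)
    (ht : ∀ i : Fin n, e0 i.succ % 2 ^ k = 2 ^ k - 1)
    (K : MvPolynomial (Fin n) (ZMod 2) →ₗ[ZMod 2] MvPolynomial (Fin n) (ZMod 2))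
    (hK : ∀ g ∈ hits n, K g ∈ hits n) (P : (Fin n → ℕ) → Prop) [DecidablePred P]
    (hKm : ∀ z, K (mono z) = if P z then mono z else 0)
    (hPt : P (fun i => e0 i.succ / 2 ^ k))
    (hbad : ∀ z : Fin (n + 1) → ℕ, z 0 = 0 → (∀ i : Fin n, z i.succ % 2 ^ k = 2 ^ k - 1) →
      Bad w r u e0 z → P (fun i => z i.succ / 2 ^ k) →
        NLT (fun i : Fin n => z i.succ / 2 ^ k) (fun i : Fin n => e0 i.succ / 2 ^ k))
    (h : Adm e0) : Adm e := by
  have h00 : e0 0 = 0 := by rw [← hw0]; exact S.e0_eq_zero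
  have hA : Adm (fun i : Fin n => e0 i.succ / 2 ^ k) := adm_halfk k (adm_tail h00 h)
  -- small monomials
  have hsmall : ∀ z : Fin (n + 1) → ℕ, (NLT z e0 ∨ Bad w r u e0 z) →
      (K ∘ₗ hd k) (mono z) ∈ msp (fun y => NLT y (fun i : Fin n => e0 i.succ / 2 ^ k)) := by
    intro z hz
    rw [LinearMap.comp_apply, hd_mono]
    split_ifs with h1
    · rw [hKm]
      split_ifs with h2
      · refine mono_mem_msp ?_
        rcases hz with hz | hz
        · exact nlt_halfk k (y := fun i : Fin n => z i.succ) (u := fun i : Fin n => e0 i.succ)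
            h1.2 ht ((nlt_tail h1.1 h00).mpr hz)
        · exact hbad z h1.1 h1.2 hz h2
      · exact Submodule.zero_mem _
    · rw [map_zero]; exact Submodule.zero_mem _
  refine adm_transport ((K ∘ₗ hd k) ∘ₗ TS w r u) (fun g hg => ?_) ?_ (fun y hy => ?_) hA
  · exact Submodule.mem_sup_left (hK _ (hd_hits k (TS_hits w r u hg)))
  · have h1 := map_msp (K ∘ₗ hd k) _ (fun y hy => hsmall y (Or.inl hy)) S.full
    rw [map_add] at h1
    have h2 : (K ∘ₗ hd k) (mono e0) = mono (fun i : Fin n => e0 i.succ / 2 ^ k) := by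
      rw [LinearMap.comp_apply, hd_mono, if_pos ⟨h00, ht⟩, hKm, if_pos hPt]
    rw [h2] at h1
    exact Submodule.mem_sup_right h1
  · exact Submodule.mem_sup_right (map_msp (K ∘ₗ hd k) _ (fun z hz => hsmall z hz) (S.TA hy))

/-- operator AB -/
theorem Wk.AB (S : Wk w r u e e0) (hw0 : w 0 = 0)
    (ht : ∀ i : Fin n, e0 i.succ % 2 ^ (r - 1) = 2 ^ (r - 1) - 1) (h : Adm e0) : Adm e := by
  classical
  have hr : 0 < r := lt_of_le_of_lt (Nat.zero_le _) S.hu
  obtain ⟨k, rfl⟩ : ∃ k, r = k + 1 := ⟨r - 1, by omega⟩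
  rw [Nat.add_sub_cancel] at ht
  obtain ⟨K, hK, hKm⟩ := exists_keep
    (Finset.univ.filter (fun b : Fin n => ∃ j < u, w (j + 1) = b.succ))
  refine adm_of_sieve S hw0 k ht K hK _ hKm ?_ ?_ h
  · intro b hb
    rw [Finset.mem_filter] at hb
    obtain ⟨-, j, hj, hb⟩ := hb
    show e0 b.succ / 2 ^ k ≠ 0
    rw [← hb, S.e0_w hj, pow_succ]
    have h1 : 2 ^ k * 2 - 1 = (2 ^ k - 1) + 2 ^ k * 1 := by
      have := Nat.one_le_two_pow (n := k); omega
    rw [h1, Nat.add_mul_div_left _ _ (by positivity)]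
    exact Nat.succ_ne_zero _
  · rintro z hz0 hzm ⟨-, j, hj, -, hlt⟩ hP
    exfalso
    have hne : w (j + 1) ≠ 0 := by
      rw [← hw0]
      exact S.inc.ne (by omega) (by have := S.hu; omega) (by omega)
    obtain ⟨b, hb⟩ := Fin.exists_succ_eq.mpr hne
    refine hP b (Finset.mem_filter.mpr ⟨Finset.mem_univ _, j, hj, hb.symm⟩) ?_
    have h1 := hzm b
    show z b.succ / 2 ^ k = 0
    rw [hb] at h1 ⊢
    have h2 := Nat.div_add_mod (z (w (j + 1))) (2 ^ k)
    rw [h1] at h2
    rw [pow_succ] at hlt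
    by_contra h3
    have h4 : 2 ^ k * 1 ≤ 2 ^ k * (z (w (j + 1)) / 2 ^ k) :=
      Nat.mul_le_mul_left _ (Nat.one_le_iff_ne_zero.mpr h3)
    have := Nat.one_le_two_pow (n := k)
    omega

/-- operator G0, general form: all the gap positions have exponent `2^k - 1` -/
theorem Wk.G0 (S : Wk w r u e e0) (hw0 : w 0 = 0) {k : ℕ} (hk : k ≤ r)
    (ht : ∀ i : Fin n, e0 i.succ % 2 ^ k = 2 ^ k - 1)
    (hgap : ∀ j < u, ∀ i, w j < i → i < w (j + 1) → e0 i = 2 ^ k - 1)
    (h : Adm e0) : Adm e := by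
  classical
  set G : Finset (Fin n) := Finset.univ.filter
    (fun b : Fin n => ∃ j < u, w j < b.succ ∧ b.succ < w (j + 1)) with hG
  have hpow := Nat.one_le_two_pow (n := k)
  refine adm_of_sieve S hw0 k ht (kill G).toLinearMap (fun g hg => kill_hits G hg) _
    (fun z => kill_mono G z) ?_ ?_ h
  · intro b hb
    rw [hG, Finset.mem_filter] at hb
    obtain ⟨-, j, hj, h1, h2⟩ := hb
    show e0 b.succ / 2 ^ k = 0
    rw [hgap j hj _ h1 h2]
    exact Nat.div_eq_of_lt (by omega)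
  · rintro z hz0 hzm ⟨hwt, j, hj, hpre, hlt⟩ hP
    have h00 : e0 0 = 0 := by rw [← hw0]; exact S.e0_eq_zero
    right
    refine ⟨?_, ?_⟩
    · funext s
      rw [wt_halfk k (fun i : Fin n => z i.succ), wt_halfk k (fun i : Fin n => e0 i.succ),
        wt_tail hz0, wt_tail h00, hwt]
    · have hne : w (j + 1) ≠ 0 := by
        rw [← hw0]
        exact S.inc.ne (by omega) (by have := S.hu; omega) (by omega)
      obtain ⟨b, hb⟩ := Fin.exists_succ_eq.mpr hne
      refine ⟨b, fun i hi => ?_, ?_⟩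
      · show z i.succ / 2 ^ k = e0 i.succ / 2 ^ k
        have hib : i.succ < w (j + 1) := by
          rw [← hb]; exact Fin.succ_lt_succ_iff.mpr hi
        rcases le_or_gt i.succ (w j) with h1 | h1
        · rw [hpre _ h1]
        · have h2 : z i.succ / 2 ^ k = 0 := hP i (by rw [hG, Finset.mem_filter]; exact ⟨Finset.mem_univ _, j, hj, h1, hib⟩)
          rw [h2, hgap j hj _ h1 hib]
          exact (Nat.div_eq_of_lt (by omega)).symm
      · show z b.succ / 2 ^ k < e0 b.succ / 2 ^ k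
        have h1 := hzm b
        rw [hb] at h1 ⊢
        rw [S.e0_w hj]
        have h2 := Nat.div_add_mod (z (w (j + 1))) (2 ^ k)
        rw [h1] at h2
        obtain ⟨m, rfl⟩ : ∃ m, r = k + m := ⟨r - k, by omega⟩
        have hm := Nat.one_le_two_pow (n := m)
        have h3 : 2 ^ (k + m) - 1 = (2 ^ k - 1) + 2 ^ k * (2 ^ m - 1) := by
          rw [pow_add, Nat.mul_sub, mul_one]
          have : 2 ^ k * 1 ≤ 2 ^ k * 2 ^ m := Nat.mul_le_mul_left _ hm
          omega
        rw [h3] at hlt ⊢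
        rw [Nat.add_mul_div_left _ _ (by positivity),
          Nat.div_eq_of_lt (show 2 ^ k - 1 < 2 ^ k by omega), zero_add]
        have h4 : 2 ^ k * (z (w (j + 1)) / 2 ^ k) < 2 ^ k * (2 ^ m - 1) := by omega
        exact Nat.lt_of_mul_lt_mul_left h4

end Pool.Agent.HitD5
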