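import Pool.Agent.HitD5.Tot

set_option autoImplicit false

/-!
# Squares of monomials

`sq a (mono e)` is a sum of monomials `mono (e + p)`, the bits of `p` inside those of `e`,
`∑ p = a`; for `a > 0` the weight vector drops.
-/

namespace Pool.Agent.CTD

open Pool.Agent.Helper60.Hit Pool.Agent.CTL45 MvPolynomial

variable {d : ℕ}

theorem St_X_pow (j : Fin d) (e : ℕ) : St d (X j ^ e) = ∑ i ∈ Finset.range (e + 1),
    Polynomial.C (((e.choose i : ℕ) : MvPolynomial (Fin d) (ZMod 2)) * X j ^ (e + i)) *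
      Polynomial.X ^ i := by
  rw [map_pow, St_X, add_comm, add_pow]
  refine Finset.sum_congr rfl fun i hi => ?_
  rw [Finset.mem_range] at hi
  have h1 : e + i = 2 * i + (e - i) := by omega
  rw [h1, mul_pow, ← Polynomial.C_pow, ← Polynomial.C_pow, ← pow_mul, pow_add, Polynomial.C_mul,
    Polynomial.C_mul, map_natCast]
  ring

theorem St_mono (e : Fin d → ℕ) : St d (mono e) =
    ∑ p ∈ Fintype.piFinset (fun j => Finset.range (e j + 1)),
      Polynomial.C (((∏ j, (e j).choose (p j) : ℕ) : MvPolynomial (Fin d) (ZMod 2)) *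
        mono (e + p)) * Polynomial.X ^ (∑ j, p j) := by
  classical
  rw [mono_eq_prod, map_prod]
  simp_rw [St_X_pow]
  rw [Finset.prod_univ_sum]
  refine Finset.sum_congr rfl fun p _ => ?_
  rw [Finset.prod_mul_distrib, Finset.prod_pow_eq_pow_sum, ← map_prod, Finset.prod_mul_distrib,
    Nat.cast_prod, mono_eq_prod]
  rfl

theorem sq_mono_mem (e : Fin d → ℕ) (a : ℕ) :
    sq d a (mono e) ∈ msp (fun z => ∃ p : Fin d → ℕ, (∀ j, (e j).choose (p j) % 2 = 1) ∧
      ∑ j, p j = a ∧ z = e + p) := by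
  rw [sq_apply, St_mono, Polynomial.finsetSum_coeff]
  refine Submodule.sum_mem _ fun p _ => ?_
  rw [Polynomial.coeff_C_mul_X_pow]
  split_ifs with h
  · refine natCast_mul_mem _ fun hodd => ?_
    apply mono_mem_msp
    refine ⟨p, fun j => ?_, h.symm, rfl⟩
    by_contra hc
    have h2 : 2 ∣ (e j).choose (p j) := by omega
    have h3 : 2 ∣ ∏ j, (e j).choose (p j) := h2.trans (Finset.dvd_prod_of_mem _ (Finset.mem_univ j))
    omega
  · exact Submodule.zero_mem _

theorem bit_two_mul (x s : ℕ) : 2 * x / 2 ^ (s + 1) % 2 = x / 2 ^ s % 2 := by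
  rw [pow_succ', Nat.mul_div_mul_left _ _ (by norm_num)]

theorem bit_two_mul_zero (x : ℕ) : 2 * x / 2 ^ 0 % 2 = 0 := by
  rw [pow_zero, Nat.div_one]; omega

theorem exists_bit {x : ℕ} (h : x ≠ 0) : ∃ s, x / 2 ^ s % 2 = 1 := by
  by_contra hc
  push Not at hc
  have h1 := one_le_popcount x x h Nat.lt_two_pow_self
  have h2 : ∑ s ∈ Finset.range x, x / 2 ^ s % 2 = 0 := by
    refine Finset.sum_eq_zero fun s _ => ?_
    have := hc s
    omega
  omega

theorem wt_two_lt {p : Fin d → ℕ} {j : Fin d} (hj : p j ≠ 0) :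
    LexLT (wt (fun i => 2 * p i)) (wt p) := by
  classical
  have hex : ∃ s, ∃ i, p i / 2 ^ s % 2 = 1 := by
    obtain ⟨s, hs⟩ := exists_bit hj
    exact ⟨s, j, hs⟩
  have hs0 := Nat.find_spec hex
  have hmin : ∀ s' < Nat.find hex, ∀ i, p i / 2 ^ s' % 2 = 0 := by
    intro s' hs' i
    have h1 := Nat.find_min hex hs'
    have h2 : ¬ p i / 2 ^ s' % 2 = 1 := fun h => h1 ⟨i, h⟩
    omega
  generalize Nat.find hex = s0 at hs0 hmin
  have key : ∀ l ≤ s0, wt (fun i => 2 * p i) l = 0 := by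
    intro l hl
    unfold wt
    refine Finset.sum_eq_zero fun i _ => ?_
    rcases l with _ | l
    · exact bit_two_mul_zero _
    · rw [bit_two_mul]; exact hmin l (by omega) i
  refine ⟨s0, ?_, ?_⟩
  · intro l hl
    rw [key l (le_of_lt hl)]
    symm
    unfold wt
    exact Finset.sum_eq_zero fun i _ => hmin l hl i
  · rw [key s0 le_rfl]
    obtain ⟨i, hi⟩ := hs0
    unfold wt
    refine Finset.sum_pos' (fun _ _ => Nat.zero_le _) ⟨i, Finset.mem_univ _, ?_⟩
    omega

theorem wt_sq_le {e p : Fin d → ℕ} (h : ∀ j, (e j).choose (p j) % 2 = 1) :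
    LexLE (wt (e + p)) (wt (fun i => 2 * p i) + wt (fun i => e i - p i)) ∧
      wt e = wt p + wt (fun i => e i - p i) := by
  have hb := fun j => lucas_bits _ _ (h j)
  constructor
  · have h1 : e + p = (fun i => 2 * p i) + (fun i => e i - p i) := by
      funext i
      have := (hb i).1
      simp only [Pi.add_apply]
      omega
    rw [h1]
    exact wt_add_le _ _
  · funext s
    simp only [Pi.add_apply, wt]
    rw [← Finset.sum_add_distrib]
    exact Finset.sum_congr rfl fun j _ => (hb j).2 s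

theorem wt_sq_lt {e p : Fin d → ℕ} (h : ∀ j, (e j).choose (p j) % 2 = 1) {j : Fin d}
    (hj : p j ≠ 0) : LexLT (wt (e + p)) (wt e) := by
  obtain ⟨h1, h2⟩ := wt_sq_le h
  rw [h2]
  exact h1.trans_lt (Pool.Agent.CTL45.LexLT.add_right (wt_two_lt hj) _)

theorem sq_mono_low (e : Fin d → ℕ) {a : ℕ} (ha : 0 < a) :
    sq d a (mono e) ∈ msp (fun z => LexLT (wt z) (wt e)) := by
  refine msp_mono ?_ (sq_mono_mem e a)
  rintro z ⟨p, hp, hsum, rfl⟩
  have : ∃ j, p j ≠ 0 := by
    by_contra hc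
    push Not at hc
    rw [Finset.sum_eq_zero (fun j _ => hc j)] at hsum
    omega
  obtain ⟨j, hj⟩ := this
  exact wt_sq_lt hp hj

end Pool.Agent.CTD
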