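import Pool.Agent.CTL45.BetweenTerm

set_option autoImplicit false

/-!
# The total square with a parameter (for Sum's conjecture in five variables)

`St f = ∑ Sq^k(f) T^k`; `sq k` is the `k`-th square.
-/

namespace Pool.Agent.CTD

open Pool.Agent.Helper60.Hit Pool.Agent.CTL45 MvPolynomial

variable {d : ℕ}

/-- total square with a parameter -/
noncomputable def St (d : ℕ) :
    MvPolynomial (Fin d) (ZMod 2) →ₐ[ZMod 2] Polynomial (MvPolynomial (Fin d) (ZMod 2)) :=
  aeval (fun j => Polynomial.C (X j) + Polynomial.C (X j ^ 2) * Polynomial.X)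

theorem St_X (j : Fin d) :
    St d (X j) = Polynomial.C (X j) + Polynomial.C (X j ^ 2) * Polynomial.X := by
  unfold St
  rw [aeval_X]

/-- the `k`-th square -/
noncomputable def sq (d k : ℕ) :
    MvPolynomial (Fin d) (ZMod 2) →ₗ[ZMod 2] MvPolynomial (Fin d) (ZMod 2) :=
  ((Polynomial.lcoeff (MvPolynomial (Fin d) (ZMod 2)) k).restrictScalars (ZMod 2)).comp
    (St d).toLinearMap

theorem sq_apply (k : ℕ) (f : MvPolynomial (Fin d) (ZMod 2)) : sq d k f = (St d f).coeff k := rfl

theorem eval_St (f : MvPolynomial (Fin d) (ZMod 2)) : (St d f).eval 1 = Sq d f := by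
  have h : ((Polynomial.aeval (1 : MvPolynomial (Fin d) (ZMod 2))).restrictScalars (ZMod 2)).comp
      (St d) = Sq d := by
    apply algHom_ext
    intro j
    rw [AlgHom.comp_apply, St_X]
    unfold Sq
    rw [aeval_X, AlgHom.restrictScalars_apply, map_add, map_mul, Polynomial.aeval_C,
      Polynomial.aeval_C, Polynomial.aeval_X, mul_one]
    rfl
  have h2 := DFunLike.congr_fun h f
  rw [AlgHom.comp_apply, AlgHom.restrictScalars_apply, Polynomial.coe_aeval_eq_eval] at h2
  exact h2

theorem Sq_eq_sum (f : MvPolynomial (Fin d) (ZMod 2)) :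
    Sq d f = ∑ i ∈ Finset.range ((St d f).natDegree + 1), sq d i f := by
  rw [← eval_St, Polynomial.eval_eq_sum_range]
  refine Finset.sum_congr rfl fun i _ => ?_
  rw [one_pow, mul_one, sq_apply]

/-- the coefficients are homogeneous -/
def GH (D : ℕ) (p : Polynomial (MvPolynomial (Fin d) (ZMod 2))) : Prop :=
  ∀ i, (p.coeff i).IsHomogeneous (D + i)

theorem GH.mul {D E : ℕ} {p q : Polynomial (MvPolynomial (Fin d) (ZMod 2))} (hp : GH D p)
    (hq : GH E q) : GH (D + E) (p * q) := by
  intro i
  rw [Polynomial.coeff_mul]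
  refine IsHomogeneous.sum _ _ _ fun x hx => ?_
  rw [Finset.HasAntidiagonal.mem_antidiagonal] at hx
  have h := (hp x.1).mul (hq x.2)
  have e : D + E + i = D + x.1 + (E + x.2) := by omega
  rw [e]; exact h

theorem GH_one : GH 0 (1 : Polynomial (MvPolynomial (Fin d) (ZMod 2))) := by
  intro i
  rw [Polynomial.coeff_one]
  split_ifs with h
  · subst h; exact isHomogeneous_one _ _
  · exact isHomogeneous_zero _ _ _

theorem GH_X (j : Fin d) : GH 1 (St d (X j)) := by
  intro i
  rw [St_X, Polynomial.coeff_add, Polynomial.coeff_C, Polynomial.coeff_C_mul, Polynomial.coeff_X]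
  rcases Nat.eq_zero_or_pos i with h | h
  · subst h; simpa using isHomogeneous_X _ _
  · rcases Nat.lt_or_ge 1 i with h2 | h2
    · rw [if_neg (by omega), if_neg (by omega), mul_zero, add_zero]
      exact isHomogeneous_zero _ _ _
    · have : i = 1 := by omega
      subst this
      simpa using (isHomogeneous_X (ZMod 2) j).pow 2

theorem GH_pow (j : Fin d) (k : ℕ) : GH k (St d (X j) ^ k) := by
  induction k with
  | zero => rw [pow_zero]; exact GH_one
  | succ k ih => rw [pow_succ]; exact ih.mul (GH_X j)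

theorem GH_mono (e : Fin d → ℕ) : GH (∑ j, e j) (St d (mono e)) := by
  rw [mono_eq_prod, map_prod]
  have h : ∀ s : Finset (Fin d), GH (∑ j ∈ s, e j) (∏ j ∈ s, St d (X j ^ e j)) := by
    classical
    intro s
    induction s using Finset.induction_on with
    | empty => rw [Finset.sum_empty, Finset.prod_empty]; exact GH_one
    | insert a s ha ih =>
      rw [Finset.sum_insert ha, Finset.prod_insert ha]
      refine GH.mul ?_ ih
      rw [map_pow]; exact GH_pow a _
  exact h Finset.univ

theorem hc_Sq (e : Fin d → ℕ) (i : ℕ) :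
    homogeneousComponent ((∑ j, e j) + i) (Sq d (mono e)) = sq d i (mono e) := by
  rw [Sq_eq_sum, map_sum]
  have h1 : ∀ k, homogeneousComponent ((∑ j, e j) + i) (sq d k (mono e)) =
      if k = i then sq d k (mono e) else 0 := by
    intro k
    have hk : (sq d k (mono e)).IsHomogeneous ((∑ j, e j) + k) := GH_mono e k
    rw [homogeneousComponent_of_mem hk]
    by_cases h : k = i
    · simp [h]
    · rw [if_neg (by omega), if_neg h]
  simp_rw [h1]
  rw [Finset.sum_ite_eq']
  by_cases hm : i ∈ Finset.range ((St d (mono e)).natDegree + 1)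
  · rw [if_pos hm]
  · rw [if_neg hm, sq_apply]
    rw [Finset.mem_range] at hm
    rw [Polynomial.coeff_eq_zero_of_natDegree_lt (by omega)]

theorem zmod_two_cases (a : ZMod 2) : a = 0 ∨ a = 1 := by revert a; decide

theorem poly_induction {P : MvPolynomial (Fin d) (ZMod 2) → Prop} (h0 : P 0)
    (hadd : ∀ f g, P f → P g → P (f + g)) (hm : ∀ e : Fin d → ℕ, P (mono e))
    (f : MvPolynomial (Fin d) (ZMod 2)) : P f := by
  have hf : f ∈ msp (fun _ : Fin d → ℕ => True) := mem_msp_iff.mpr fun _ _ => trivial
  induction hf using Submodule.span_induction with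
  | zero => exact h0
  | add x y _ _ hx hy => exact hadd x y hx hy
  | smul a x _ hx =>
    rcases zmod_two_cases a with rfl | rfl
    · rw [zero_smul]; exact h0
    · rw [one_smul]; exact hx
  | mem x hx =>
    obtain ⟨y, rfl, -⟩ := hx
    exact hm y

theorem sq_hits {i : ℕ} (hi : 0 < i) (f : MvPolynomial (Fin d) (ZMod 2)) : sq d i f ∈ hits d := by
  induction f using poly_induction with
  | h0 => rw [map_zero]; exact Submodule.zero_mem _
  | hadd f g hf hg => rw [map_add]; exact Submodule.add_mem _ hf hg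
  | hm e => exact Submodule.subset_span ⟨e, i, hi, (hc_Sq e i).symm⟩

theorem hits_induction {P : MvPolynomial (Fin d) (ZMod 2) → Prop} (h0 : P 0)
    (hadd : ∀ f g, P f → P g → P (f + g))
    (hm : ∀ (e : Fin d → ℕ) (i : ℕ), 0 < i → P (sq d i (mono e)))
    {f : MvPolynomial (Fin d) (ZMod 2)} (hf : f ∈ hits d) : P f := by
  induction hf using Submodule.span_induction with
  | zero => exact h0
  | add x y _ _ hx hy => exact hadd x y hx hy
  | smul a x _ hx =>
    rcases zmod_two_cases a with rfl | rfl
    · rw [zero_smul]; exact h0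
    · rw [one_smul]; exact hx
  | mem x hx =>
    obtain ⟨e, i, hi, rfl⟩ := hx
    rw [hc_Sq]
    exact hm e i hi

theorem hc_hits (N : ℕ) {f : MvPolynomial (Fin d) (ZMod 2)} (hf : f ∈ hits d) :
    homogeneousComponent N f ∈ hits d := by
  refine hits_induction (P := fun f => homogeneousComponent N f ∈ hits d) ?_ ?_ ?_ hf
  · rw [map_zero]; exact Submodule.zero_mem _
  · intro f g hf hg; rw [map_add]; exact Submodule.add_mem _ hf hg
  · intro e i hi
    have hk : (sq d i (mono e)).IsHomogeneous ((∑ j, e j) + i) := GH_mono e i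
    rw [homogeneousComponent_of_mem hk]
    split_ifs
    · exact sq_hits hi _
    · exact Submodule.zero_mem _

theorem hc_mono (N : ℕ) (e : Fin d → ℕ) :
    homogeneousComponent N (mono e) = if ∑ j, e j = N then mono e else 0 := by
  rw [homogeneousComponent_of_mem (isHomogeneous_mono e)]
  by_cases h : ∑ j, e j = N
  · rw [if_pos h, if_pos h.symm]
  · rw [if_neg h, if_neg (Ne.symm h)]

theorem hc_msp (N : ℕ) {Q : (Fin d → ℕ) → Prop} {f : MvPolynomial (Fin d) (ZMod 2)}
    (hf : f ∈ msp Q) : homogeneousComponent N f ∈ msp (fun z => Q z ∧ ∑ j, z j = N) := by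
  induction hf using Submodule.span_induction with
  | zero => rw [map_zero]; exact Submodule.zero_mem _
  | add x y _ _ hx hy => rw [map_add]; exact Submodule.add_mem _ hx hy
  | smul a x _ hx => rw [map_smul]; exact Submodule.smul_mem _ _ hx
  | mem x hx =>
    obtain ⟨y, rfl, hy⟩ := hx
    rw [hc_mono]
    split_ifs with h
    · exact mono_mem_msp ⟨hy, h⟩
    · exact Submodule.zero_mem _

/-- Frobenius on polynomials -/
theorem coeff_sq_two (p : Polynomial (MvPolynomial (Fin d) (ZMod 2))) (n : ℕ) :
    (p ^ 2).coeff n = if n % 2 = 0 then (p.coeff (n / 2)) ^ 2 else 0 := by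
  induction p using Polynomial.induction_on' with
  | add p q hp hq =>
    rw [CharTwo.add_sq, Polynomial.coeff_add, hp, hq, Polynomial.coeff_add, CharTwo.add_sq]
    split_ifs
    · rfl
    · rw [add_zero]
  | monomial k a =>
    rw [Polynomial.monomial_pow, Polynomial.coeff_monomial, Polynomial.coeff_monomial]
    by_cases h : k * 2 = n
    · rw [if_pos h, if_pos (by omega), if_pos (by omega)]
    · rw [if_neg h]
      split_ifs with h1 h2
      · omega
      · rw [zero_pow (by norm_num)]
      · rfl

theorem coeff_pow_four (p : Polynomial (MvPolynomial (Fin d) (ZMod 2))) (n : ℕ) :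
    (p ^ 4).coeff n = if n % 4 = 0 then (p.coeff (n / 4)) ^ 4 else 0 := by
  have h : p ^ 4 = (p ^ 2) ^ 2 := by ring
  rw [h, coeff_sq_two]
  split_ifs with h1 h2 h2
  · rw [coeff_sq_two, if_pos (by omega)]
    have h3 : n / 2 / 2 = n / 4 := by omega
    rw [h3]; ring
  · rw [coeff_sq_two, if_neg (by omega), zero_pow (by norm_num)]
  · omega
  · rfl

/-! ### the Cartan formulas -/

theorem St_coeff_zero (f : MvPolynomial (Fin d) (ZMod 2)) : (St d f).coeff 0 = f := by
  have h : ((Polynomial.aeval (0 : MvPolynomial (Fin d) (ZMod 2))).restrictScalars (ZMod 2)).comp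
      (St d) = AlgHom.id (ZMod 2) _ := by
    apply algHom_ext
    intro j
    rw [AlgHom.comp_apply, St_X, AlgHom.restrictScalars_apply, map_add, map_mul,
      Polynomial.aeval_C, Polynomial.aeval_C, Polynomial.aeval_X, mul_zero, add_zero]
    rfl
  have h2 := DFunLike.congr_fun h f
  rw [AlgHom.comp_apply, AlgHom.restrictScalars_apply, Polynomial.coe_aeval_eq_eval] at h2
  rw [Polynomial.coeff_zero_eq_eval_zero]
  exact h2

theorem sq_zero_apply (f : MvPolynomial (Fin d) (ZMod 2)) : sq d 0 f = f := St_coeff_zero f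

theorem sq_one_mul (f g : MvPolynomial (Fin d) (ZMod 2)) :
    sq d 1 (f * g) = f * sq d 1 g + sq d 1 f * g := by
  rw [sq_apply, sq_apply, sq_apply, map_mul, Polynomial.coeff_mul]
  rw [Finset.Nat.antidiagonal_succ, Finset.sum_cons]
  simp [St_coeff_zero]

theorem sq_two_mul (f g : MvPolynomial (Fin d) (ZMod 2)) :
    sq d 2 (f * g) = f * sq d 2 g + sq d 1 f * sq d 1 g + sq d 2 f * g := by
  simp only [sq_apply]
  rw [map_mul, Polynomial.coeff_mul]
  simp [Finset.Nat.antidiagonal_succ, St_coeff_zero]
  ring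

end Pool.Agent.CTD
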